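import Pool.Agent.Lib.MP_95bb8c_al.PS.Defs

set_option autoImplicit false
set_option linter.unusedSectionVars false

/-!
# Basic facts about the chain on the darts
-/

namespace Pool.Agent.Lib.MP_95bb8c_al.PS

open Finset Matrix

variable {S V : Type} [Fintype S] [DecidableEq S] [DecidableEq V]

namespace Chain

theorem P_nonneg (C : Chain S V) (a b : S) : 0 ≤ C.P a b :=
  div_nonneg (C.Q_nonneg a b) (C.s_pos a).le

theorem P_row (C : Chain S V) (a : S) : ∑ b, C.P a b = 1 := by
  unfold P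
  rw [← sum_div, C.row a]
  exact div_self (C.s_pos a).ne'

theorem Z_pos (C : Chain S V) (a : S) : 0 < C.Z :=
  sum_pos (fun b _ => C.s_pos b) ⟨a, mem_univ a⟩

theorem pi_pos (C : Chain S V) (a : S) : 0 < C.pi a :=
  div_pos (C.s_pos a) (C.Z_pos a)

theorem pi_sum [Nonempty S] (C : Chain S V) : ∑ a, C.pi a = 1 := by
  obtain ⟨a⟩ := ‹Nonempty S›
  unfold pi
  rw [← sum_div]
  exact div_self (C.Z_pos a).ne'

theorem pi_rv (C : Chain S V) (a : S) : C.pi (C.rv a) = C.pi a := by
  unfold pi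
  rw [C.s_rv]

/-- the sum over all darts may be taken over the reversed darts -/
theorem sum_rv (C : Chain S V) (f : S → ℚ) : ∑ a, f (C.rv a) = ∑ a, f a :=
  Fintype.sum_equiv ⟨C.rv, C.rv, C.rv_rv, C.rv_rv⟩ _ _ fun _ => rfl

theorem col (C : Chain S V) (b : S) : ∑ a, C.Q a b = C.s b := by
  calc ∑ a, C.Q a b = ∑ a, C.Q (C.rv b) (C.rv a) := sum_congr rfl fun a _ => (C.Q_rv a b).symm
    _ = ∑ a, C.Q (C.rv b) a := C.sum_rv fun a => C.Q (C.rv b) a
    _ = C.s b := by rw [C.row, C.s_rv]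

theorem pi_mul_P (C : Chain S V) (a b : S) : C.pi a * C.P a b = C.Q a b / C.Z := by
  unfold pi P
  have h1 := (C.s_pos a).ne'
  have h2 := (C.Z_pos a).ne'
  field_simp

theorem pi_P (C : Chain S V) (b : S) : ∑ a, C.pi a * C.P a b = C.pi b := by
  simp only [pi_mul_P]
  rw [← sum_div, C.col b]
  rfl

theorem pi_pow (C : Chain S V) (t : ℕ) (b : S) : ∑ a, C.pi a * (C.P ^ t) a b = C.pi b := by
  induction t generalizing b with
  | zero =>
    simp only [pow_zero, Matrix.one_apply, mul_ite, mul_one, mul_zero]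
    rw [sum_ite_eq' univ b C.pi, if_pos (mem_univ b)]
  | succ t ih =>
    simp only [pow_succ, Matrix.mul_apply, mul_sum]
    rw [sum_comm, ← C.pi_P b]
    refine sum_congr rfl fun c _ => ?_
    rw [← ih c, sum_mul]
    exact sum_congr rfl fun a _ => (mul_assoc _ _ _).symm

theorem pow_row (C : Chain S V) (t : ℕ) (a : S) : ∑ b, (C.P ^ t) a b = 1 := by
  induction t with
  | zero =>
    simp only [pow_zero, Matrix.one_apply]
    rw [sum_ite_eq univ a (fun _ => (1 : ℚ)), if_pos (mem_univ a)]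
  | succ t ih =>
    simp only [pow_succ, Matrix.mul_apply]
    rw [sum_comm]
    simp only [← mul_sum, C.P_row, mul_one]
    exact ih

theorem pow_nonneg' (C : Chain S V) (t : ℕ) (a b : S) : 0 ≤ (C.P ^ t) a b := by
  induction t generalizing b with
  | zero =>
    rw [pow_zero, Matrix.one_apply]
    split_ifs
    · exact zero_le_one
    · exact le_rfl
  | succ t ih =>
    rw [pow_succ, Matrix.mul_apply]
    exact sum_nonneg fun c _ => mul_nonneg (ih c) (C.P_nonneg c b)

theorem rev_one (C : Chain S V) (a b : S) :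
    C.pi a * C.P a b = C.pi b * C.P (C.rv b) (C.rv a) := by
  rw [pi_mul_P, ← C.Q_rv a b, ← pi_mul_P, pi_rv]

theorem rev (C : Chain S V) (t : ℕ) (a b : S) :
    C.pi a * (C.P ^ t) a b = C.pi b * (C.P ^ t) (C.rv b) (C.rv a) := by
  induction t generalizing b with
  | zero =>
    rw [pow_zero, Matrix.one_apply, Matrix.one_apply]
    by_cases h : a = b
    · rw [if_pos h, if_pos (by rw [h]), h]
    · have h' : ¬ C.rv b = C.rv a := fun e => h (by rw [← C.rv_rv a, ← e, C.rv_rv b])
      rw [if_neg h, if_neg h', mul_zero, mul_zero]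
  | succ t ih =>
    rw [pow_succ, Matrix.mul_apply, ← pow_succ, pow_succ', Matrix.mul_apply, mul_sum, mul_sum,
      ← C.sum_rv (fun c => C.pi b * (C.P (C.rv b) c * (C.P ^ t) c (C.rv a)))]
    refine sum_congr rfl fun c _ => ?_
    rw [← mul_assoc, ih c, ← mul_assoc, ← C.rev_one c b]
    ring

theorem Q_eq [Nonempty S] (C : Chain S V) (a b : S) : C.Z * C.pi a * C.P a b = C.Q a b := by
  rw [mul_assoc, pi_mul_P]
  exact mul_div_cancel₀ _ (C.Z_pos a).ne'

end Chain

end Pool.Agent.Lib.MP_95bb8c_al.PS
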