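import Pool.Agent.Lib.MP_95bb8c_al.PS.Basic

set_option autoImplicit false
set_option linter.unusedSectionVars false

/-!
# Overlap, step and one-step bounds for the chain on the darts of a graph
-/

namespace Pool.Agent.Lib.MP_95bb8c_al.PS

open Finset Matrix

section Graph

variable {V E : Type} [Fintype V] [DecidableEq V] [Fintype E] [DecidableEq E]

theorem p10_tl_rvd (s t : E → V) (a : E × Bool) : GW.tl s t (GW.rvd a) = GW.hd s t a := by
  obtain ⟨e, b⟩ := a
  cases b <;> rfl

theorem p10_tl_ne_hd {s t : E → V} (hl : ∀ e, s e ≠ t e) (a : E × Bool) :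
    GW.tl s t a ≠ GW.hd s t a := by
  obtain ⟨e, b⟩ := a
  cases b
  · exact (hl e).symm
  · exact hl e

/-- the edge of a dart from `u` to `v` joins `u` and `v` -/
theorem p10_mem_J_of_dart {s t : E → V} {u v : V} (huv : u ≠ v) {a : E × Bool}
    (h1 : GW.tl s t a = u) (h2 : GW.hd s t a = v) : a.1 ∈ GW.J s t u v := by
  obtain ⟨e, b⟩ := a
  rw [GW.J, mem_filter]
  refine ⟨mem_univ _, huv, ?_⟩
  cases b
  · exact Or.inr ⟨h2, h1⟩
  · exact Or.inl ⟨h1, h2⟩

/-- the number of darts from `u` to `v` -/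
theorem p10_card_darts_le {s t : E → V} (hl : ∀ e, s e ≠ t e) (u v : V) :
    (univ.filter fun b : E × Bool => GW.tl s t b = u ∧ GW.hd s t b = v).card ≤
      (GW.J s t u v).card := by
  by_cases huv : u = v
  · subst huv
    have : (univ.filter fun b : E × Bool => GW.tl s t b = u ∧ GW.hd s t b = u) = ∅ := by
      rw [filter_eq_empty_iff]
      rintro b _ ⟨h1, h2⟩
      exact p10_tl_ne_hd hl b (h1.trans h2.symm)
    rw [this, card_empty]
    exact Nat.zero_le _
  · refine card_le_card_of_injOn Prod.fst ?_ ?_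
    · intro b hb
      rw [mem_coe, mem_filter] at hb
      exact p10_mem_J_of_dart huv hb.2.1 hb.2.2
    · rintro ⟨e, b⟩ hb ⟨e', b'⟩ hb' he
      rw [mem_coe, mem_filter] at hb hb'
      have he : e = e' := he
      subst he
      cases b <;> cases b'
      · rfl
      · exact absurd (hb'.2.1.trans hb.2.1.symm) (hl e)
      · exact absurd (hb.2.1.trans hb'.2.1.symm) (hl e)
      · rfl

theorem p10_mem_cut_single {s t : E → V} (hl : ∀ e, s e ≠ t e) (v : V) (e : E) :
    e ∈ cut s t {v} ↔ s e = v ∨ t e = v := by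
  rw [cut, mem_filter, mem_singleton, mem_singleton]
  have h := hl e
  constructor
  · rintro ⟨-, h1⟩
    by_contra h2
    rw [not_or] at h2
    exact h1 ⟨fun h3 => absurd h3 h2.1, fun h3 => absurd h3 h2.2⟩
  · intro h1
    refine ⟨mem_univ _, fun h2 => ?_⟩
    rcases h1 with h1 | h1
    · exact h (h1.trans (h2.mp h1).symm)
    · exact h ((h2.mpr h1).trans h1.symm)

theorem p10_tl_outD {s t : E → V} (hl : ∀ e, s e ≠ t e) {v : V} {e : E} (he : e ∈ cut s t {v}) :
    GW.tl s t (GW.outD s v e) = v := by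
  rw [p10_mem_cut_single hl] at he
  unfold GW.outD GW.tl
  by_cases h : s e = v
  · simp [h]
  · simp only [h, decide_false, Bool.false_eq_true, if_false]
    exact he.resolve_left h

theorem p10_outD_injective (s : E → V) (v : V) : Function.Injective (GW.outD s v) :=
  fun _ _ h => congrArg Prod.fst h

theorem chain_over {s t : E → V} (hl : ∀ e, s e ≠ t e) (lam : ℚ) (hlam : 0 < lam)
    (κ : V → E → E → ℚ) (hκ : ∀ v e f, 0 ≤ κ v e f)
    (C : Chain (E × Bool) V) (hrv : C.rv = GW.rvd) (htl : C.tl = GW.tl s t)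
    (hQ : ∀ a b, C.Q a b = if GW.hd s t a = GW.tl s t b ∧ GW.tl s t a ≠ GW.hd s t b then
      lam + κ (GW.hd s t a) a.1 b.1 else 0) (hs1 : ∀ a, C.s a ≤ 1) (M d : ℚ)
    (hM : ∀ u v, ((GW.J s t u v).card : ℚ) ≤ M)
    (hd : ∀ v, (cut s t {v}).Nonempty → d ≤ ((cut s t {v}).card : ℚ)) :
    C.Over (lam * (d - 2 * M)) := by
  intro a b hab
  rw [htl, hrv, p10_tl_rvd, p10_tl_rvd] at hab
  -- the edges at `v` which go neither to the tail of `a` nor to that of `b`
  set v := GW.hd s t a with hv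
  let Y : Finset E := ((cut s t {v}) \ GW.J s t v (GW.tl s t a)) \ GW.J s t v (GW.tl s t b)
  have hY : d - 2 * M ≤ (Y.card : ℚ) := by
    have h1 := le_card_sdiff (GW.J s t v (GW.tl s t a)) (cut s t {v})
    have h2 := le_card_sdiff (GW.J s t v (GW.tl s t b))
      ((cut s t {v}) \ GW.J s t v (GW.tl s t a))
    have h3 : (cut s t {v}).card ≤ Y.card + (GW.J s t v (GW.tl s t a)).card +
        (GW.J s t v (GW.tl s t b)).card := by
      change _ ≤ (((cut s t {v}) \ GW.J s t v (GW.tl s t a)) \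
        GW.J s t v (GW.tl s t b)).card + _ + _
      omega
    have h4 : ((cut s t {v}).card : ℚ) ≤ (Y.card : ℚ) + ((GW.J s t v (GW.tl s t a)).card : ℚ) +
        ((GW.J s t v (GW.tl s t b)).card : ℚ) := by exact_mod_cast h3
    have h5 := hM v (GW.tl s t a)
    have h6 := hM v (GW.tl s t b)
    have hva : a.1 ∈ cut s t {v} := by
      rw [mem_star hl]
      obtain ⟨e, b⟩ := a
      cases b
      · left; simp [hv, GW.hd]
      · right; simp [hv, GW.hd]
    have h7 := hd v ⟨a.1, hva⟩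
    linarith
  have hmin : ∀ e ∈ Y, lam ≤ min (C.P a (GW.outD s v e)) (C.P b (GW.outD s v e)) := by
    intro e he
    rw [mem_sdiff, mem_sdiff] at he
    obtain ⟨⟨hcut, hJa⟩, hJb⟩ := he
    have htl' := p10_tl_outD hl hcut
    have key : ∀ c : E × Bool, GW.hd s t c = v → e ∉ GW.J s t v (GW.tl s t c) →
        lam ≤ C.P c (GW.outD s v e) := by
      intro c hc hJ
      have hne : GW.tl s t c ≠ GW.hd s t (GW.outD s v e) := by
        intro h
        have h1 : v ≠ GW.tl s t c := by
          rw [← hc]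
          exact (p10_tl_ne_hd hl c).symm
        exact hJ (p10_mem_J_of_dart h1 htl' h.symm)
      have h2 : C.Q c (GW.outD s v e) = lam + κ (GW.hd s t c) c.1 (GW.outD s v e).1 := by
        rw [hQ, if_pos ⟨hc.trans htl'.symm, hne⟩]
      have h3 : lam ≤ C.Q c (GW.outD s v e) := by
        rw [h2]
        linarith [hκ (GW.hd s t c) c.1 (GW.outD s v e).1]
      calc lam ≤ C.Q c (GW.outD s v e) := h3
        _ ≤ C.Q c (GW.outD s v e) / C.s c := by
          rw [le_div_iff₀ (C.s_pos c)]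
          exact mul_le_of_le_one_right (C.Q_nonneg _ _) (hs1 c)
    exact le_min (key a hv.symm hJa) (key b hab.symm hJb)
  calc lam * (d - 2 * M) ≤ lam * (Y.card : ℚ) := mul_le_mul_of_nonneg_left hY hlam.le
    _ = ∑ _e ∈ Y, lam := by rw [sum_const, nsmul_eq_mul, mul_comm]
    _ ≤ ∑ e ∈ Y, min (C.P a (GW.outD s v e)) (C.P b (GW.outD s v e)) := sum_le_sum hmin
    _ = ∑ x ∈ Y.image (GW.outD s v), min (C.P a x) (C.P b x) := by
      rw [sum_image]
      intro x _ y _ h
      exact p10_outD_injective s v h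
    _ ≤ ∑ x, min (C.P a x) (C.P b x) :=
      sum_le_sum_of_subset_of_nonneg (subset_univ _)
        fun x _ _ => le_min (C.P_nonneg a x) (C.P_nonneg b x)

theorem p10_P_le_two {C : Chain (E × Bool) V} (hs : ∀ a, 1 / 2 ≤ C.s a) (a b : E × Bool) :
    C.P a b ≤ 2 * C.Q a b := by
  change C.Q a b / C.s a ≤ _
  rw [div_le_iff₀ (C.s_pos a)]
  have h1 := hs a
  have h2 := C.Q_nonneg a b
  nlinarith

theorem chain_step {s t : E → V} (hl : ∀ e, s e ≠ t e) (lam B : ℚ) (hlam : 0 < lam)
    (κ : V → E → E → ℚ) (hκ : ∀ v e f, 0 ≤ κ v e f) (hκB : ∀ v e f, lam + κ v e f ≤ B)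
    (C : Chain (E × Bool) V) (hrv : C.rv = GW.rvd) (htl : C.tl = GW.tl s t)
    (hQ : ∀ a b, C.Q a b = if GW.hd s t a = GW.tl s t b ∧ GW.tl s t a ≠ GW.hd s t b then
      lam + κ (GW.hd s t a) a.1 b.1 else 0) (hs : ∀ a, 1 / 2 ≤ C.s a) (M : ℚ)
    (hM : ∀ u v, ((GW.J s t u v).card : ℚ) ≤ M) :
    C.Step (2 * B * M) := by
  intro x v
  have hB : 0 < B := by
    have h1 := hκB (GW.hd s t x) x.1 x.1
    have h2 := hκ (GW.hd s t x) x.1 x.1
    linarith
  have h1 : ∀ b, (if C.tl (C.rv b) = v then C.P x b else 0) ≤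
      if GW.tl s t b = GW.hd s t x ∧ GW.hd s t b = v then 2 * B else 0 := by
    intro b
    rw [htl, hrv, p10_tl_rvd]
    by_cases hb : GW.hd s t b = v
    · rw [if_pos hb]
      by_cases hc : GW.tl s t b = GW.hd s t x
      · rw [if_pos ⟨hc, hb⟩]
        refine (p10_P_le_two hs x b).trans ?_
        rw [hQ]
        split_ifs
        · have := hκB (GW.hd s t x) x.1 b.1
          linarith
        · linarith
      · rw [if_neg fun h => hc h.1]
        have h2 : C.Q x b = 0 := by
          rw [hQ, if_neg fun h => hc h.1.symm]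
        change C.Q x b / C.s x ≤ 0
        rw [h2, zero_div]
    · rw [if_neg hb, if_neg fun h => hb h.2]
  calc ∑ b, (if C.tl (C.rv b) = v then C.P x b else 0)
      ≤ ∑ b, (if GW.tl s t b = GW.hd s t x ∧ GW.hd s t b = v then 2 * B else 0) :=
        sum_le_sum fun b _ => h1 b
    _ = ((univ.filter fun b : E × Bool => GW.tl s t b = GW.hd s t x ∧
          GW.hd s t b = v).card : ℚ) * (2 * B) := by
        rw [← sum_filter, sum_const, nsmul_eq_mul]
    _ ≤ M * (2 * B) := by
        refine mul_le_mul_of_nonneg_right ?_ (by linarith)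
        refine le_trans ?_ (hM (GW.hd s t x) v)
        exact_mod_cast p10_card_darts_le hl _ _
    _ = 2 * B * M := by ring

theorem chain_max {s t : E → V} (hl : ∀ e, s e ≠ t e) (lam B : ℚ) (hlam : 0 < lam)
    (κ : V → E → E → ℚ) (hκ : ∀ v e f, 0 ≤ κ v e f) (hκB : ∀ v e f, lam + κ v e f ≤ B)
    (C : Chain (E × Bool) V)
    (hQ : ∀ a b, C.Q a b = if GW.hd s t a = GW.tl s t b ∧ GW.tl s t a ≠ GW.hd s t b then
      lam + κ (GW.hd s t a) a.1 b.1 else 0) (hs : ∀ a, 1 / 2 ≤ C.s a) (hs1 : ∀ a, C.s a ≤ 1)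
    (a b : E × Bool) : C.P a b ≤ 8 * B * Fintype.card E * C.pi b := by
  have hB : 0 < B := by
    have h1 := hκB (GW.hd s t a) a.1 a.1
    have h2 := hκ (GW.hd s t a) a.1 a.1
    linarith
  have h1 : C.Q a b ≤ B := by
    rw [hQ]
    split_ifs
    · exact hκB _ _ _
    · exact hB.le
  have hZ0 : 0 < C.Z := C.Z_pos a
  have hZ : C.Z ≤ 2 * Fintype.card E := by
    calc C.Z ≤ ∑ _c : E × Bool, (1 : ℚ) := sum_le_sum fun c _ => hs1 c
      _ = 2 * Fintype.card E := by
        rw [sum_const, card_univ, Fintype.card_prod, Fintype.card_bool, nsmul_eq_mul, mul_one]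
        push_cast
        ring
  have h2 : 1 / 2 / C.Z ≤ C.pi b := by
    change _ ≤ C.s b / C.Z
    exact div_le_div_of_nonneg_right (hs b) hZ0.le
  have h3 : (1 : ℚ) / 4 ≤ Fintype.card E * C.pi b := by
    calc (1 : ℚ) / 4 = C.Z / 2 * (1 / 2 / C.Z) := by
          field_simp
          norm_num
      _ ≤ Fintype.card E * C.pi b := by
          refine mul_le_mul (by linarith) h2 (by positivity) (by positivity)
  calc C.P a b ≤ 2 * C.Q a b := p10_P_le_two hs a b
    _ ≤ 2 * B := by linarith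
    _ = 8 * B * (1 / 4) := by ring
    _ ≤ 8 * B * (Fintype.card E * C.pi b) := mul_le_mul_of_nonneg_left h3 (by linarith)
    _ = 8 * B * Fintype.card E * C.pi b := by ring

end Graph

end Pool.Agent.Lib.MP_95bb8c_al.PS
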