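import Pool.Agent.Lib.MP_95bb8c_al.PS.TwoPoint
import Pool.Agent.Lib.MP_95bb8c_al.PS.Basic

set_option autoImplicit false
set_option linter.unusedSectionVars false

/-!
# The closed sequences which are not simple have small weight
-/

namespace Pool.Agent.Lib.MP_95bb8c_al.PS

open Finset Matrix

variable {S V : Type} [Fintype S] [DecidableEq S] [DecidableEq V]

namespace Chain

theorem head_le (C : Chain S V) {ε : ℚ} (hstep : C.Step ε) (t : ℕ) (x : S) (v : V) :
    ∑ y, (if C.tl (C.rv y) = v then (C.P ^ (t + 1)) x y else 0) ≤ ε := by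
  have h1 : ∀ y, (if C.tl (C.rv y) = v then (C.P ^ (t + 1)) x y else 0) =
      ∑ w, (C.P ^ t) x w * (if C.tl (C.rv y) = v then C.P w y else 0) := by
    intro y
    split_ifs with h
    · rw [pow_succ, Matrix.mul_apply]
    · simp
  simp only [h1]
  rw [Finset.sum_comm]
  simp only [← Finset.mul_sum]
  calc ∑ w, (C.P ^ t) x w * ∑ y, (if C.tl (C.rv y) = v then C.P w y else 0)
      ≤ ∑ w, (C.P ^ t) x w * ε :=
        Finset.sum_le_sum fun w _ => mul_le_mul_of_nonneg_left (hstep w v) (C.pow_nonneg' t x w)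
    _ = ε := by rw [← Finset.sum_mul, C.pow_row, one_mul]

theorem tail_eq (C : Chain S V) (t : ℕ) (x : S) (v : V) :
    ∑ y, (if C.tl y = v then (C.P ^ (t + 1)) x y else 0) =
      ∑ z, (if C.tl (C.rv z) = v then (C.P ^ t) x z else 0) := by
  have h1 : ∀ y, (if C.tl y = v then (C.P ^ (t + 1)) x y else 0) =
      ∑ w, (C.P ^ t) x w * (if C.tl y = v then C.P w y else 0) := by
    intro y
    split_ifs with h
    · rw [pow_succ, Matrix.mul_apply]
    · simp
  simp only [h1]
  rw [Finset.sum_comm]
  refine Finset.sum_congr rfl fun w _ => ?_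
  rw [← Finset.mul_sum]
  have h2 : ∀ y, (if C.tl y = v then C.P w y else 0) =
      (if C.tl (C.rv w) = v then C.P w y else 0) := by
    intro y
    by_cases hP : C.P w y = 0
    · simp [hP]
    · have hQ : C.Q w y ≠ 0 := by
        intro h0
        apply hP
        simp [P, h0]
      rw [((C.Q_ne w y).1 hQ).1]
  simp only [h2]
  split_ifs with h
  · rw [C.P_row, mul_one]
  · simp

theorem head_rv (C : Chain S V) {ε : ℚ} (hstep : C.Step ε) {t : ℕ} (ht : 1 ≤ t) (x : S)
    (v : V) : ∑ y, (if C.tl y = v then (C.P ^ t) x (C.rv y) else 0) ≤ ε := by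
  obtain ⟨t, rfl⟩ : ∃ k, t = k + 1 := ⟨t - 1, by omega⟩
  have h1 : ∑ y, (if C.tl y = v then (C.P ^ (t + 1)) x (C.rv y) else 0) =
      ∑ y, (if C.tl (C.rv y) = v then (C.P ^ (t + 1)) x y else 0) := by
    refine Fintype.sum_bijective C.rv (Function.Involutive.bijective C.rv_rv) _ _ fun y => ?_
    rw [C.rv_rv]
  rw [h1]
  exact C.head_le hstep t x v

theorem tail_self (C : Chain S V) {ε : ℚ} (hε : 0 ≤ ε) (hstep : C.Step ε) {t : ℕ} (ht : 1 ≤ t)
    (x : S) : ∑ y, (if C.tl y = C.tl x then (C.P ^ t) x y else 0) ≤ ε := by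
  obtain ⟨t, rfl⟩ : ∃ k, t = k + 1 := ⟨t - 1, by omega⟩
  rw [C.tail_eq]
  cases t with
  | zero =>
    refine le_trans (le_of_eq ?_) hε
    refine Finset.sum_eq_zero fun z _ => ?_
    split_ifs with h
    · rw [pow_zero, Matrix.one_apply, if_neg]
      rintro rfl
      exact C.loopless _ h.symm
    · rfl
  | succ t => exact C.head_le hstep t x _

theorem pow_le_pi (C : Chain S V) {T : ℕ} {γ : ℚ} (hγ1 : γ ≤ 1) (hmix : C.Mix T γ) {t : ℕ}
    (ht : T ≤ t) (x y : S) : (C.P ^ t) x y ≤ 2 * C.pi y := by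
  have h1 := (abs_le.1 (hmix t ht x y)).2
  have h2 := mul_le_mul_of_nonneg_right hγ1 (C.pi_pos y).le
  linarith

/-- The contribution of a pair of places after the first one. -/
theorem pair_le (C : Chain S V) {T : ℕ} {γ ε : ℚ} (hγ1 : γ ≤ 1) (hmix : C.Mix T γ)
    (hε : 0 ≤ ε) (hstep : C.Step ε) (a b c : ℕ) (hb : 1 ≤ b) (hc : 1 ≤ c)
    (h : T ≤ a ∨ T ≤ b ∨ T ≤ c) (g k : S) :
    ∑ x, ∑ y, (C.P ^ a) k x * (C.P ^ b) x y * (C.P ^ c) y g *
      (if C.tl y = C.tl x then 1 else 0) ≤ 2 * ε * C.pi g := by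
  have hn := C.pow_nonneg'
  have hpg := (C.pi_pos g).le
  rcases h with h | h | h
  · -- replace the first power
    calc ∑ x, ∑ y, (C.P ^ a) k x * (C.P ^ b) x y * (C.P ^ c) y g *
          (if C.tl y = C.tl x then 1 else 0)
        ≤ ∑ x, ∑ y, 2 * (C.pi y * (C.P ^ c) y g *
          (if C.tl x = C.tl y then (C.P ^ b) (C.rv y) (C.rv x) else 0)) := by
          refine Finset.sum_le_sum fun x _ => Finset.sum_le_sum fun y _ => ?_
          by_cases hxy : C.tl y = C.tl x
          · rw [if_pos hxy, if_pos hxy.symm, mul_one]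
            have h1 := C.pow_le_pi hγ1 hmix h k x
            have h2 := C.rev b x y
            calc (C.P ^ a) k x * (C.P ^ b) x y * (C.P ^ c) y g
                ≤ 2 * C.pi x * (C.P ^ b) x y * (C.P ^ c) y g :=
                  mul_le_mul_of_nonneg_right (mul_le_mul_of_nonneg_right h1 (hn b x y))
                    (hn c y g)
              _ = 2 * (C.pi x * (C.P ^ b) x y) * (C.P ^ c) y g := by ring
              _ = _ := by rw [h2]; ring
          · rw [if_neg hxy, if_neg (Ne.symm hxy)]
            simp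
      _ = ∑ y, 2 * (C.pi y * (C.P ^ c) y g *
          ∑ x, (if C.tl x = C.tl y then (C.P ^ b) (C.rv y) (C.rv x) else 0)) := by
          rw [Finset.sum_comm]
          simp only [Finset.mul_sum]
      _ ≤ ∑ y, 2 * (C.pi y * (C.P ^ c) y g * ε) := by
          refine Finset.sum_le_sum fun y _ => mul_le_mul_of_nonneg_left ?_ (by norm_num)
          exact mul_le_mul_of_nonneg_left (C.head_rv hstep hb (C.rv y) (C.tl y))
            (mul_nonneg (C.pi_pos y).le (hn c y g))
      _ = 2 * ε * C.pi g := by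
          rw [← C.pi_pow c g, Finset.mul_sum]
          exact Finset.sum_congr rfl fun y _ => by ring
  · -- replace the second power
    calc ∑ x, ∑ y, (C.P ^ a) k x * (C.P ^ b) x y * (C.P ^ c) y g *
          (if C.tl y = C.tl x then 1 else 0)
        ≤ ∑ x, ∑ y, 2 * C.pi g * ((C.P ^ a) k x *
          (if C.tl y = C.tl x then (C.P ^ c) (C.rv g) (C.rv y) else 0)) := by
          refine Finset.sum_le_sum fun x _ => Finset.sum_le_sum fun y _ => ?_
          by_cases hxy : C.tl y = C.tl x
          · rw [if_pos hxy, if_pos hxy, mul_one]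
            have h1 := C.pow_le_pi hγ1 hmix h x y
            have h2 := C.rev c y g
            calc (C.P ^ a) k x * (C.P ^ b) x y * (C.P ^ c) y g
                ≤ (C.P ^ a) k x * (2 * C.pi y) * (C.P ^ c) y g :=
                  mul_le_mul_of_nonneg_right (mul_le_mul_of_nonneg_left h1 (hn a k x))
                    (hn c y g)
              _ = 2 * (C.P ^ a) k x * (C.pi y * (C.P ^ c) y g) := by ring
              _ = _ := by rw [h2]; ring
          · rw [if_neg hxy, if_neg hxy]
            simp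
      _ = ∑ x, 2 * C.pi g * ((C.P ^ a) k x *
          ∑ y, (if C.tl y = C.tl x then (C.P ^ c) (C.rv g) (C.rv y) else 0)) := by
          simp only [Finset.mul_sum]
      _ ≤ ∑ x, 2 * C.pi g * ((C.P ^ a) k x * ε) := by
          refine Finset.sum_le_sum fun x _ => mul_le_mul_of_nonneg_left ?_ (by positivity)
          exact mul_le_mul_of_nonneg_left (C.head_rv hstep hc (C.rv g) (C.tl x)) (hn a k x)
      _ = 2 * ε * C.pi g := by
          rw [← Finset.mul_sum, ← Finset.sum_mul, C.pow_row]
          ring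
  · -- replace the third power
    calc ∑ x, ∑ y, (C.P ^ a) k x * (C.P ^ b) x y * (C.P ^ c) y g *
          (if C.tl y = C.tl x then 1 else 0)
        ≤ ∑ x, ∑ y, 2 * C.pi g * ((C.P ^ a) k x *
          (if C.tl y = C.tl x then (C.P ^ b) x y else 0)) := by
          refine Finset.sum_le_sum fun x _ => Finset.sum_le_sum fun y _ => ?_
          by_cases hxy : C.tl y = C.tl x
          · rw [if_pos hxy, if_pos hxy, mul_one]
            have h1 := C.pow_le_pi hγ1 hmix h y g
            have h3 : 0 ≤ (C.P ^ a) k x * (C.P ^ b) x y := mul_nonneg (hn a k x) (hn b x y)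
            calc (C.P ^ a) k x * (C.P ^ b) x y * (C.P ^ c) y g
                ≤ (C.P ^ a) k x * (C.P ^ b) x y * (2 * C.pi g) :=
                  mul_le_mul_of_nonneg_left h1 h3
              _ = _ := by ring
          · rw [if_neg hxy, if_neg hxy]
            simp
      _ = ∑ x, 2 * C.pi g * ((C.P ^ a) k x *
          ∑ y, (if C.tl y = C.tl x then (C.P ^ b) x y else 0)) := by
          simp only [Finset.mul_sum]
      _ ≤ ∑ x, 2 * C.pi g * ((C.P ^ a) k x * ε) := by
          refine Finset.sum_le_sum fun x _ => mul_le_mul_of_nonneg_left ?_ (by positivity)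
          exact mul_le_mul_of_nonneg_left (C.tail_self hε hstep hb x) (hn a k x)
      _ = 2 * ε * C.pi g := by
          rw [← Finset.mul_sum, ← Finset.sum_mul, C.pow_row]
          ring

/-- The contribution of a pair of places with the first one. -/
theorem pair_zero_le (C : Chain S V) {T : ℕ} {γ ε : ℚ} (hγ1 : γ ≤ 1) (hmix : C.Mix T γ)
    (hε : 0 ≤ ε) (hstep : C.Step ε) (a c : ℕ) (hc : 1 ≤ c) (h : T ≤ a ∨ T ≤ c) (g k : S)
    (hQ : C.Q g k ≠ 0) :
    ∑ x, (C.P ^ a) k x * (C.P ^ c) x g * (if C.tl x = C.tl g then 1 else 0)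
      ≤ 2 * ε * C.pi g := by
  have hn := C.pow_nonneg'
  have hpg := (C.pi_pos g).le
  rcases h with h | h
  · calc ∑ x, (C.P ^ a) k x * (C.P ^ c) x g * (if C.tl x = C.tl g then 1 else 0)
        ≤ ∑ x, 2 * C.pi g *
          (if C.tl x = C.tl g then (C.P ^ c) (C.rv g) (C.rv x) else 0) := by
          refine Finset.sum_le_sum fun x _ => ?_
          by_cases hx : C.tl x = C.tl g
          · rw [if_pos hx, if_pos hx, mul_one]
            have h1 := C.pow_le_pi hγ1 hmix h k x
            have h2 := C.rev c x g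
            calc (C.P ^ a) k x * (C.P ^ c) x g ≤ 2 * C.pi x * (C.P ^ c) x g :=
                  mul_le_mul_of_nonneg_right h1 (hn c x g)
              _ = 2 * (C.pi x * (C.P ^ c) x g) := by ring
              _ = _ := by rw [h2]; ring
          · rw [if_neg hx, if_neg hx]
            simp
      _ = 2 * C.pi g * ∑ x, (if C.tl x = C.tl g then (C.P ^ c) (C.rv g) (C.rv x) else 0) := by
          rw [Finset.mul_sum]
      _ ≤ 2 * C.pi g * ε :=
          mul_le_mul_of_nonneg_left (C.head_rv hstep hc (C.rv g) (C.tl g)) (by positivity)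
      _ = 2 * ε * C.pi g := by ring
  · have hk := (C.Q_ne g k).1 hQ
    have hsum : ∑ x, (if C.tl x = C.tl g then (C.P ^ a) k x else 0) ≤ ε := by
      rcases a with _ | _ | a
      · refine le_trans (le_of_eq ?_) hε
        refine Finset.sum_eq_zero fun x _ => ?_
        split_ifs with hx
        · rw [pow_zero, Matrix.one_apply, if_neg]
          rintro rfl
          apply C.loopless g
          rw [← hk.1]
          exact hx.symm
        · rfl
      · rw [C.tail_eq]
        refine le_trans (le_of_eq ?_) hε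
        refine Finset.sum_eq_zero fun x _ => ?_
        split_ifs with hx
        · rw [pow_zero, Matrix.one_apply, if_neg]
          rintro rfl
          exact hk.2 hx
        · rfl
      · rw [C.tail_eq]
        exact C.head_le hstep a k _
    calc ∑ x, (C.P ^ a) k x * (C.P ^ c) x g * (if C.tl x = C.tl g then 1 else 0)
        ≤ ∑ x, 2 * C.pi g * (if C.tl x = C.tl g then (C.P ^ a) k x else 0) := by
          refine Finset.sum_le_sum fun x _ => ?_
          by_cases hx : C.tl x = C.tl g
          · rw [if_pos hx, if_pos hx, mul_one]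
            have h1 := C.pow_le_pi hγ1 hmix h x g
            calc (C.P ^ a) k x * (C.P ^ c) x g ≤ (C.P ^ a) k x * (2 * C.pi g) :=
                  mul_le_mul_of_nonneg_left h1 (hn a k x)
              _ = _ := by ring
          · rw [if_neg hx, if_neg hx]
            simp
      _ = 2 * C.pi g * ∑ x, (if C.tl x = C.tl g then (C.P ^ a) k x else 0) := by
          rw [Finset.mul_sum]
      _ ≤ 2 * C.pi g * ε := mul_le_mul_of_nonneg_left hsum (by positivity)
      _ = 2 * ε * C.pi g := by ring

theorem cw_nonneg (C : Chain S V) {n : ℕ} (a : Fin (n + 1) → S) : 0 ≤ cw C.P a :=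
  Finset.prod_nonneg fun _ _ => C.P_nonneg _ _

/-- The contribution of one pair of places. -/
theorem pair_total (C : Chain S V) (T : ℕ) (γ ε : ℚ) (hγ1 : γ ≤ 1) (hmix : C.Mix T γ)
    (hε : 0 ≤ ε) (hstep : C.Step ε) (n : ℕ) (hn : 3 * T + 3 ≤ n) (g h : S)
    (i j : Fin (n + 1)) (hij : i < j) :
    C.Z * ∑ a : Fin (n + 1) → S, (if a 0 = g ∧ a 1 = h then
      cw C.P a * (if C.tl (a j) = C.tl (a i) then 1 else 0) else 0) ≤ 2 * ε * C.Q g h := by
  have : Nonempty S := ⟨g⟩
  have hj : 1 ≤ j.1 := by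
    have := Fin.lt_def.1 hij
    omega
  have hjn : j.1 ≤ n := by omega
  have hQP : C.Q g h = 0 → C.P g h = 0 := by
    intro h0
    simp [P, h0]
  rcases Nat.eq_zero_or_pos i.1 with hi | hi
  · -- the first place
    have hi0 : i = 0 := Fin.ext hi
    subst hi0
    have h1 : ∑ a : Fin (n + 1) → S, (if a 0 = g ∧ a 1 = h then
        cw C.P a * (if C.tl (a j) = C.tl (a 0) then 1 else 0) else 0) =
        C.P g h * ∑ x, (C.P ^ (j.1 - 1)) h x * (C.P ^ (n + 1 - j.1)) x g *
          (if C.tl x = C.tl g then 1 else 0) := by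
      have h2 := two_point C.P g h (fun x _ => if C.tl x = C.tl g then (1 : ℚ) else 0) j j hj
        le_rfl
      have h3 : ∀ a : Fin (n + 1) → S, (if a 0 = g ∧ a 1 = h then
          cw C.P a * (if C.tl (a j) = C.tl (a 0) then (1 : ℚ) else 0) else 0) =
          (if a 0 = g ∧ a 1 = h then
          cw C.P a * (if C.tl (a j) = C.tl g then 1 else 0) else 0) := by
        intro a
        split_ifs with h4 h5 h6 h6
        · rfl
        · rw [h4.1] at h5
          exact absurd h5 h6
        · rw [h4.1] at h5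
          exact absurd h6 h5
        · rfl
        · rfl
      simp only [h3]
      rw [h2]
      congr 1
      refine Finset.sum_congr rfl fun x _ => ?_
      rw [Nat.sub_self, pow_zero]
      rw [Finset.sum_eq_single x]
      · rw [Matrix.one_apply_eq, mul_one]
      · intro y _ hy
        rw [Matrix.one_apply_ne (Ne.symm hy)]
        ring
      · intro hx
        exact absurd (Finset.mem_univ x) hx
    rw [h1]
    by_cases hQ : C.Q g h = 0
    · rw [hQP hQ, hQ]
      simp
    · have h2 := C.pair_zero_le hγ1 hmix hε hstep (j.1 - 1) (n + 1 - j.1) (by omega)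
        (by omega) g h hQ
      have hZ : 0 ≤ C.Z := Finset.sum_nonneg fun a _ => (C.s_pos a).le
      calc C.Z * (C.P g h * ∑ x, (C.P ^ (j.1 - 1)) h x * (C.P ^ (n + 1 - j.1)) x g *
            (if C.tl x = C.tl g then 1 else 0))
          ≤ C.Z * (C.P g h * (2 * ε * C.pi g)) :=
            mul_le_mul_of_nonneg_left (mul_le_mul_of_nonneg_left h2 (C.P_nonneg g h)) hZ
        _ = 2 * ε * (C.Z * C.pi g * C.P g h) := by ring
        _ = 2 * ε * C.Q g h := by rw [C.Q_eq]
  · have h1 := two_point C.P g h (fun x y => if C.tl y = C.tl x then (1 : ℚ) else 0) i j hi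
      hij.le
    rw [h1]
    have h2 := C.pair_le hγ1 hmix hε hstep (i.1 - 1) (j.1 - i.1) (n + 1 - j.1)
      (by have := Fin.lt_def.1 hij; omega) (by omega)
      (by have := Fin.lt_def.1 hij; omega) g h
    have hZ : 0 ≤ C.Z := Finset.sum_nonneg fun a _ => (C.s_pos a).le
    calc C.Z * (C.P g h * _) ≤ C.Z * (C.P g h * (2 * ε * C.pi g)) :=
          mul_le_mul_of_nonneg_left (mul_le_mul_of_nonneg_left h2 (C.P_nonneg g h)) hZ
      _ = 2 * ε * (C.Z * C.pi g * C.P g h) := by ring
      _ = 2 * ε * C.Q g h := by rw [C.Q_eq]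

/-- The closed sequences which are not simple. -/
theorem collide (C : Chain S V) (T : ℕ) (γ ε : ℚ) (hγ1 : γ ≤ 1) (hmix : C.Mix T γ)
    (hε : 0 ≤ ε) (hstep : C.Step ε) (n : ℕ) (hn : 3 * T + 3 ≤ n) (g h : S) :
    C.Z * ∑ a : Fin (n + 1) → S, (if a 0 = g ∧ a 1 = h ∧
      ¬ Function.Injective (fun i => C.tl (a i)) then cw C.P a else 0) ≤
        (n + 1) ^ 2 * ε * C.Q g h := by
  classical
  have hZ : 0 ≤ C.Z := Finset.sum_nonneg fun a _ => (C.s_pos a).le
  set G : Fin (n + 1) → Fin (n + 1) → (Fin (n + 1) → S) → ℚ := fun i j a =>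
    if i < j then (if a 0 = g ∧ a 1 = h then
      cw C.P a * (if C.tl (a j) = C.tl (a i) then 1 else 0) else 0) else 0 with hG
  have hG0 : ∀ i j a, 0 ≤ G i j a := by
    intro i j a
    have := C.cw_nonneg a
    simp only [hG]
    split_ifs <;> simp [this]
  have h1 : ∀ a : Fin (n + 1) → S, (if a 0 = g ∧ a 1 = h ∧
      ¬ Function.Injective (fun i => C.tl (a i)) then cw C.P a else 0) ≤
      ∑ i, ∑ j, G i j a := by
    intro a
    split_ifs with hc
    · obtain ⟨h0, h1, hinj⟩ := hc
      obtain ⟨i, j, hij, htl⟩ : ∃ i j : Fin (n + 1), i < j ∧ C.tl (a j) = C.tl (a i) := by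
        simp only [Function.Injective, not_forall] at hinj
        obtain ⟨i, j, htl, hne⟩ := hinj
        rcases lt_or_gt_of_ne hne with h | h
        · exact ⟨i, j, h, htl.symm⟩
        · exact ⟨j, i, h, htl⟩
      have h2 : G i j a = cw C.P a := by
        simp only [hG]
        rw [if_pos hij, if_pos ⟨h0, h1⟩, if_pos htl, mul_one]
      rw [← h2]
      refine (Finset.single_le_sum (f := fun j => G i j a) (fun j _ => hG0 i j a)
        (Finset.mem_univ j)).trans ?_
      exact Finset.single_le_sum (f := fun i => ∑ j, G i j a)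
        (fun i _ => Finset.sum_nonneg fun j _ => hG0 i j a) (Finset.mem_univ i)
    · exact Finset.sum_nonneg fun i _ => Finset.sum_nonneg fun j _ => hG0 i j a
  have h2 : ∀ i j : Fin (n + 1), C.Z * ∑ a, G i j a ≤
      if i < j then 2 * ε * C.Q g h else 0 := by
    intro i j
    simp only [hG]
    split_ifs with hij
    · exact C.pair_total T γ ε hγ1 hmix hε hstep n hn g h i j hij
    · simp
  have hc0 : 0 ≤ 2 * ε * C.Q g h :=
    mul_nonneg (mul_nonneg (by norm_num) hε) (C.Q_nonneg g h)
  have h3 : 2 * ∑ i : Fin (n + 1), ∑ j : Fin (n + 1),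
      (if i < j then 2 * ε * C.Q g h else 0) ≤ (n + 1) ^ 2 * (2 * ε * C.Q g h) := by
    have h4 : ∑ i : Fin (n + 1), ∑ j : Fin (n + 1), (if i < j then 2 * ε * C.Q g h else 0) =
        ∑ i : Fin (n + 1), ∑ j : Fin (n + 1), (if j < i then 2 * ε * C.Q g h else 0) := by
      rw [Finset.sum_comm]
    have h5 : ∑ i : Fin (n + 1), ∑ j : Fin (n + 1), (if i < j then 2 * ε * C.Q g h else 0) +
        ∑ i : Fin (n + 1), ∑ j : Fin (n + 1), (if j < i then 2 * ε * C.Q g h else 0) ≤
        ∑ _i : Fin (n + 1), ∑ _j : Fin (n + 1), 2 * ε * C.Q g h := by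
      rw [← Finset.sum_add_distrib]
      refine Finset.sum_le_sum fun i _ => ?_
      rw [← Finset.sum_add_distrib]
      refine Finset.sum_le_sum fun j _ => ?_
      split_ifs with h6 h7 h7
      · exact absurd h7 (not_lt.2 h6.le)
      · rw [add_zero]
      · rw [zero_add]
      · rw [add_zero]
        exact hc0
    rw [← h4] at h5
    simp only [Finset.sum_const, Finset.card_univ, Fintype.card_fin, nsmul_eq_mul] at h5
    push_cast at h5
    calc 2 * ∑ i : Fin (n + 1), ∑ j : Fin (n + 1), (if i < j then 2 * ε * C.Q g h else 0)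
        = _ := two_mul _
      _ ≤ ((n : ℚ) + 1) * (((n : ℚ) + 1) * (2 * ε * C.Q g h)) := h5
      _ = _ := by ring
  calc C.Z * ∑ a : Fin (n + 1) → S, (if a 0 = g ∧ a 1 = h ∧
        ¬ Function.Injective (fun i => C.tl (a i)) then cw C.P a else 0)
      ≤ C.Z * ∑ a : Fin (n + 1) → S, ∑ i, ∑ j, G i j a :=
        mul_le_mul_of_nonneg_left (Finset.sum_le_sum fun a _ => h1 a) hZ
    _ = ∑ i, ∑ j, C.Z * ∑ a, G i j a := by
        rw [Finset.sum_comm]
        rw [Finset.mul_sum]
        refine Finset.sum_congr rfl fun i _ => ?_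
        rw [Finset.sum_comm, Finset.mul_sum]
    _ ≤ ∑ i : Fin (n + 1), ∑ j : Fin (n + 1), (if i < j then 2 * ε * C.Q g h else 0) :=
        Finset.sum_le_sum fun i _ => Finset.sum_le_sum fun j _ => h2 i j
    _ ≤ (n + 1) ^ 2 * ε * C.Q g h := by linarith

end Chain

end Pool.Agent.Lib.MP_95bb8c_al.PS
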