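import Pool.Agent.Lib.MP_95bb8c_al.GW.Darts
import Pool.Agent.Lib.MP_95bb8c_al.Whitehead

set_option autoImplicit false
set_option linter.unusedSectionVars false

/-!
# Pseudorandom Whitehead graphs: definitions

A reversible chain on the darts of a graph, its closed sequences, and the paths of darts.
-/

namespace Pool.Agent.Lib.MP_95bb8c_al.PS

open Finset

/-- A symmetric weight `Q` on the pairs of consecutive darts (`tl a` is the tail of the dart `a`
and `tl (rv a)` its head) with the same row sums at a dart and at the reversed dart; the pairs of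
positive weight are the pairs of consecutive darts which do not join the same two vertices. -/
structure Chain (S V : Type) [Fintype S] where
  rv : S → S
  tl : S → V
  Q : S → S → ℚ
  s : S → ℚ
  rv_rv : ∀ a, rv (rv a) = a
  loopless : ∀ a, tl a ≠ tl (rv a)
  Q_nonneg : ∀ a b, 0 ≤ Q a b
  Q_rv : ∀ a b, Q (rv b) (rv a) = Q a b
  Q_ne : ∀ a b, Q a b ≠ 0 ↔ tl b = tl (rv a) ∧ tl (rv b) ≠ tl a
  s_pos : ∀ a, 0 < s a
  s_rv : ∀ a, s (rv a) = s a
  row : ∀ a, ∑ b, Q a b = s a

variable {S V : Type} [Fintype S] [DecidableEq S] [DecidableEq V]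

namespace Chain

/-- The total weight. -/
def Z (C : Chain S V) : ℚ := ∑ a, C.s a

/-- The transition matrix. -/
def P (C : Chain S V) : Matrix S S ℚ := fun a b => C.Q a b / C.s a

/-- The stationary law. -/
def pi (C : Chain S V) (a : S) : ℚ := C.s a / C.Z

/-- The chain is mixed up to a factor `γ` after `T` steps. -/
def Mix (C : Chain S V) (T : ℕ) (γ : ℚ) : Prop :=
  ∀ t, T ≤ t → ∀ x y, |(C.P ^ t) x y - C.pi y| ≤ γ * C.pi y

/-- Two darts with the same head have a common part at least `β` of their next step. -/
def Over (C : Chain S V) (β : ℚ) : Prop :=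
  ∀ a b, C.tl (C.rv a) = C.tl (C.rv b) → β ≤ ∑ x, min (C.P a x) (C.P b x)

/-- The next step goes to a given vertex with probability at most `ε`. -/
def Step (C : Chain S V) (ε : ℚ) : Prop :=
  ∀ x v, ∑ b, (if C.tl (C.rv b) = v then C.P x b else 0) ≤ ε

/-- An admissible error of relative size `δ`. -/
def Err (C : Chain S V) (e : S → S → ℚ) (δ : ℚ) : Prop :=
  (∀ a b, e (C.rv b) (C.rv a) = e a b) ∧ (∀ a, ∑ b, e (C.rv a) b = ∑ b, e a b) ∧
    ∀ a b, |e a b| ≤ δ * C.Q a b

end Chain

/-- The weight of a closed sequence (the indices are cyclic). -/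
def cw (P : Matrix S S ℚ) {n : ℕ} (a : Fin (n + 1) → S) : ℚ := ∏ i, P (a i) (a (i + 1))

/-- The number of places at which `a` has `g` followed by `h` or `rv h` followed by `rv g`. -/
def cnt (C : Chain S V) {n : ℕ} (a : Fin (n + 1) → S) (g h : S) : ℚ :=
  ∑ i, ((if a i = g ∧ a (i + 1) = h then 1 else 0) +
    (if a i = C.rv h ∧ a (i + 1) = C.rv g then 1 else 0))

section Words

variable {n : ℕ}

/-- The number of reduced paths with `m` steps from the dart `a` to the dart `b`: sequences of
`m + 1` darts in which each dart starts where the one before ends and ends at another vertex than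
the one at which the one before starts. -/
noncomputable def rpaths (U : List (List (Letter n))) (m : ℕ) (a b : Pos U × Bool) : ℕ :=
  Nat.card {p : Fin (m + 1) → Pos U × Bool // p 0 = a ∧ p (Fin.last m) = b ∧
    ∀ i : Fin m, GW.tl (src U) (tgt U) (p i.succ) = GW.hd (src U) (tgt U) (p i.castSucc) ∧
      GW.hd (src U) (tgt U) (p i.succ) ≠ GW.tl (src U) (tgt U) (p i.castSucc)}

end Words

end Pool.Agent.Lib.MP_95bb8c_al.PS
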