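import Pool.Agent.Lib.MP_95bb8c_al.PS.Defs

set_option autoImplicit false
set_option linter.unusedSectionVars false
set_option linter.unusedVariables false

/-!
# The path condition gives the lower bound for the degrees
-/

namespace Pool.Agent.Lib.MP_95bb8c_al.PS

open Finset

section Paths

variable {S : Type} [Fintype S] [DecidableEq S]

/-- The sequences with `m` steps from `a` whose steps are in the relation `R`. -/
def p12T (R : S → S → Prop) [DecidableRel R] (m : ℕ) (a : S) : Finset (Fin (m + 1) → S) :=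
  univ.filter fun p => p 0 = a ∧ ∀ i : Fin m, R (p i.castSucc) (p i.succ)

theorem p12_zero (R : S → S → Prop) [DecidableRel R] (a : S) : (p12T R 0 a).card ≤ 1 := by
  rw [Finset.card_le_one]
  intro p hp q hq
  rw [p12T, mem_filter] at hp hq
  funext i
  have hi : i = 0 := Fin.ext (by omega)
  rw [hi, hp.2.1, hq.2.1]

theorem p12_succ (R : S → S → Prop) [DecidableRel R] (m : ℕ) (a : S) :
    (p12T R (m + 1) a).card ≤ ∑ b ∈ univ.filter (fun b => R a b), (p12T R m b).card := by
  have hsub : p12T R (m + 1) a ⊆ (univ.filter (fun b => R a b)).biUnion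
      (fun b => (p12T R m b).image (fun q => (Fin.cons a q : Fin (m + 2) → S))) := by
    intro p hp
    rw [p12T, mem_filter] at hp
    obtain ⟨-, h0, hs⟩ := hp
    rw [mem_biUnion]
    refine ⟨p 1, ?_, ?_⟩
    · rw [mem_filter]
      refine ⟨mem_univ _, ?_⟩
      have h := hs 0
      rw [← h0]
      exact h
    · rw [mem_image]
      refine ⟨Fin.tail p, ?_, ?_⟩
      · rw [p12T, mem_filter]
        refine ⟨mem_univ _, rfl, fun i => ?_⟩
        exact hs i.succ
      · rw [← h0]
        exact Fin.cons_self_tail p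
  refine (card_le_card hsub).trans (card_biUnion_le.trans ?_)
  exact sum_le_sum fun b _ => card_image_le

theorem p12_le (R : S → S → Prop) [DecidableRel R] (D : ℕ)
    (hD : ∀ a, (univ.filter (fun b => R a b)).card ≤ D) (m : ℕ) (a : S) :
    (p12T R m a).card ≤ D ^ m := by
  induction m generalizing a with
  | zero => simpa using p12_zero R a
  | succ m ih =>
    refine (p12_succ R m a).trans ?_
    refine (sum_le_sum fun b _ => ih b).trans ?_
    rw [sum_const, smul_eq_mul, pow_succ, mul_comm (D ^ m)]
    exact Nat.mul_le_mul_right _ (hD a)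

theorem p12_succ_le (R : S → S → Prop) [DecidableRel R] (D : ℕ)
    (hD : ∀ a, (univ.filter (fun b => R a b)).card ≤ D) (m : ℕ) (a : S) :
    (p12T R (m + 1) a).card ≤ (univ.filter (fun b => R a b)).card * D ^ m := by
  refine (p12_succ R m a).trans ?_
  refine (sum_le_sum fun b _ => p12_le R D hD m b).trans ?_
  rw [sum_const, smul_eq_mul]

theorem p12_sum (R : S → S → Prop) [DecidableRel R] (m : ℕ) (a : S) :
    ∑ b, Nat.card {p : Fin (m + 1) → S // p 0 = a ∧ p (Fin.last m) = b ∧
      ∀ i : Fin m, R (p i.castSucc) (p i.succ)} = (p12T R m a).card := by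
  rw [Finset.card_eq_sum_card_fiberwise (f := fun p : Fin (m + 1) → S => p (Fin.last m))
    (t := univ) (fun _ _ => mem_univ _)]
  refine sum_congr rfl fun b _ => ?_
  rw [Nat.card_eq_fintype_card, Fintype.card_subtype]
  congr 1
  ext p
  simp only [p12T, mem_filter, mem_univ, true_and]
  tauto

end Paths

section Darts

variable {V E : Type} [Fintype V] [DecidableEq V] [Fintype E] [DecidableEq E]

/-- The number of darts which leave `v` is at most the degree of `v`. -/
theorem p12_out {s t : E → V} (hl : ∀ e, s e ≠ t e) (v : V) :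
    (univ.filter (fun b : E × Bool => GW.tl s t b = v)).card ≤ (cut s t {v}).card := by
  refine card_le_card_of_injOn Prod.fst ?_ ?_
  · rintro ⟨e, b⟩ hb
    rw [mem_coe, mem_filter] at hb
    replace hb := hb.2
    rw [mem_coe, cut, mem_filter, mem_singleton, mem_singleton]
    refine ⟨mem_univ _, ?_⟩
    have h := hl e
    cases b
    · have hb' : t e = v := hb
      rw [← hb']
      exact fun h1 => h (h1.2 rfl)
    · have hb' : s e = v := hb
      rw [← hb']
      exact fun h1 => h (h1.1 rfl).symm
  · rintro ⟨e, b⟩ hb ⟨f, c⟩ hc hef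
    rw [mem_coe, mem_filter] at hb hc
    replace hb := hb.2
    replace hc := hc.2
    have hef' : e = f := hef
    subst hef'
    have h := hl e
    cases b <;> cases c
    · rfl
    · have hb' : t e = v := hb
      have hc' : s e = v := hc
      exact absurd (hc'.trans hb'.symm) h
    · have hb' : s e = v := hb
      have hc' : t e = v := hc
      exact absurd (hb'.trans hc'.symm) h
    · rfl

end Darts

section Words

variable {n : ℕ}

theorem p12_loopless {U : List (List (Letter n))} (hU : CycRed U) (p : Pos U) :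
    src U p ≠ tgt U p := by
  intro h
  apply hU.2 p
  unfold src tgt at h
  rw [h]
  simp [bar]

/-- The path condition gives the lower bound for the degrees. -/
theorem degree_low {U : List (List (Letter n))} (hU : CycRed U) (hne : U ≠ []) (D : ℕ)
    (hD : ∀ v, (star U v).card ≤ D) (m : ℕ) (hm : 1 ≤ m) (θ : ℚ)
    (hθ : ∀ a b, θ * (D : ℚ) ^ m ≤ Fintype.card (Pos U) * rpaths U m a b) (hθ0 : 0 ≤ θ)
    (v : Letter n) (hv : (star U v).Nonempty) : 2 * θ * D ≤ (star U v).card := by
  classical
  obtain ⟨m, rfl⟩ : ∃ k, m = k + 1 := ⟨m - 1, by omega⟩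
  have hl := p12_loopless hU
  obtain ⟨e, he⟩ := hv
  -- a dart with head `v`
  obtain ⟨a, ha⟩ : ∃ a : Pos U × Bool, GW.hd (src U) (tgt U) a = v := by
    simp only [star, cut, mem_filter, mem_univ, true_and, mem_singleton] at he
    by_cases h : src U e = v
    · exact ⟨(e, false), by simp [GW.hd, h]⟩
    · have h1 : tgt U e = v := by
        by_contra h2
        exact he ⟨fun h3 => absurd h3 h, fun h3 => absurd h3 h2⟩
      exact ⟨(e, true), by simp [GW.hd, h1]⟩
  set R : Pos U × Bool → Pos U × Bool → Prop := fun a b =>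
    GW.tl (src U) (tgt U) b = GW.hd (src U) (tgt U) a ∧
      GW.hd (src U) (tgt U) b ≠ GW.tl (src U) (tgt U) a with hR
  have hdeg : ∀ a, (univ.filter (fun b => R a b)).card ≤
      (star U (GW.hd (src U) (tgt U) a)).card := by
    intro a
    refine le_trans (card_le_card ?_) (p12_out hl (GW.hd (src U) (tgt U) a))
    intro b hb
    rw [mem_filter] at hb ⊢
    exact ⟨mem_univ _, hb.2.1⟩
  have h1 := p12_succ_le R D (fun a => (hdeg a).trans (hD _)) m a
  have h2 : (p12T R (m + 1) a).card ≤ (star U v).card * D ^ m := by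
    refine h1.trans (Nat.mul_le_mul_right _ ((hdeg a).trans ?_))
    rw [ha]
  have h3 := p12_sum R (m + 1) a
  have h4 : ∑ b, rpaths U (m + 1) a b = (p12T R (m + 1) a).card := h3
  have h5 : ∑ b : Pos U × Bool, θ * (D : ℚ) ^ (m + 1) ≤
      ∑ b, (Fintype.card (Pos U) : ℚ) * rpaths U (m + 1) a b := sum_le_sum fun b _ => hθ a b
  rw [← mul_sum (f := fun b => (rpaths U (m + 1) a b : ℚ)), ← Nat.cast_sum, h4, sum_const,
    card_univ, Fintype.card_prod, Fintype.card_bool, nsmul_eq_mul] at h5
  have hE : 0 < (Fintype.card (Pos U) : ℚ) := by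
    exact_mod_cast Fintype.card_pos_iff.2 ⟨e⟩
  have hD0 : 0 < (D : ℚ) := by
    have h6 : 0 < (star U v).card := card_pos.2 ⟨e, he⟩
    exact_mod_cast lt_of_lt_of_le h6 (hD v)
  have h7 : ((p12T R (m + 1) a).card : ℚ) ≤ (star U v).card * (D : ℚ) ^ m := by exact_mod_cast h2
  have h8 : (Fintype.card (Pos U) : ℚ) * (2 * θ * D) * (D : ℚ) ^ m ≤
      (Fintype.card (Pos U) : ℚ) * (star U v).card * (D : ℚ) ^ m := by
    calc (Fintype.card (Pos U) : ℚ) * (2 * θ * D) * (D : ℚ) ^ m
        = ((Fintype.card (Pos U) * 2 : ℕ) : ℚ) * (θ * (D : ℚ) ^ (m + 1)) := by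
          push_cast
          ring
      _ ≤ (Fintype.card (Pos U) : ℚ) * ((p12T R (m + 1) a).card : ℚ) := h5
      _ ≤ (Fintype.card (Pos U) : ℚ) * ((star U v).card * (D : ℚ) ^ m) :=
          mul_le_mul_of_nonneg_left h7 hE.le
      _ = _ := by ring
  have h9 := le_of_mul_le_mul_right h8 (pow_pos hD0 m)
  exact le_of_mul_le_mul_left h9 hE

end Words

end Pool.Agent.Lib.MP_95bb8c_al.PS
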