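import Pool.Agent.Lib.MP_95bb8c_al.PS.Minor
import Pool.Agent.Lib.MP_95bb8c_al.PS.Degree

set_option autoImplicit false
set_option linter.unusedSectionVars false

/-!
# Dense Whitehead graphs satisfy the path condition with four steps

If every two letters (equal or not) have `k + 2` common neighbours with multiplicities at least
`μ`, then any two darts are joined by at least `k² μ³` reduced paths with four steps.
-/

namespace Pool.Agent.Lib.MP_95bb8c_al.PS

open Finset

section gen

variable {S : Type} [Fintype S] [DecidableEq S]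

open scoped Classical in
lemma dp_step (R : S → S → Prop) (m : ℕ) (x y : S) (Q : Finset S) (hQ : ∀ z ∈ Q, R x z) :
    ∑ z ∈ Q, (p11N R m z y).card ≤ (p11N R (m + 1) x y).card := by
  have h1 : ∀ z ∈ Q, ((p11N R m z y).image
      (fun q => (Fin.cons x q : Fin (m + 2) → S))).card = (p11N R m z y).card := by
    intro z _
    refine card_image_of_injective _ fun p q h => ?_
    have := congrArg (fun f : Fin (m + 2) → S => Fin.tail f) h
    simpa using this
  rw [← sum_congr rfl h1, ← card_biUnion]
  · refine card_le_card fun p hp => ?_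
    rw [mem_biUnion] at hp
    obtain ⟨z, hz, hp⟩ := hp
    rw [mem_image] at hp
    obtain ⟨q, hq, rfl⟩ := hp
    simp only [p11N, mem_filter, mem_univ, true_and] at hq ⊢
    obtain ⟨h0, hl, hR⟩ := hq
    refine ⟨rfl, ?_, ?_⟩
    · rw [← hl]
      rfl
    · intro i
      refine Fin.cases ?_ (fun j => ?_) i
      · change R x (q 0)
        rw [h0]
        exact hQ z hz
      · exact hR j
  · intro z _ z' _ hne
    rw [Function.onFun, Finset.disjoint_left]
    intro p hp hp'
    rw [mem_image] at hp hp'
    obtain ⟨q, hq, rfl⟩ := hp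
    obtain ⟨q', hq', h⟩ := hp'
    have h2 : q' = q := by
      have := congrArg (fun f : Fin (m + 2) → S => Fin.tail f) h
      simpa using this
    simp only [p11N, mem_filter, mem_univ, true_and] at hq hq'
    apply hne
    rw [← hq.1, ← hq'.1, h2]

open scoped Classical in
lemma dp_one (R : S → S → Prop) (x y : S) (h : R x y) : 1 ≤ (p11N R 1 x y).card := by
  rw [Nat.one_le_iff_ne_zero, card_ne_zero]
  refine ⟨fun i => if i = 0 then x else y, ?_⟩
  simp only [p11N, mem_filter, mem_univ, true_and]
  refine ⟨by simp, ?_, ?_⟩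
  · rw [if_neg]
    decide
  · intro i
    have hi : i = 0 := Fin.ext (by omega)
    subst hi
    have h1 : (Fin.castSucc (0 : Fin 1) : Fin 2) = 0 := rfl
    have h2 : (Fin.succ (0 : Fin 1) : Fin 2) ≠ 0 := by decide
    rw [h1, if_pos rfl, if_neg h2]
    exact h

end gen

section Graph

variable {V E : Type} [Fintype V] [DecidableEq V] [Fintype E] [DecidableEq E]

/-- The darts from `u` to `v`. -/
def dts (s t : E → V) (u v : V) : Finset (E × Bool) :=
  univ.filter fun p => GW.tl s t p = u ∧ GW.hd s t p = v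

theorem dp_card {s t : E → V} (u v : V) (huv : u ≠ v) :
    (GW.J s t u v).card ≤ (dts s t u v).card := by
  refine card_le_card_of_injOn (fun e => (e, decide (s e = u))) ?_ ?_
  · intro e he
    rw [mem_coe, GW.J, mem_filter] at he
    rw [mem_coe, dts, mem_filter]
    refine ⟨mem_univ _, ?_⟩
    obtain ⟨-, -, ⟨h1, h2⟩ | ⟨h1, h2⟩⟩ := he
    · have h3 : decide (s e = u) = true := by rw [h1]; simp
      simp only [GW.tl, GW.hd, h3, if_true]
      exact ⟨h1, h2⟩
    · have h3 : decide (s e = u) = false := by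
        rw [decide_eq_false_iff_not, h1]
        exact huv.symm
      simp only [GW.tl, GW.hd, h3]
      exact ⟨h2, h1⟩
  · intro e _ f _ h
    exact (Prod.mk.injEq _ _ _ _ ▸ h : e = f ∧ _).1

/-- The sum over the steps to the vertices of `A`. -/
theorem dp_sum {s t : E → V} (Q : Finset (E × Bool)) (v : V) (A : Finset V)
    (hA : ∀ z ∈ A, dts s t v z ⊆ Q) (f : E × Bool → ℕ) (c : ℕ)
    (hf : ∀ z ∈ A, ∀ p ∈ dts s t v z, c ≤ f p) (μ : ℕ)
    (hμ : ∀ z ∈ A, μ ≤ (dts s t v z).card) :
    A.card * (μ * c) ≤ ∑ p ∈ Q, f p := by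
  have h1 : ∑ z ∈ A, ∑ p ∈ dts s t v z, f p ≤ ∑ p ∈ Q, f p := by
    rw [← sum_biUnion]
    · refine sum_le_sum_of_subset fun p hp => ?_
      rw [mem_biUnion] at hp
      obtain ⟨z, hz, hp⟩ := hp
      exact hA z hz hp
    · intro z _ z' _ hne
      rw [Function.onFun, Finset.disjoint_left]
      intro p hp hp'
      rw [dts, mem_filter] at hp hp'
      exact hne (hp.2.2.symm.trans hp'.2.2)
  refine le_trans ?_ h1
  have h2 : ∀ z ∈ A, μ * c ≤ ∑ p ∈ dts s t v z, f p := by
    intro z hz
    calc μ * c ≤ (dts s t v z).card * c := Nat.mul_le_mul_right _ (hμ z hz)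
      _ = ∑ _p ∈ dts s t v z, c := by rw [sum_const, smul_eq_mul]
      _ ≤ ∑ p ∈ dts s t v z, f p := sum_le_sum fun p hp => hf z hz p hp
  calc A.card * (μ * c) = ∑ _z ∈ A, μ * c := by rw [sum_const, smul_eq_mul]
    _ ≤ _ := sum_le_sum h2

end Graph

section Words

variable {n : ℕ}

/-- The common neighbours of `u` and `v` with multiplicities at least `μ`. -/
def comm (U : List (List (Letter n))) (μ : ℕ) (u v : Letter n) : Finset (Letter n) :=
  univ.filter fun z => z ≠ u ∧ z ≠ v ∧ μ ≤ GW.mult U u z ∧ μ ≤ GW.mult U z v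

/-- **Dense Whitehead graphs**: at least `k² μ³` reduced paths with four steps. -/
theorem dense_paths {U : List (List (Letter n))} (k μ : ℕ)
    (h : ∀ u v : Letter n, k + 2 ≤ (comm U μ u v).card) (a b : Pos U × Bool) :
    k * (μ * (k * (μ * (1 * μ)))) ≤ rpaths U 4 a b := by
  classical
  rw [p11_rpaths]
  set R : Pos U × Bool → Pos U × Bool → Prop := fun x y =>
    GW.tl (src U) (tgt U) y = GW.hd (src U) (tgt U) x ∧
      GW.hd (src U) (tgt U) y ≠ GW.tl (src U) (tgt U) x with hR
  set x := GW.tl (src U) (tgt U) a with hx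
  set v := GW.hd (src U) (tgt U) a with hv
  set w := GW.tl (src U) (tgt U) b with hw
  set y := GW.hd (src U) (tgt U) b with hy
  have hcard : ∀ (A : Finset (Letter n)) (p q : Letter n), k + 2 ≤ A.card →
      k ≤ ((A.erase p).erase q).card := by
    intro A p q hA
    have h1 := pred_card_le_card_erase (s := A) (a := p)
    have h2 := pred_card_le_card_erase (s := A.erase p) (a := q)
    omega
  -- one step before the last
  have h3 : ∀ z2, z2 ≠ y → z2 ≠ w → μ ≤ GW.mult U z2 w → ∀ p2 : Pos U × Bool,
      GW.hd (src U) (tgt U) p2 = z2 → GW.tl (src U) (tgt U) p2 ≠ w →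
      1 * μ ≤ (p11N R 2 p2 b).card := by
    intro z2 h31 h32 h33 p2 h34 h35
    refine le_trans ?_ (dp_step R 1 p2 b (univ.filter fun z => R p2 z)
      fun z hz => (mem_filter.mp hz).2)
    have := dp_sum (s := src U) (t := tgt U) (univ.filter fun z => R p2 z) z2 {w}
      (by
        intro z hz p hp
        rw [mem_singleton] at hz
        rw [dts, mem_filter] at hp
        rw [mem_filter]
        refine ⟨mem_univ _, ?_, ?_⟩
        · rw [hp.2.1, h34]
        · rw [hp.2.2, hz]
          exact h35.symm)
      (fun p => (p11N R 1 p b).card) 1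
      (by
        intro z hz p hp
        rw [mem_singleton] at hz
        rw [dts, mem_filter] at hp
        refine dp_one R p b ⟨?_, ?_⟩
        · rw [hp.2.2, hz]
        · rw [hp.2.1]
          exact h31.symm)
      μ
      (by
        intro z hz
        rw [mem_singleton] at hz
        rw [hz]
        exact h33.trans (dp_card z2 w h32))
    rw [card_singleton, mul_one] at this
    exact this
  have h2 : ∀ z1, z1 ≠ w → ∀ p1 : Pos U × Bool, GW.tl (src U) (tgt U) p1 = v →
      GW.hd (src U) (tgt U) p1 = z1 → k * (μ * (1 * μ)) ≤ (p11N R 3 p1 b).card := by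
    intro z1 h21 p1 h22 h23
    refine le_trans ?_ (dp_step R 2 p1 b (univ.filter fun z => R p1 z)
      fun z hz => (mem_filter.mp hz).2)
    refine le_trans (Nat.mul_le_mul_right _ (hcard (comm U μ z1 w) v y (h z1 w))) ?_
    refine dp_sum (s := src U) (t := tgt U) (univ.filter fun z => R p1 z) z1
      (((comm U μ z1 w).erase v).erase y) ?_ (fun p => (p11N R 2 p b).card) (1 * μ) ?_ μ ?_
    · intro z hz p hp
      rw [mem_erase, mem_erase] at hz
      rw [dts, mem_filter] at hp
      rw [mem_filter]
      refine ⟨mem_univ _, ?_, ?_⟩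
      · rw [hp.2.1, h23]
      · rw [hp.2.2, h22]
        exact hz.2.1
    · intro z hz p hp
      rw [mem_erase, mem_erase, comm, mem_filter] at hz
      rw [dts, mem_filter] at hp
      refine h3 z hz.1 hz.2.2.2.2.1 hz.2.2.2.2.2.2 p hp.2.2 ?_
      rw [hp.2.1]
      exact h21
    · intro z hz
      rw [mem_erase, mem_erase, comm, mem_filter] at hz
      exact hz.2.2.2.2.2.1.trans (dp_card z1 z hz.2.2.2.1.symm)
  refine le_trans ?_ (dp_step R 3 a b (univ.filter fun z => R a z)
    fun z hz => (mem_filter.mp hz).2)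
  refine le_trans (Nat.mul_le_mul_right _ (hcard (comm U μ v v) x w (h v v))) ?_
  refine dp_sum (s := src U) (t := tgt U) (univ.filter fun z => R a z) v
    (((comm U μ v v).erase x).erase w) ?_ (fun p => (p11N R 3 p b).card)
    (k * (μ * (1 * μ))) ?_ μ ?_
  · intro z hz p hp
    rw [mem_erase, mem_erase] at hz
    rw [dts, mem_filter] at hp
    rw [mem_filter]
    refine ⟨mem_univ _, hp.2.1, ?_⟩
    rw [hp.2.2]
    exact hz.2.1
  · intro z hz p hp
    rw [mem_erase, mem_erase] at hz
    rw [dts, mem_filter] at hp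
    exact h2 z hz.1 p hp.2.1 hp.2.2
  · intro z hz
    rw [mem_erase, mem_erase, comm, mem_filter] at hz
    exact hz.2.2.2.2.2.1.trans (dp_card v z hz.2.2.2.1.symm)

end Words

end Pool.Agent.Lib.MP_95bb8c_al.PS
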