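import Mathlib

/-!
The local linear systems: an involution `rv` and a stochastic matrix `P` whose rows with the same
head overlap. The system `ψ a + ∑ b, P (rv a) b * ψ b = f a` has a bounded solution.
-/

set_option autoImplicit false
set_option linter.unusedSectionVars false

namespace Pool.Agent.Lib.MP_95bb8c_al.PS

open Finset

variable {S V : Type} [Fintype S] [DecidableEq S] [DecidableEq V]

/-- two probability vectors with overlap at least `β` -/
theorem ls_dob (p q ψ : S → ℚ) (β lo hi : ℚ) (hp1 : ∑ x, p x = 1) (hq1 : ∑ x, q x = 1)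
    (hov : β ≤ ∑ x, min (p x) (q x)) (hlh : lo ≤ hi)
    (hhi : ∀ x, p x ≠ 0 → 0 ≤ p x → ψ x ≤ hi) (hlo : ∀ x, q x ≠ 0 → 0 ≤ q x → lo ≤ ψ x)
    (hp : ∀ x, 0 ≤ p x) (hq : ∀ x, 0 ≤ q x) :
    ∑ x, p x * ψ x - ∑ x, q x * ψ x ≤ (1 - β) * (hi - lo) := by
  have h1 : ∑ x, (p x - min (p x) (q x)) * ψ x ≤ ∑ x, (p x - min (p x) (q x)) * hi := by
    refine sum_le_sum fun x _ => ?_
    have h0 : 0 ≤ p x - min (p x) (q x) := by
      have := min_le_left (p x) (q x)
      linarith
    by_cases hx : p x = 0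
    · have : min (p x) (q x) = 0 := by rw [hx]; exact min_eq_left (hq x)
      rw [this, hx]
      simp
    · exact mul_le_mul_of_nonneg_left (hhi x hx (hp x)) h0
  have h2 : ∑ x, (q x - min (p x) (q x)) * lo ≤ ∑ x, (q x - min (p x) (q x)) * ψ x := by
    refine sum_le_sum fun x _ => ?_
    have h0 : 0 ≤ q x - min (p x) (q x) := by
      have := min_le_right (p x) (q x)
      linarith
    by_cases hx : q x = 0
    · have : min (p x) (q x) = 0 := by rw [hx]; exact min_eq_right (hp x)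
      rw [this, hx]
      simp
    · exact mul_le_mul_of_nonneg_left (hlo x hx (hq x)) h0
  have e1 : ∑ x, (p x - min (p x) (q x)) * hi = (1 - ∑ x, min (p x) (q x)) * hi := by
    rw [← sum_mul, sum_sub_distrib, hp1]
  have e2 : ∑ x, (q x - min (p x) (q x)) * lo = (1 - ∑ x, min (p x) (q x)) * lo := by
    rw [← sum_mul, sum_sub_distrib, hq1]
  have e3 : ∑ x, p x * ψ x - ∑ x, q x * ψ x =
      ∑ x, (p x - min (p x) (q x)) * ψ x - ∑ x, (q x - min (p x) (q x)) * ψ x := by
    rw [← sum_sub_distrib, ← sum_sub_distrib]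
    exact sum_congr rfl fun x _ => by ring
  rw [e3]
  calc _ ≤ (1 - ∑ x, min (p x) (q x)) * hi - (1 - ∑ x, min (p x) (q x)) * lo := by
        rw [← e1, ← e2]; linarith
    _ = (1 - ∑ x, min (p x) (q x)) * (hi - lo) := by ring
    _ ≤ (1 - β) * (hi - lo) := by
        apply mul_le_mul_of_nonneg_right _ (by linarith)
        linarith

theorem ls_bound (P : Matrix S S ℚ) (hP : ∀ x y, 0 ≤ P x y) (hrow : ∀ x, ∑ y, P x y = 1)
    (rv : S → S) (hrv : ∀ a, rv (rv a) = a) (tl : S → V)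
    (hsupp : ∀ a b, P a b ≠ 0 → tl b = tl (rv a)) (β : ℚ) (hβ : 0 < β) (hβ1 : β ≤ 1)
    (hov : ∀ a b, tl (rv a) = tl (rv b) → β ≤ ∑ x, min (P a x) (P b x))
    (f : S → ℚ) (F : ℚ) (hf : ∀ a, |f a| ≤ F) (ψ : S → ℚ)
    (hψ : ∀ a, ψ a + ∑ b, P (rv a) b * ψ b = f a) (a : S) : |ψ a| ≤ 2 / β * F := by
  have hne : ((univ : Finset (S × S)).filter fun z => tl z.1 = tl z.2).Nonempty :=
    ⟨(a, a), by simp⟩
  obtain ⟨⟨x0, y0⟩, hz, hmax⟩ := exists_max_image _ (fun z : S × S => ψ z.1 - ψ z.2) hne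
  have hz' : tl x0 = tl y0 := by simpa using hz
  have hmax' : ∀ x y, tl x = tl y → ψ x - ψ y ≤ ψ x0 - ψ y0 := by
    intro x y h
    exact hmax (x, y) (by simpa using h)
  have hO : 0 ≤ ψ x0 - ψ y0 := by
    have := hmax' x0 x0 rfl
    linarith
  have hF : 0 ≤ F := le_trans (abs_nonneg _) (hf a)
  have hdob : ∑ b, P (rv y0) b * ψ b - ∑ b, P (rv x0) b * ψ b ≤ (1 - β) * (ψ x0 - ψ y0) := by
    apply ls_dob (P (rv y0)) (P (rv x0)) ψ β (ψ y0) (ψ x0) (hrow _) (hrow _)
    · apply hov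
      rw [hrv, hrv, hz']
    · linarith
    · intro b hb _
      have h1 := hsupp _ _ hb
      rw [hrv] at h1
      have := hmax' b y0 h1
      linarith
    · intro b hb _
      have h1 := hsupp _ _ hb
      rw [hrv] at h1
      have := hmax' x0 b h1.symm
      linarith
    · exact hP _
    · exact hP _
  have hfx := abs_le.1 (hf x0)
  have hfy := abs_le.1 (hf y0)
  have hβO : β * (ψ x0 - ψ y0) ≤ 2 * F := by
    have e1 := hψ x0
    have e2 := hψ y0
    nlinarith
  have hconv1 : ∑ b, P (rv a) b * ψ b ≤ ψ a + (ψ x0 - ψ y0) := by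
    calc ∑ b, P (rv a) b * ψ b ≤ ∑ b, P (rv a) b * (ψ a + (ψ x0 - ψ y0)) := by
          refine sum_le_sum fun b _ => ?_
          by_cases hb : P (rv a) b = 0
          · rw [hb]; simp
          · have h1 := hsupp _ _ hb
            rw [hrv] at h1
            have := hmax' b a h1
            exact mul_le_mul_of_nonneg_left (by linarith) (hP _ _)
      _ = ψ a + (ψ x0 - ψ y0) := by rw [← sum_mul, hrow, one_mul]
  have hconv2 : ψ a - (ψ x0 - ψ y0) ≤ ∑ b, P (rv a) b * ψ b := by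
    calc ψ a - (ψ x0 - ψ y0) = ∑ b, P (rv a) b * (ψ a - (ψ x0 - ψ y0)) := by
          rw [← sum_mul, hrow, one_mul]
      _ ≤ _ := by
          refine sum_le_sum fun b _ => ?_
          by_cases hb : P (rv a) b = 0
          · rw [hb]; simp
          · have h1 := hsupp _ _ hb
            rw [hrv] at h1
            have := hmax' a b h1.symm
            exact mul_le_mul_of_nonneg_left (by linarith) (hP _ _)
  have hfa := abs_le.1 (hf a)
  have ea := hψ a
  have hβψ : |β * ψ a| ≤ 2 * F := by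
    rw [abs_le]
    constructor <;> nlinarith
  have : |ψ a| = |β * ψ a| / β := by
    rw [abs_mul, abs_of_pos hβ]
    field_simp
  rw [this, div_mul_eq_mul_div]
  exact div_le_div_of_nonneg_right hβψ hβ.le

theorem local_solve (P : Matrix S S ℚ) (hP : ∀ x y, 0 ≤ P x y) (hrow : ∀ x, ∑ y, P x y = 1)
    (rv : S → S) (hrv : ∀ a, rv (rv a) = a) (tl : S → V)
    (hsupp : ∀ a b, P a b ≠ 0 → tl b = tl (rv a)) (β : ℚ) (hβ : 0 < β) (hβ1 : β ≤ 1)
    (hov : ∀ a b, tl (rv a) = tl (rv b) → β ≤ ∑ x, min (P a x) (P b x))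
    (f : S → ℚ) (F : ℚ) (hf : ∀ a, |f a| ≤ F) :
    ∃ ψ : S → ℚ, (∀ a, ψ a + ∑ b, P (rv a) b * ψ b = f a) ∧ ∀ a, |ψ a| ≤ 2 / β * F := by
  let L : (S → ℚ) →ₗ[ℚ] (S → ℚ) :=
    { toFun := fun ψ a => ψ a + ∑ b, P (rv a) b * ψ b
      map_add' := by
        intro x y
        funext a
        simp only [Pi.add_apply, mul_add, sum_add_distrib]
        ring
      map_smul' := by
        intro c x
        funext a
        simp only [Pi.smul_apply, smul_eq_mul, RingHom.id_apply]
        rw [mul_add, mul_sum]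
        congr 1
        exact sum_congr rfl fun b _ => by ring }
  have hinj : Function.Injective L := by
    rw [injective_iff_map_eq_zero]
    intro ψ h0
    funext a
    have hb := ls_bound P hP hrow rv hrv tl hsupp β hβ hβ1 hov (fun _ => 0) 0
      (fun _ => by simp) ψ (fun a => congrFun h0 a) a
    rw [mul_zero] at hb
    exact abs_eq_zero.1 (le_antisymm hb (abs_nonneg _))
  obtain ⟨ψ, hψ⟩ := (LinearMap.injective_iff_surjective.1 hinj) f
  exact ⟨ψ, fun a => congrFun hψ a, ls_bound P hP hrow rv hrv tl hsupp β hβ hβ1 hov f F hf ψ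
    fun a => congrFun hψ a⟩

end Pool.Agent.Lib.MP_95bb8c_al.PS
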