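import Pool.Agent.Lib.MP_95bb8c_al.PS.TwoPoint
import Pool.Agent.Lib.MP_95bb8c_al.PS.LocalSolve
import Pool.Agent.Lib.MP_95bb8c_al.PS.Basic

set_option autoImplicit false
set_option linter.unusedSectionVars false

/-!
# Pseudorandom Whitehead graphs: the approximate inverse
-/

namespace Pool.Agent.Lib.MP_95bb8c_al.PS

open Finset Matrix

variable {S V : Type} [Fintype S] [DecidableEq S] [DecidableEq V]

theorem in_vert (P : Matrix S S ℚ) {n : ℕ} (g h : S) (H : S → ℚ) (i : Fin n) :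
    ∑ a : Fin (n + 1) → S, (if a 0 = g ∧ a 1 = h then cw P a * H (a i.succ) else 0) =
      P g h * ∑ x, (P ^ i.1) h x * (P ^ (n - i.1)) x g * H x := by
  have h1 := two_point P (n := n) g h (fun x _ => H x) i.succ i.succ (by simp) le_rfl
  rw [h1]
  congr 1
  refine sum_congr rfl fun x _ => ?_
  have e1 : (i.succ : Fin (n + 1)).1 - 1 = i.1 := by simp
  have e2 : (i.succ : Fin (n + 1)).1 - (i.succ : Fin (n + 1)).1 = 0 := by simp
  have e3 : n + 1 - (i.succ : Fin (n + 1)).1 = n - i.1 := by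
    simp
  rw [e1, e2, e3, pow_zero]
  rw [sum_eq_single x]
  · rw [one_apply_eq, mul_one]
  · intro y _ hy
    rw [one_apply_ne hy.symm]
    ring
  · intro hx
    exact absurd (mem_univ x) hx

theorem in_one (P : Matrix S S ℚ) {n : ℕ} (hn : 1 ≤ n) (g h : S) :
    ∑ a : Fin (n + 1) → S, (if a 0 = g ∧ a 1 = h then cw P a else 0) =
      P g h * (P ^ n) h g := by
  have h1 := in_vert P (n := n) g h (fun _ => 1) ⟨0, hn⟩
  simp only [mul_one, pow_zero, Nat.sub_zero] at h1
  rw [h1]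
  congr 1
  rw [sum_eq_single h]
  · rw [one_apply_eq, one_mul]
  · intro y _ hy
    rw [one_apply_ne hy.symm, zero_mul]
  · intro hx
    exact absurd (mem_univ h) hx

theorem in_corner (P : Matrix S S ℚ) {n : ℕ} (g h : S) (G : S → S → ℚ) (i : Fin n) :
    ∑ a : Fin (n + 1) → S,
      (if a 0 = g ∧ a 1 = h then cw P a * G (a i.succ) (a (i.succ + 1)) else 0) =
      P g h * ∑ x, ∑ y, (P ^ i.1) h x * P x y * (P ^ (n - 1 - i.1)) y g * G x y := by
  by_cases hi : i.1 + 1 < n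
  · have hv : ((i.succ : Fin (n + 1)) + 1).1 = i.1 + 2 := by
      rw [Fin.val_add_one_of_lt]
      · simp
      · rw [Fin.lt_def]
        simp
        omega
    rw [two_point P (n := n) g h G i.succ (i.succ + 1) (by simp)
      (by rw [Fin.le_def, hv]; simp)]
    congr 1
    refine sum_congr rfl fun x _ => sum_congr rfl fun y _ => ?_
    have e1 : (i.succ : Fin (n + 1)).1 - 1 = i.1 := by simp
    have e2 : ((i.succ : Fin (n + 1)) + 1).1 - (i.succ : Fin (n + 1)).1 = 1 := by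
      rw [hv]
      simp
    have e3 : n + 1 - ((i.succ : Fin (n + 1)) + 1).1 = n - 1 - i.1 := by
      rw [hv]
      omega
    rw [e1, e2, e3, pow_one]
  · have hi' : i.1 + 1 = n := by omega
    have hz : (i.succ : Fin (n + 1)) + 1 = 0 := by
      have : (i.succ : Fin (n + 1)) = Fin.last n := by
        apply Fin.ext
        simp [hi']
      rw [this, Fin.last_add_one]
    have h1 : ∀ a : Fin (n + 1) → S,
        (if a 0 = g ∧ a 1 = h then cw P a * G (a i.succ) (a (i.succ + 1)) else 0) =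
        if a 0 = g ∧ a 1 = h then cw P a * (fun x => G x g) (a i.succ) else 0 := by
      intro a
      by_cases ha : a 0 = g ∧ a 1 = h
      · rw [if_pos ha, if_pos ha, hz, ha.1]
      · rw [if_neg ha, if_neg ha]
    rw [sum_congr rfl fun a _ => h1 a, in_vert P g h (fun x => G x g) i]
    congr 1
    refine sum_congr rfl fun x _ => ?_
    have e1 : n - i.1 = 1 := by omega
    have e2 : n - 1 - i.1 = 0 := by omega
    rw [e1, e2, pow_one, pow_zero, sum_eq_single g]
    · rw [one_apply_eq, mul_one]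
    · intro y _ hy
      rw [one_apply_ne hy]
      ring
    · intro hx
      exact absurd (mem_univ g) hx

namespace Chain

variable (C : Chain S V)

/-- A sum against a power of the transition matrix is close to the mean. -/
theorem in_mean {T : ℕ} {γ : ℚ} (hmix : C.Mix T γ) {t : ℕ} (ht : T ≤ t) (x : S) (ψ : S → ℚ)
    (B : ℚ) (hB : ∀ y, |ψ y| ≤ B) :
    |((C.P ^ t) *ᵥ ψ) x - ∑ y, C.pi y * ψ y| ≤ γ * B := by
  have : Nonempty S := ⟨x⟩
  have hB0 : 0 ≤ B := (abs_nonneg _).trans (hB x)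
  have h1 : ((C.P ^ t) *ᵥ ψ) x - ∑ y, C.pi y * ψ y =
      ∑ y, ((C.P ^ t) x y - C.pi y) * ψ y := by
    unfold Matrix.mulVec dotProduct
    rw [← sum_sub_distrib]
    exact sum_congr rfl fun y _ => by ring
  rw [h1]
  calc |∑ y, ((C.P ^ t) x y - C.pi y) * ψ y|
      ≤ ∑ y, |((C.P ^ t) x y - C.pi y) * ψ y| := abs_sum_le_sum_abs _ _
    _ ≤ ∑ y, γ * C.pi y * B := by
        refine sum_le_sum fun y _ => ?_
        rw [abs_mul]
        have h2 := hmix t ht x y
        exact mul_le_mul h2 (hB y) (abs_nonneg _) ((abs_nonneg _).trans h2)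
    _ = γ * B := by
        rw [← sum_mul, ← mul_sum, C.pi_sum, mul_one]

theorem in_tele (ψ : S → ℚ) (J : ℕ) (x : S) :
    ∑ t ∈ range J, ((C.P ^ t) *ᵥ (fun a => ψ a - (C.P *ᵥ ψ) a)) x =
      ψ x - ((C.P ^ J) *ᵥ ψ) x := by
  induction J with
  | zero => simp
  | succ J ih =>
    rw [sum_range_succ, ih]
    have h1 : (fun a => ψ a - (C.P *ᵥ ψ) a) = ψ - C.P *ᵥ ψ := rfl
    rw [h1, Matrix.mulVec_sub, Matrix.mulVec_mulVec, ← pow_succ]
    simp only [Pi.sub_apply]
    ring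

/-- Replacing the power of the transition matrix which ends at `g` by the stationary law. -/
theorem in_end {T : ℕ} {γ : ℚ} (hmix : C.Mix T γ) {t : ℕ} (ht : T ≤ t) {ι : Type} [Fintype ι]
    (τ : ι → S) (q F : ι → ℚ) (hq : ∀ j, 0 ≤ q j) (B : ℚ) (hB : ∀ j, |F j| ≤ B) (g : S) :
    |∑ j, q j * (C.P ^ t) (τ j) g * F j - C.pi g * ∑ j, q j * F j| ≤
      γ * C.pi g * B * ∑ j, q j := by
  rw [mul_sum, ← sum_sub_distrib, mul_sum]
  refine (abs_sum_le_sum_abs _ _).trans (sum_le_sum fun j _ => ?_)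
  have h1 : q j * (C.P ^ t) (τ j) g * F j - C.pi g * (q j * F j) =
      q j * (((C.P ^ t) (τ j) g - C.pi g) * F j) := by ring
  rw [h1, abs_mul, abs_of_nonneg (hq j), abs_mul]
  have h2 := hmix t ht (τ j) g
  have h3 : |(C.P ^ t) (τ j) g - C.pi g| * |F j| ≤ γ * C.pi g * B :=
    mul_le_mul h2 (hB j) (abs_nonneg _) ((abs_nonneg _).trans h2)
  calc q j * (|(C.P ^ t) (τ j) g - C.pi g| * |F j|) ≤ q j * (γ * C.pi g * B) :=
        mul_le_mul_of_nonneg_left h3 (hq j)
    _ = γ * C.pi g * B * q j := by ring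

/-- Replacing the power of the transition matrix which starts at `h` by the stationary law. -/
theorem in_start {T : ℕ} {γ : ℚ} (hmix : C.Mix T γ) {t : ℕ} (ht : T ≤ t) {ι : Type} [Fintype ι]
    (τ : ι → S) (u F : ι → ℚ) (hu : ∀ j, 0 ≤ u j) (B : ℚ) (hB : ∀ j, |F j| ≤ B) (h : S) :
    |∑ j, (C.P ^ t) h (τ j) * u j * F j - ∑ j, C.pi (τ j) * u j * F j| ≤
      γ * B * ∑ j, C.pi (τ j) * u j := by
  rw [← sum_sub_distrib, mul_sum]
  refine (abs_sum_le_sum_abs _ _).trans (sum_le_sum fun j _ => ?_)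
  have h1 : (C.P ^ t) h (τ j) * u j * F j - C.pi (τ j) * u j * F j =
      u j * (((C.P ^ t) h (τ j) - C.pi (τ j)) * F j) := by ring
  rw [h1, abs_mul, abs_of_nonneg (hu j), abs_mul]
  have h2 := hmix t ht h (τ j)
  have h3 : |(C.P ^ t) h (τ j) - C.pi (τ j)| * |F j| ≤ γ * C.pi (τ j) * B :=
    mul_le_mul h2 (hB j) (abs_nonneg _) ((abs_nonneg _).trans h2)
  calc u j * (|(C.P ^ t) h (τ j) - C.pi (τ j)| * |F j|) ≤ u j * (γ * C.pi (τ j) * B) :=
        mul_le_mul_of_nonneg_left h3 (hu j)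
    _ = γ * B * (C.pi (τ j) * u j) := by ring

/-- The corner terms are small. -/
theorem in_corner_small {T : ℕ} {γ : ℚ} (hmix : C.Mix T γ) {n : ℕ} (hn : 2 * T + 1 ≤ n)
    (G : S → S → ℚ) (B : ℚ) (hB : ∀ x y, |G x y| ≤ B)
    (hrow : ∀ x, ∑ y, C.P x y * G x y = 0) (hcol : ∀ y, ∑ x, C.pi x * C.P x y * G x y = 0)
    (g h : S) {i : ℕ} (hi : i < n) :
    |∑ x, ∑ y, (C.P ^ i) h x * C.P x y * (C.P ^ (n - 1 - i)) y g * G x y| ≤
      γ * C.pi g * B := by
  by_cases hc : T ≤ n - 1 - i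
  · have h1 := C.in_end hmix hc (ι := S × S) Prod.snd (fun j => (C.P ^ i) h j.1 * C.P j.1 j.2)
      (fun j => G j.1 j.2) (fun j => mul_nonneg (C.pow_nonneg' _ _ _) (C.P_nonneg _ _)) B
      (fun j => hB _ _) g
    rw [Fintype.sum_prod_type, Fintype.sum_prod_type, Fintype.sum_prod_type] at h1
    have h2 : ∑ x, ∑ y, (C.P ^ i) h x * C.P x y * G x y = 0 := by
      refine sum_eq_zero fun x _ => ?_
      have : ∑ y, (C.P ^ i) h x * C.P x y * G x y =
          (C.P ^ i) h x * ∑ y, C.P x y * G x y := by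
        rw [mul_sum]
        exact sum_congr rfl fun y _ => by ring
      rw [this, hrow, mul_zero]
    have h3 : ∑ x, ∑ y, (C.P ^ i) h x * C.P x y = 1 := by
      have : ∀ x, ∑ y, (C.P ^ i) h x * C.P x y = (C.P ^ i) h x := by
        intro x
        rw [← mul_sum, C.P_row, mul_one]
      rw [sum_congr rfl fun x _ => this x, C.pow_row]
    rw [h2, h3] at h1
    simpa using h1
  · have hc' : T ≤ i := by omega
    have h1 := C.in_start hmix hc' (ι := S × S) Prod.fst
      (fun j => C.P j.1 j.2 * (C.P ^ (n - 1 - i)) j.2 g)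
      (fun j => G j.1 j.2) (fun j => mul_nonneg (C.P_nonneg _ _) (C.pow_nonneg' _ _ _)) B
      (fun j => hB _ _) h
    rw [Fintype.sum_prod_type, Fintype.sum_prod_type, Fintype.sum_prod_type] at h1
    have h2 : ∑ x, ∑ y, C.pi x * (C.P x y * (C.P ^ (n - 1 - i)) y g) * G x y = 0 := by
      rw [sum_comm]
      refine sum_eq_zero fun y _ => ?_
      have : ∑ x, C.pi x * (C.P x y * (C.P ^ (n - 1 - i)) y g) * G x y =
          (C.P ^ (n - 1 - i)) y g * ∑ x, C.pi x * C.P x y * G x y := by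
        rw [mul_sum]
        exact sum_congr rfl fun x _ => by ring
      rw [this, hcol, mul_zero]
    have h3 : ∑ x, ∑ y, C.pi x * (C.P x y * (C.P ^ (n - 1 - i)) y g) = C.pi g := by
      rw [sum_comm]
      have : ∀ y, ∑ x, C.pi x * (C.P x y * (C.P ^ (n - 1 - i)) y g) =
          C.pi y * (C.P ^ (n - 1 - i)) y g := by
        intro y
        rw [← C.pi_P y, sum_mul]
        exact sum_congr rfl fun x _ => by ring
      rw [sum_congr rfl fun y _ => this y, C.pi_pow]
    rw [h2, h3] at h1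
    have h4 : ∑ x, ∑ y, (C.P ^ i) h x * C.P x y * (C.P ^ (n - 1 - i)) y g * G x y =
        ∑ x, ∑ y, (C.P ^ i) h x * (C.P x y * (C.P ^ (n - 1 - i)) y g) * G x y :=
      sum_congr rfl fun x _ => sum_congr rfl fun y _ => by ring
    rw [h4]
    have h5 : γ * C.pi g * B = γ * B * C.pi g := by ring
    rw [h5]
    simpa using h1

/-- The vertex terms: telescoping. -/
theorem in_vert_small {T : ℕ} {γ : ℚ} (hmix : C.Mix T γ) {n : ℕ}
    (hn : 2 * T + 1 ≤ n) (ψ H : S → ℚ) (b : ℚ) (hH : ∀ a, H a = ψ a - (C.P *ᵥ ψ) a)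
    (hHrv : ∀ a, H (C.rv a) = H a) (hψ : ∀ a, |ψ a| ≤ b) (hHb : ∀ a, |H a| ≤ 2 * b)
    (g h : S) :
    |∑ i ∈ range (n + 1), ∑ x, (C.P ^ i) h x * (C.P ^ (n - i)) x g * H x -
      C.pi g * (ψ h + ψ (C.rv g) - 2 * ∑ y, C.pi y * ψ y)| ≤
        (2 * (n : ℚ) + 4) * b * γ * C.pi g := by
  have hg0 : 0 ≤ C.pi g := (C.pi_pos g).le
  have hb0 : 0 ≤ b := (abs_nonneg _).trans (hψ g)
  have hHf : (fun a => ψ a - (C.P *ᵥ ψ) a) = H := funext fun a => (hH a).symm
  -- the first half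
  have h1 : ∀ i, i < T → |∑ x, (C.P ^ i) h x * (C.P ^ (n - i)) x g * H x -
      C.pi g * ((C.P ^ i) *ᵥ H) h| ≤ γ * C.pi g * (2 * b) := by
    intro i hi
    have h2 := C.in_end hmix (t := n - i) (by omega) (ι := S) id (fun x => (C.P ^ i) h x) H
      (fun x => C.pow_nonneg' _ _ _) (2 * b) hHb g
    rw [C.pow_row, mul_one] at h2
    exact h2
  -- the second half
  have h3 : ∀ i, T ≤ i → |∑ x, (C.P ^ i) h x * (C.P ^ (n - i)) x g * H x -
      C.pi g * ((C.P ^ (n - i)) *ᵥ H) (C.rv g)| ≤ γ * C.pi g * (2 * b) := by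
    intro i hi
    have h2 := C.in_start hmix hi (ι := S) id (fun x => (C.P ^ (n - i)) x g) H
      (fun x => C.pow_nonneg' _ _ _) (2 * b) hHb h
    simp only [id] at h2
    rw [C.pi_pow] at h2
    have h4 : ∑ x, C.pi x * (C.P ^ (n - i)) x g * H x =
        C.pi g * ((C.P ^ (n - i)) *ᵥ H) (C.rv g) := by
      have h5 : ∀ x, C.pi x * (C.P ^ (n - i)) x g * H x =
          C.pi g * ((C.P ^ (n - i)) (C.rv g) (C.rv x) * H (C.rv x)) := by
        intro x
        rw [C.rev, hHrv]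
        ring
      rw [sum_congr rfl fun x _ => h5 x, ← mul_sum]
      congr 1
      unfold Matrix.mulVec dotProduct
      exact Equiv.sum_comp (Function.Involutive.toPerm C.rv C.rv_rv)
        (fun x => (C.P ^ (n - i)) (C.rv g) x * H x)
    rw [h4] at h2
    calc _ ≤ γ * (2 * b) * C.pi g := h2
      _ = γ * C.pi g * (2 * b) := by ring
  -- splitting
  set A : ℕ → ℚ := fun i => ∑ x, (C.P ^ i) h x * (C.P ^ (n - i)) x g * H x with hA
  obtain ⟨N, hN⟩ : ∃ N, n + 1 = T + N := ⟨n + 1 - T, by omega⟩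
  have hTN : T ≤ N := by omega
  have h5 : ∑ i ∈ range (n + 1), A i = ∑ i ∈ range T, A i + ∑ i ∈ range N, A (T + i) := by
    rw [hN, sum_range_add]
  have h6 : ∑ i ∈ range T, ((C.P ^ i) *ᵥ H) h = ψ h - ((C.P ^ T) *ᵥ ψ) h := by
    rw [← hHf]
    exact C.in_tele ψ T h
  have h7 : ∑ i ∈ range N, ((C.P ^ (n - (T + i))) *ᵥ H) (C.rv g) =
      ψ (C.rv g) - ((C.P ^ N) *ᵥ ψ) (C.rv g) := by
    have h8 : ∑ i ∈ range N, ((C.P ^ (n - (T + i))) *ᵥ H) (C.rv g) =
        ∑ i ∈ range N, ((C.P ^ i) *ᵥ H) (C.rv g) := by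
      rw [← sum_range_reflect (fun i => ((C.P ^ i) *ᵥ H) (C.rv g)) N]
      refine sum_congr rfl fun i hi => ?_
      have : n - (T + i) = N - 1 - i := by
        have := mem_range.1 hi
        omega
      rw [this]
    rw [h8, ← hHf]
    exact C.in_tele ψ N (C.rv g)
  have h9 : |∑ i ∈ range T, A i - C.pi g * ∑ i ∈ range T, ((C.P ^ i) *ᵥ H) h| ≤
      T * (γ * C.pi g * (2 * b)) := by
    rw [mul_sum, ← sum_sub_distrib]
    refine (abs_sum_le_sum_abs _ _).trans ?_
    refine (sum_le_sum fun i hi => h1 i (mem_range.1 hi)).trans ?_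
    rw [sum_const, card_range, nsmul_eq_mul]
  have h10 : |∑ i ∈ range N, A (T + i) -
      C.pi g * ∑ i ∈ range N, ((C.P ^ (n - (T + i))) *ᵥ H) (C.rv g)| ≤
      N * (γ * C.pi g * (2 * b)) := by
    rw [mul_sum, ← sum_sub_distrib]
    refine (abs_sum_le_sum_abs _ _).trans ?_
    refine (sum_le_sum fun i _ => h3 (T + i) (by omega)).trans ?_
    rw [sum_const, card_range, nsmul_eq_mul]
  have h11 := C.in_mean hmix (le_refl T) h ψ b hψ
  have h12 := C.in_mean hmix hTN (C.rv g) ψ b hψ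
  rw [h6] at h9
  rw [h7] at h10
  have hTNq : (T : ℚ) + N = n + 1 := by exact_mod_cast hN.symm
  set m := ∑ y, C.pi y * ψ y with hm
  have h13 : ∑ i ∈ range (n + 1), A i - C.pi g * (ψ h + ψ (C.rv g) - 2 * m) =
      (∑ i ∈ range T, A i - C.pi g * (ψ h - ((C.P ^ T) *ᵥ ψ) h)) +
      (∑ i ∈ range N, A (T + i) - C.pi g * (ψ (C.rv g) - ((C.P ^ N) *ᵥ ψ) (C.rv g))) +
      (-(C.pi g * (((C.P ^ T) *ᵥ ψ) h - m)) + -(C.pi g * (((C.P ^ N) *ᵥ ψ) (C.rv g) - m))) := by
    rw [h5]
    ring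
  rw [h13]
  have h14 : |-(C.pi g * (((C.P ^ T) *ᵥ ψ) h - m)) + -(C.pi g * (((C.P ^ N) *ᵥ ψ) (C.rv g) - m))|
      ≤ C.pi g * (γ * b) + C.pi g * (γ * b) := by
    refine (abs_add_le _ _).trans ?_
    rw [abs_neg, abs_neg, abs_mul, abs_mul, abs_of_nonneg hg0]
    exact add_le_add (mul_le_mul_of_nonneg_left h11 hg0) (mul_le_mul_of_nonneg_left h12 hg0)
  calc _ ≤ T * (γ * C.pi g * (2 * b)) + N * (γ * C.pi g * (2 * b)) +
        (C.pi g * (γ * b) + C.pi g * (γ * b)) :=
        (abs_add_le _ _).trans (add_le_add ((abs_add_le _ _).trans (add_le_add h9 h10)) h14)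
    _ = ((T : ℚ) + N) * (γ * C.pi g * (2 * b)) + 2 * (C.pi g * (γ * b)) := by ring
    _ = (2 * (n : ℚ) + 4) * b * γ * C.pi g := by
        rw [hTNq]
        ring

/-- The weighted sum of the three kinds of potentials. -/
theorem in_split (P : Matrix S S ℚ) {n : ℕ} (hn : 1 ≤ n) (g h : S) (G : S → S → ℚ) (H : S → ℚ)
    (c : ℚ) :
    ∑ a : Fin (n + 1) → S, (if a 0 = g ∧ a 1 = h then
      cw P a * (∑ i, G (a i) (a (i + 1)) + ∑ i, H (a i) + c) else 0) =
      P g h * (∑ i ∈ range (n + 1), ∑ x, (P ^ i) h x * (P ^ (n - i)) x g * H x +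
        ∑ i ∈ range n, ∑ x, ∑ y, (P ^ i) h x * P x y * (P ^ (n - 1 - i)) y g * G x y +
        (P ^ n) h g * (G g h + c)) := by
  have h1 : ∀ a : Fin (n + 1) → S, (if a 0 = g ∧ a 1 = h then
      cw P a * (∑ i, G (a i) (a (i + 1)) + ∑ i, H (a i) + c) else 0) =
      ∑ i : Fin n, (if a 0 = g ∧ a 1 = h then cw P a * G (a i.succ) (a (i.succ + 1)) else 0) +
      ∑ i : Fin n, (if a 0 = g ∧ a 1 = h then cw P a * H (a i.succ) else 0) +
      (if a 0 = g ∧ a 1 = h then cw P a else 0) * (G g h + H g + c) := by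
    intro a
    by_cases ha : a 0 = g ∧ a 1 = h
    · simp only [if_pos ha]
      rw [Fin.sum_univ_succ, Fin.sum_univ_succ, zero_add, ha.1, ha.2, ← mul_sum, ← mul_sum]
      ring
    · simp only [if_neg ha]
      simp
  rw [sum_congr rfl fun a _ => h1 a, sum_add_distrib, sum_add_distrib, sum_comm,
    sum_comm (t := (univ : Finset (Fin n))), ← sum_mul, in_one P hn]
  rw [sum_congr rfl fun i _ => in_corner P g h G i, sum_congr rfl fun i _ => in_vert P g h H i,
    ← mul_sum, ← mul_sum]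
  rw [Fin.sum_univ_eq_sum_range
      (fun i => ∑ x, ∑ y, (P ^ i) h x * P x y * (P ^ (n - 1 - i)) y g * G x y) n,
    Fin.sum_univ_eq_sum_range (fun i => ∑ x, (P ^ i) h x * (P ^ (n - i)) x g * H x) n,
    sum_range_succ (fun i => ∑ x, (P ^ i) h x * (P ^ (n - i)) x g * H x) n]
  have h2 : ∑ x, (P ^ n) h x * (P ^ (n - n)) x g * H x = (P ^ n) h g * H g := by
    rw [Nat.sub_self, pow_zero, sum_eq_single g]
    · rw [one_apply_eq, mul_one]
    · intro y _ hy
      rw [one_apply_ne hy]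
      ring
    · intro hx
      exact absurd (mem_univ g) hx
  rw [h2]
  ring

/-- **The approximate inverse.** Every admissible error is, up to the mixing error, the coverage
of a small rotation invariant change of the weights of the closed sequences. -/
theorem approx_inverse (C : Chain S V) (T : ℕ) (γ β : ℚ) (hγ : 0 ≤ γ) (hmix : C.Mix T γ)
    (hβ : 0 < β) (hβ1 : β ≤ 1) (hov : C.Over β) (n : ℕ) (hn : 2 * T + 1 ≤ n)
    (e : S → S → ℚ) (δ : ℚ) (hδ : 0 ≤ δ) (he : C.Err e δ) :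
    ∃ φ : (Fin (n + 1) → S) → ℚ, (∀ a, |φ a| ≤ 14 * (n + 1) / β * δ) ∧
      (∀ a, φ (fun i => a (i + 1)) = φ a) ∧
      ∀ g h, |C.Z * ∑ a, (if a 0 = g ∧ a 1 = h then cw C.P a * φ a else 0) - e g h| ≤
        20 * (n + 1) * γ / β * δ * C.Q g h := by
  obtain ⟨he1, he2, he3⟩ := he
  set η : ℚ := δ / β with hη
  have hη0 : 0 ≤ η := div_nonneg hδ hβ.le
  have hδη : δ ≤ η := by
    rw [hη, le_div_iff₀ hβ]
    nlinarith
  -- the local systems
  set f : S → ℚ := fun a => (∑ b, e a b) / C.s a with hf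
  have hfb : ∀ a, |f a| ≤ δ := by
    intro a
    rw [hf]
    simp only
    rw [abs_div, abs_of_pos (C.s_pos a), div_le_iff₀ (C.s_pos a), ← C.row a, mul_sum]
    exact (abs_sum_le_sum_abs _ _).trans (sum_le_sum fun b _ => he3 a b)
  have hfrv : ∀ a, f (C.rv a) = f a := by
    intro a
    rw [hf]
    simp only
    rw [he2, C.s_rv]
  obtain ⟨ψ, hψ1, hψ2⟩ := local_solve C.P C.P_nonneg C.P_row C.rv C.rv_rv C.tl
    (fun a b hab => ((C.Q_ne a b).1 (fun h0 => hab (by
      show C.Q a b / C.s a = 0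
      rw [h0, zero_div]))).1) β hβ hβ1 hov f δ hfb
  set b : ℚ := 2 * η with hb
  have hψb : ∀ a, |ψ a| ≤ b := by
    intro a
    have h1 := hψ2 a
    have h2 : 2 / β * δ = b := by
      rw [hb, hη]
      ring
    rwa [h2] at h1
  set H : S → ℚ := fun a => ψ a - (C.P *ᵥ ψ) a with hH
  have hPψ : ∀ a, (C.P *ᵥ ψ) a = f a - ψ (C.rv a) := by
    intro a
    have h1 := hψ1 (C.rv a)
    rw [C.rv_rv, hfrv] at h1
    have h2 : (C.P *ᵥ ψ) a = ∑ b, C.P a b * ψ b := rfl
    rw [h2]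
    linarith
  have hHrv : ∀ a, H (C.rv a) = H a := by
    intro a
    rw [hH]
    simp only
    rw [hPψ, hPψ, C.rv_rv, hfrv]
    ring
  have hPb : ∀ a, |(C.P *ᵥ ψ) a| ≤ b := by
    intro a
    have h2 : (C.P *ᵥ ψ) a = ∑ y, C.P a y * ψ y := rfl
    rw [h2]
    calc |∑ y, C.P a y * ψ y| ≤ ∑ y, |C.P a y * ψ y| := abs_sum_le_sum_abs _ _
      _ ≤ ∑ y, C.P a y * b := by
          refine sum_le_sum fun y _ => ?_
          rw [abs_mul, abs_of_nonneg (C.P_nonneg a y)]
          exact mul_le_mul_of_nonneg_left (hψb y) (C.P_nonneg a y)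
      _ = b := by rw [← sum_mul, C.P_row, one_mul]
  have hHb : ∀ a, |H a| ≤ 2 * b := by
    intro a
    rw [hH]
    simp only
    have h1 := hψb a
    have h2 := hPb a
    rw [abs_le] at h1 h2 ⊢
    constructor <;> linarith [h1.1, h1.2, h2.1, h2.2]
  -- the corner potentials
  set G : S → S → ℚ := fun x y => e x y / C.Q x y - (if C.Q x y = 0 then 0 else
    (ψ y + ψ (C.rv x))) with hG
  have hQG : ∀ x y, C.Q x y * G x y = e x y - C.Q x y * (ψ y + ψ (C.rv x)) := by
    intro x y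
    rw [hG]
    simp only
    by_cases hq : C.Q x y = 0
    · have h0 : e x y = 0 := by
        have := he3 x y
        rw [hq, mul_zero] at this
        exact abs_nonpos_iff.1 this
      rw [hq, h0]
      ring
    · rw [if_neg hq]
      field_simp
  have hGb : ∀ x y, |G x y| ≤ 5 * η := by
    intro x y
    rw [hG]
    simp only
    by_cases hq : C.Q x y = 0
    · rw [if_pos hq, hq, div_zero, sub_zero, abs_zero]
      linarith
    · rw [if_neg hq]
      have hq0 : 0 < C.Q x y := lt_of_le_of_ne (C.Q_nonneg x y) (Ne.symm hq)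
      have h0 : |e x y / C.Q x y| ≤ δ := by
        rw [abs_div, abs_of_pos hq0, div_le_iff₀ hq0]
        exact he3 x y
      have h1 := hψb y
      have h2 := hψb (C.rv x)
      rw [abs_le] at h0 h1 h2 ⊢
      constructor <;> linarith [h1.1, h1.2, h2.1, h2.2, h0.1, h0.2]
  have hrow0 : ∀ x, ∑ y, C.Q x y * G x y = 0 := by
    intro x
    rw [sum_congr rfl fun y _ => hQG x y, sum_sub_distrib]
    have h1 : ∑ y, C.Q x y * (ψ y + ψ (C.rv x)) = C.s x * f x := by
      have h2 : f x = ∑ y, C.P x y * ψ y + ψ (C.rv x) := by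
        have := hψ1 (C.rv x)
        rw [C.rv_rv, hfrv] at this
        linarith
      rw [h2, mul_add, mul_sum, ← C.row x, sum_mul, ← sum_add_distrib]
      refine sum_congr rfl fun y _ => ?_
      have h3 : C.P x y = C.Q x y / C.s x := rfl
      rw [h3, C.row x]
      have := (C.s_pos x).ne'
      field_simp
    rw [h1, hf]
    simp only
    rw [mul_div_cancel₀ _ (C.s_pos x).ne', sub_self]
  have hsym : ∀ x y, C.Q (C.rv y) (C.rv x) * G (C.rv y) (C.rv x) = C.Q x y * G x y := by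
    intro x y
    rw [hQG, hQG, he1, C.Q_rv, C.rv_rv]
    ring
  have hcol0 : ∀ y, ∑ x, C.Q x y * G x y = 0 := by
    intro y
    rw [← hrow0 (C.rv y)]
    rw [sum_congr rfl fun x _ => (hsym x y).symm]
    exact Equiv.sum_comp (Function.Involutive.toPerm C.rv C.rv_rv)
      (fun x => C.Q (C.rv y) x * G (C.rv y) x)
  have hrow : ∀ x, ∑ y, C.P x y * G x y = 0 := by
    intro x
    have h1 : ∀ y, C.P x y * G x y = (C.s x)⁻¹ * (C.Q x y * G x y) := by
      intro y
      show C.Q x y / C.s x * G x y = _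
      ring
    rw [sum_congr rfl fun y _ => h1 y, ← mul_sum, hrow0, mul_zero]
  have hcol : ∀ y, ∑ x, C.pi x * C.P x y * G x y = 0 := by
    intro y
    have : Nonempty S := ⟨y⟩
    have hZ : C.Z ≠ 0 := by
      intro h0
      have h1 := C.pi_pos y
      have h2 : C.pi y = C.s y / C.Z := rfl
      rw [h2, h0, div_zero] at h1
      exact lt_irrefl _ h1
    have h1 : ∀ x, C.pi x * C.P x y * G x y = (C.Z)⁻¹ * (C.Q x y * G x y) := by
      intro x
      rw [← C.Q_eq x y]
      field_simp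
    rw [sum_congr rfl fun x _ => h1 x, ← mul_sum, hcol0, mul_zero]
  set m := ∑ y, C.pi y * ψ y with hm
  have hmb : ∀ a : S, |m| ≤ b := by
    intro a
    have : Nonempty S := ⟨a⟩
    calc |m| ≤ ∑ y, |C.pi y * ψ y| := abs_sum_le_sum_abs _ _
      _ ≤ ∑ y, C.pi y * b := by
          refine sum_le_sum fun y _ => ?_
          rw [abs_mul, abs_of_pos (C.pi_pos y)]
          exact mul_le_mul_of_nonneg_left (hψb y) (C.pi_pos y).le
      _ = b := by rw [← sum_mul, C.pi_sum, one_mul]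
  refine ⟨fun a => ∑ i, G (a i) (a (i + 1)) + ∑ i, H (a i) + 2 * m, ?_, ?_, ?_⟩
  · intro a
    have h1 : |∑ i, G (a i) (a (i + 1))| ≤ (n + 1) * (5 * η) := by
      calc _ ≤ ∑ i, |G (a i) (a (i + 1))| := abs_sum_le_sum_abs _ _
        _ ≤ ∑ _i : Fin (n + 1), 5 * η := sum_le_sum fun i _ => hGb _ _
        _ = (n + 1) * (5 * η) := by
            rw [sum_const, card_univ, Fintype.card_fin, nsmul_eq_mul]
            push_cast
            ring
    have h2 : |∑ i, H (a i)| ≤ (n + 1) * (2 * b) := by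
      calc _ ≤ ∑ i, |H (a i)| := abs_sum_le_sum_abs _ _
        _ ≤ ∑ _i : Fin (n + 1), 2 * b := sum_le_sum fun i _ => hHb _
        _ = (n + 1) * (2 * b) := by
            rw [sum_const, card_univ, Fintype.card_fin, nsmul_eq_mul]
            push_cast
            ring
    have h3 : |2 * m| ≤ 2 * b := by
      rw [abs_mul, abs_of_pos (by norm_num : (0 : ℚ) < 2)]
      exact mul_le_mul_of_nonneg_left (hmb (a 0)) (by norm_num)
    have h4 : (14 : ℚ) * (n + 1) / β * δ = 14 * (n + 1) * η := by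
      rw [hη]
      ring
    rw [h4]
    calc _ ≤ (n + 1) * (5 * η) + (n + 1) * (2 * b) + 2 * b :=
          (abs_add_le _ _).trans (add_le_add ((abs_add_le _ _).trans (add_le_add h1 h2)) h3)
      _ ≤ 14 * (n + 1) * η := by
          rw [hb]
          have hn0 : (0 : ℚ) ≤ n := Nat.cast_nonneg n
          have := mul_nonneg hn0 hη0
          nlinarith
  · intro a
    have h1 : ∑ i, G (a (i + 1)) (a (i + 1 + 1)) = ∑ i, G (a i) (a (i + 1)) :=
      Equiv.sum_comp (Equiv.addRight (1 : Fin (n + 1))) (fun i => G (a i) (a (i + 1)))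
    have h2 : ∑ i, H (a (i + 1)) = ∑ i, H (a i) :=
      Equiv.sum_comp (Equiv.addRight (1 : Fin (n + 1))) (fun i => H (a i))
    simp only
    rw [h1, h2]
  · intro g h
    have : Nonempty S := ⟨g⟩
    have hg0 : 0 < C.pi g := C.pi_pos g
    simp only
    rw [in_split C.P (by omega) g h G H (2 * m)]
    have h1 := C.in_vert_small hmix hn ψ H b (fun a => rfl) hHrv hψb hHb g h
    have h2 : |∑ i ∈ range n, ∑ x, ∑ y,
        (C.P ^ i) h x * C.P x y * (C.P ^ (n - 1 - i)) y g * G x y| ≤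
        n * (γ * C.pi g * (5 * η)) := by
      refine (abs_sum_le_sum_abs _ _).trans ?_
      refine (sum_le_sum fun i hi => C.in_corner_small hmix hn G (5 * η) hGb hrow hcol g h
        (mem_range.1 hi)).trans ?_
      rw [sum_const, card_range, nsmul_eq_mul]
    have h3 : |((C.P ^ n) h g - C.pi g) * (G g h + 2 * m)| ≤ γ * C.pi g * (9 * η) := by
      rw [abs_mul]
      have h4 := hmix n (by omega) h g
      refine mul_le_mul h4 ?_ (abs_nonneg _) ((abs_nonneg _).trans h4)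
      have h5 := hGb g h
      have h6 := hmb g
      rw [hb] at h6
      rw [abs_le] at h5 h6 ⊢
      constructor <;> linarith [h5.1, h5.2, h6.1, h6.2]
    rw [← hm] at h1
    set X := ∑ i ∈ range (n + 1), ∑ x, (C.P ^ i) h x * (C.P ^ (n - i)) x g * H x with hX
    set Y := ∑ i ∈ range n, ∑ x, ∑ y,
        (C.P ^ i) h x * C.P x y * (C.P ^ (n - 1 - i)) y g * G x y with hY
    have h7 : C.Z * (C.P g h * (X + Y + (C.P ^ n) h g * (G g h + 2 * m))) - e g h =
        C.Z * C.P g h * ((X - C.pi g * (ψ h + ψ (C.rv g) - 2 * m)) + Y +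
          ((C.P ^ n) h g - C.pi g) * (G g h + 2 * m)) := by
      have h8 : e g h = C.Q g h * (G g h + (ψ h + ψ (C.rv g))) := by
        have := hQG g h
        linarith
      rw [h8, ← C.Q_eq g h]
      ring
    have hZP : 0 ≤ C.Z * C.P g h :=
      mul_nonneg (sum_nonneg fun a _ => (C.s_pos a).le) (C.P_nonneg g h)
    rw [h7, abs_mul, abs_of_nonneg hZP]
    have h9 : |(X - C.pi g * (ψ h + ψ (C.rv g) - 2 * m)) + Y +
          ((C.P ^ n) h g - C.pi g) * (G g h + 2 * m)| ≤ 20 * (n + 1) * γ * η * C.pi g := by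
      calc _ ≤ (2 * (n : ℚ) + 4) * b * γ * C.pi g + n * (γ * C.pi g * (5 * η)) +
            γ * C.pi g * (9 * η) :=
            (abs_add_le _ _).trans (add_le_add ((abs_add_le _ _).trans (add_le_add h1 h2)) h3)
        _ = (9 * (n : ℚ) + 17) * (γ * η * C.pi g) := by
            rw [hb]
            ring
        _ ≤ (20 * ((n : ℚ) + 1)) * (γ * η * C.pi g) := by
            refine mul_le_mul_of_nonneg_right ?_ (mul_nonneg (mul_nonneg hγ hη0) hg0.le)
            have hn0 : (0 : ℚ) ≤ n := Nat.cast_nonneg n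
            linarith
        _ = 20 * (n + 1) * γ * η * C.pi g := by ring
    calc _ ≤ C.Z * C.P g h * (20 * (n + 1) * γ * η * C.pi g) :=
          mul_le_mul_of_nonneg_left h9 hZP
      _ = 20 * (n + 1) * γ / β * δ * C.Q g h := by
          rw [← C.Q_eq g h, hη]
          ring

end Chain

end Pool.Agent.Lib.MP_95bb8c_al.PS
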