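import Pool.Agent.Lib.MP_95bb8c_al.PS.Defs

set_option autoImplicit false
set_option linter.unusedSectionVars false

namespace Pool.Agent.Lib.MP_95bb8c_al.PS

open Finset Matrix

variable {S : Type} [Fintype S] [DecidableEq S]

/-- Sum over the paths with `m` steps from `s` at time `k` to `t`, with the factors `D`. -/
def wpath (P : Matrix S S ℚ) (D : ℕ → S → ℚ) (t : S) : ℕ → ℕ → S → ℚ
  | 0, _, s => if s = t then 1 else 0
  | m + 1, k, s => D k s * ∑ z, P s z * wpath P D t m (k + 1) z

/-- The factors `D` with the place `p` fixed to `x`. -/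
def pin (p : ℕ) (x : S) (D : ℕ → S → ℚ) : ℕ → S → ℚ := fun k s =>
  if k = p then (if s = x then D k s else 0) else D k s

theorem wpath_congr (P : Matrix S S ℚ) (D D' : ℕ → S → ℚ) (t : S) (m : ℕ) :
    ∀ (k : ℕ), (∀ l, k ≤ l → l < k + m → D l = D' l) → ∀ s,
      wpath P D t m k s = wpath P D' t m k s := by
  induction m with
  | zero => intro k _ s; rfl
  | succ m ih =>
    intro k h s
    rw [wpath, wpath, h k le_rfl (by omega)]
    congr 1
    refine Finset.sum_congr rfl fun z _ => ?_
    rw [ih (k + 1) (fun l h1 h2 => h l (by omega) (by omega)) z]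

theorem wpath_one (P : Matrix S S ℚ) (t : S) (m : ℕ) :
    ∀ (k : ℕ) (s : S), wpath P (fun _ _ => 1) t m k s = (P ^ m) s t := by
  induction m with
  | zero =>
    intro k s
    rw [wpath, pow_zero, Matrix.one_apply]
  | succ m ih =>
    intro k s
    rw [wpath, pow_succ', Matrix.mul_apply, one_mul]
    exact Finset.sum_congr rfl fun z _ => by rw [ih]

theorem wpath_pin (P : Matrix S S ℚ) (D : ℕ → S → ℚ) (t x : S) (v u : ℕ) :
    ∀ (k : ℕ) (s : S), wpath P (pin (k + u) x D) t (u + (v + 1)) k s =
      wpath P D x u k s * wpath P D t (v + 1) (k + u) x := by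
  induction u with
  | zero =>
    intro k s
    rw [Nat.zero_add, Nat.add_zero, wpath, wpath]
    have h1 : ∀ z, wpath P (pin k x D) t v (k + 1) z = wpath P D t v (k + 1) z := fun z =>
      wpath_congr P _ _ t v (k + 1) (fun l h1 _ => by
        funext s'
        unfold pin
        rw [if_neg (by omega)]) z
    simp only [h1]
    by_cases hs : s = x
    · subst hs
      rw [if_pos rfl, one_mul, wpath]
      unfold pin
      rw [if_pos rfl, if_pos rfl]
    · rw [if_neg hs, zero_mul]
      unfold pin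
      rw [if_pos rfl, if_neg hs, zero_mul]
  | succ u ih =>
    intro k s
    rw [show u + 1 + (v + 1) = (u + (v + 1)) + 1 by ring, wpath, wpath]
    have h1 : pin (k + (u + 1)) x D k s = D k s := by
      unfold pin
      rw [if_neg (by omega)]
    rw [h1, show k + (u + 1) = (k + 1) + u by ring, mul_assoc]
    congr 1
    rw [Finset.sum_mul]
    refine Finset.sum_congr rfl fun z _ => ?_
    rw [ih (k + 1) z, mul_assoc]

theorem sum_path (P : Matrix S S ℚ) (D : ℕ → S → ℚ) (t : S) (m : ℕ) :
    ∀ (k : ℕ) (s : S), ∑ a : Fin (m + 1) → S, (if a 0 = s then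
      (∏ l : Fin m, (D (k + l.1) (a l.castSucc) * P (a l.castSucc) (a l.succ))) *
        (D (k + m) (a (Fin.last m)) * P (a (Fin.last m)) t) else 0) =
      wpath P D t (m + 1) k s := by
  induction m with
  | zero =>
    intro k s
    rw [wpath]
    have h1 : ∑ z, P s z * wpath P D t 0 (k + 1) z = P s t := by
      simp only [wpath]
      rw [Finset.sum_eq_single t]
      · rw [if_pos rfl, mul_one]
      · intro b _ hb
        rw [if_neg hb, mul_zero]
      · intro h
        exact absurd (Finset.mem_univ t) h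
    rw [h1, ← (Equiv.funUnique (Fin 1) S).symm.sum_comp]
    rw [Finset.sum_eq_single s]
    · simp
    · intro b _ hb
      rw [if_neg]
      exact hb
    · intro h
      exact absurd (Finset.mem_univ s) h
  | succ m ih =>
    intro k s
    rw [wpath, ← (Fin.consEquiv (fun _ : Fin (m + 2) => S)).sum_comp, Fintype.sum_prod_type,
      Finset.sum_eq_single s]
    · rw [Finset.mul_sum]
      have h1 : ∀ z, D k s * (P s z * wpath P D t (m + 1) (k + 1) z) =
          ∑ a : Fin (m + 1) → S, (if a 0 = z then D k s * (P s z *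
            ((∏ l : Fin m, (D (k + 1 + l.1) (a l.castSucc) * P (a l.castSucc) (a l.succ))) *
        (D (k + 1 + m) (a (Fin.last m)) * P (a (Fin.last m)) t))) else 0) := by
        intro z
        rw [← ih (k + 1) z, Finset.mul_sum, Finset.mul_sum]
        refine Finset.sum_congr rfl fun a _ => ?_
        split_ifs
        · rfl
        · rw [mul_zero, mul_zero]
      simp only [h1]
      rw [Finset.sum_comm]
      refine Finset.sum_congr rfl fun a _ => ?_
      rw [Finset.sum_ite_eq, if_pos (Finset.mem_univ _)]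
      rw [if_pos (by rfl)]
      rw [Fin.prod_univ_succ]
      simp only [Fin.consEquiv_apply, Fin.castSucc_zero, Fin.cons_zero, Fin.cons_succ,
        ← Fin.succ_castSucc, ← Fin.succ_last, Fin.val_succ, Fin.val_zero]
      rw [mul_assoc, mul_assoc]
      have h2 : ∀ l : Fin m, k + (l.1 + 1) = k + 1 + l.1 := fun l => by ring
      simp only [h2, Nat.add_zero, show k + (m + 1) = k + 1 + m by ring]
    · intro b _ hb
      refine Finset.sum_eq_zero fun a _ => ?_
      rw [if_neg]
      exact hb
    · intro h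
      exact absurd (Finset.mem_univ s) h

theorem cw_eq (P : Matrix S S ℚ) {n : ℕ} (a : Fin (n + 1) → S) :
    cw P a = (∏ l : Fin n, P (a l.castSucc) (a l.succ)) * P (a (Fin.last n)) (a 0) := by
  unfold cw
  rw [Fin.prod_univ_castSucc]
  simp only [Fin.coeSucc_eq_succ, Fin.last_add_one]

theorem sum_cw (P : Matrix S S ℚ) {n : ℕ} (D : ℕ → S → ℚ) (g : S) :
    ∑ a : Fin (n + 1) → S, (if a 0 = g then (∏ l : Fin (n + 1), D l.1 (a l)) * cw P a else 0) =
      wpath P D g (n + 1) 0 g := by
  rw [← sum_path]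
  refine Finset.sum_congr rfl fun a _ => ?_
  split_ifs with h
  · rw [cw_eq, Fin.prod_univ_castSucc, Finset.prod_mul_distrib, h]
    simp only [Nat.zero_add, Fin.val_castSucc, Fin.val_last]
    ring
  · rfl

theorem prod_pin {n : ℕ} (D : ℕ → S → ℚ) (p : Fin (n + 1)) (x : S) (a : Fin (n + 1) → S) :
    ∏ l : Fin (n + 1), pin p.1 x D l.1 (a l) =
      if a p = x then ∏ l : Fin (n + 1), D l.1 (a l) else 0 := by
  split_ifs with h
  · refine Finset.prod_congr rfl fun l _ => ?_
    unfold pin
    split_ifs with h1 h2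
    · rfl
    · exfalso
      have : l = p := Fin.ext h1
      rw [this] at h2
      exact h2 h
    · rfl
  · apply Finset.prod_eq_zero (Finset.mem_univ p)
    unfold pin
    rw [if_pos rfl, if_neg h]

theorem two_point (P : Matrix S S ℚ) {n : ℕ} (g h : S) (F : S → S → ℚ) (i j : Fin (n + 1))
    (hi : 1 ≤ i.1) (hij : i ≤ j) :
    ∑ a : Fin (n + 1) → S, (if a 0 = g ∧ a 1 = h then cw P a * F (a i) (a j) else 0) =
      P g h * ∑ x, ∑ y, (P ^ (i.1 - 1)) h x * (P ^ (j.1 - i.1)) x y * (P ^ (n + 1 - j.1)) y g *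
        F x y := by
  have hn : 1 ≤ n := by have := i.2; omega
  have h01 : ((1 : Fin (n + 1)) : ℕ) = 1 := by
    rw [Fin.val_one']
    exact Nat.mod_eq_of_lt (by omega)
  have hij' : i.1 ≤ j.1 := hij
  have hjn : j.1 < n + 1 := j.2
  have key : ∀ x y : S, ∑ a : Fin (n + 1) → S,
      (if a 0 = g ∧ a 1 = h ∧ a i = x ∧ a j = y then cw P a else 0) =
      P g h * ((P ^ (i.1 - 1)) h x * (P ^ (j.1 - i.1)) x y * (P ^ (n + 1 - j.1)) y g) := by
    intro x y
    have e0 : ∑ a : Fin (n + 1) → S,
        (if a 0 = g ∧ a 1 = h ∧ a i = x ∧ a j = y then cw P a else 0) =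
        wpath P (pin 1 h (pin i.1 x (pin j.1 y fun _ _ => 1))) g (n + 1) 0 g := by
      rw [← sum_cw]
      refine Finset.sum_congr rfl fun a _ => ?_
      have e1 := prod_pin (pin i.1 x (pin j.1 y fun _ _ => (1 : ℚ))) 1 h a
      rw [h01] at e1
      rw [e1, prod_pin, prod_pin, Finset.prod_const_one]
      by_cases c0 : a 0 = g
      · by_cases c1 : a 1 = h
        · by_cases c2 : a i = x
          · by_cases c3 : a j = y
            · rw [if_pos ⟨c0, c1, c2, c3⟩, if_pos c0, if_pos c1, if_pos c2, if_pos c3, one_mul]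
            · rw [if_neg (fun h => c3 h.2.2.2), if_pos c0, if_pos c1, if_pos c2, if_neg c3,
                zero_mul]
          · rw [if_neg (fun h => c2 h.2.2.1), if_pos c0, if_pos c1, if_neg c2, zero_mul]
        · rw [if_neg (fun h => c1 h.2.1), if_pos c0, if_neg c1, zero_mul]
      · rw [if_neg (fun h => c0 h.1), if_neg c0]
    rw [e0]
    have s1 := wpath_pin P (pin i.1 x (pin j.1 y fun _ _ => 1)) g h (n - 1) 1 0 g
    rw [show 0 + 1 = 1 from rfl, show 1 + (n - 1 + 1) = n + 1 by omega,
      show n - 1 + 1 = n by omega] at s1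
    have s1' : wpath P (pin i.1 x (pin j.1 y fun _ _ => 1)) h 1 0 g = P g h := by
      rw [wpath_congr P _ (fun _ _ => 1) h 1 0 ?_ g, wpath_one, pow_one]
      intro l _ h2
      funext s
      unfold pin
      rw [if_neg (by omega), if_neg (by omega)]
    have s2 := wpath_pin P (pin j.1 y fun _ _ => 1) g x (n - i.1) (i.1 - 1) 1 h
    rw [show 1 + (i.1 - 1) = i.1 by omega, show i.1 - 1 + (n - i.1 + 1) = n by omega] at s2
    have s2' : wpath P (pin j.1 y fun _ _ => 1) x (i.1 - 1) 1 h = (P ^ (i.1 - 1)) h x := by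
      rw [wpath_congr P _ (fun _ _ => 1) x (i.1 - 1) 1 ?_ h, wpath_one]
      intro l _ h2
      funext s
      unfold pin
      rw [if_neg (by omega)]
    have s3 := wpath_pin P (fun _ _ => 1) g y (n - j.1) (j.1 - i.1) i.1 x
    rw [show i.1 + (j.1 - i.1) = j.1 by omega,
      show j.1 - i.1 + (n - j.1 + 1) = n - i.1 + 1 by omega, wpath_one, wpath_one,
      show n - j.1 + 1 = n + 1 - j.1 by omega] at s3
    rw [s1, s1', s2, s2', s3]
    ring
  have e2 : ∀ a : Fin (n + 1) → S, (if a 0 = g ∧ a 1 = h then cw P a * F (a i) (a j) else 0) =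
      ∑ x, ∑ y, F x y * (if a 0 = g ∧ a 1 = h ∧ a i = x ∧ a j = y then cw P a else 0) := by
    intro a
    rw [Finset.sum_eq_single (a i), Finset.sum_eq_single (a j)]
    · by_cases c : a 0 = g ∧ a 1 = h
      · rw [if_pos c, if_pos ⟨c.1, c.2, rfl, rfl⟩, mul_comm]
      · rw [if_neg c, if_neg (fun h => c ⟨h.1, h.2.1⟩), mul_zero]
    · intro b _ hb
      rw [if_neg (fun h => hb h.2.2.2.symm), mul_zero]
    · intro h'
      exact absurd (Finset.mem_univ _) h'
    · intro b _ hb
      refine Finset.sum_eq_zero fun c _ => ?_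
      rw [if_neg (fun h => hb h.2.2.1.symm), mul_zero]
    · intro h'
      exact absurd (Finset.mem_univ _) h'
  simp only [e2]
  rw [Finset.sum_comm, Finset.mul_sum]
  refine Finset.sum_congr rfl fun x _ => ?_
  rw [Finset.sum_comm, Finset.mul_sum]
  refine Finset.sum_congr rfl fun y _ => ?_
  rw [← Finset.mul_sum, key]
  ring

theorem cw_rot (P : Matrix S S ℚ) {n : ℕ} (a : Fin (n + 1) → S) :
    cw P (fun i => a (i + 1)) = cw P a := by
  unfold cw
  exact Equiv.prod_comp (Equiv.addRight (1 : Fin (n + 1))) (fun i => P (a i) (a (i + 1)))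

theorem sum_rot {n : ℕ} (G : (Fin (n + 1) → S) → ℚ) (k : Fin (n + 1)) :
    ∑ a : Fin (n + 1) → S, G (fun i => a (i + k)) = ∑ a : Fin (n + 1) → S, G a :=
  ((Equiv.addRight k).symm.arrowCongr (Equiv.refl S)).sum_comp G

end Pool.Agent.Lib.MP_95bb8c_al.PS
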