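import Pool.Agent.Lib.MP_95bb8c_al.PS.Basic
import Pool.Agent.Lib.MP_95bb8c_al.PS.TwoPoint
import Pool.Agent.Lib.MP_95bb8c_al.PS.Collide
import Pool.Agent.Lib.MP_95bb8c_al.PS.Inverse
import Pool.Agent.Lib.MP_95bb8c_al.OE.Exact

set_option autoImplicit false
set_option linter.unusedSectionVars false

/-!
# Pseudorandom Whitehead graphs: the exact law on simple closed sequences (P7)

The simple closed sequences with the weights `Z / (2 (n + 1)) * cw` cover every pair up to the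
relative error `γ + (n + 1) ^ 2 ε`; the approximate inverse (P5) corrects the error up to the factor
`1 / 2`, iterate and use `exact_of_approx`.
-/

namespace Pool.Agent.Lib.MP_95bb8c_al.PS

open Finset Matrix

variable {S V : Type} [Fintype S] [DecidableEq S] [DecidableEq V]

/-- a function invariant under the rotation by one step is invariant under all rotations -/
theorem p7_rot {n : ℕ} (w : (Fin (n + 1) → S) → ℚ) (hw : ∀ a, w (fun i => a (i + 1)) = w a)
    (a : Fin (n + 1) → S) (k : Fin (n + 1)) : w (fun i => a (i + k)) = w a := by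
  induction k using Fin.induction generalizing a with
  | zero => simp
  | succ k ih =>
    have h1 := ih (fun i => a (i + 1))
    rw [hw] at h1
    rw [← h1]
    congr 1
    funext i
    rw [add_assoc, Fin.coeSucc_eq_succ]

namespace Chain

/-- the base weight of a closed sequence: zero if it is not simple -/
def p7w (C : Chain S V) {n : ℕ} (a : Fin (n + 1) → S) : ℚ :=
  if Function.Injective (fun i => C.tl (a i)) then C.Z / (2 * (n + 1)) * cw C.P a else 0

/-- the coverage of the pair `g, h` by the weights `p7w * φ` -/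
def p7cov (C : Chain S V) {n : ℕ} (φ : (Fin (n + 1) → S) → ℚ) (g h : S) : ℚ :=
  ∑ a, C.p7w a * φ a * cnt C a g h

theorem p7_cnt_symm (C : Chain S V) {n : ℕ} (a : Fin (n + 1) → S) (g h : S) :
    cnt C a (C.rv h) (C.rv g) = cnt C a g h := by
  unfold cnt
  refine sum_congr rfl fun i _ => ?_
  rw [C.rv_rv, C.rv_rv, add_comm]

theorem p7_cnt_row (C : Chain S V) {n : ℕ} (a : Fin (n + 1) → S) (g : S) :
    ∑ h, cnt C a g h = ∑ i, (if a i = g then (1 : ℚ) else 0) +
      ∑ i, (if a i = C.rv g then (1 : ℚ) else 0) := by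
  have hshift : ∑ i : Fin (n + 1), (if a (i + 1) = C.rv g then (1 : ℚ) else 0) =
      ∑ i, (if a i = C.rv g then (1 : ℚ) else 0) :=
    Fintype.sum_equiv (Equiv.addRight (1 : Fin (n + 1))) _ _ fun i => rfl
  rw [← hshift, ← sum_add_distrib]
  unfold cnt
  rw [sum_comm]
  refine sum_congr rfl fun i _ => ?_
  rw [sum_add_distrib]
  congr 1
  · by_cases h1 : a i = g
    · simp [h1]
    · simp [h1]
  · by_cases h1 : a (i + 1) = C.rv g
    · have : ∀ h, (a i = C.rv h) ↔ (C.rv (a i) = h) := by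
        intro h
        constructor
        · intro h2; rw [h2, C.rv_rv]
        · intro h2; rw [← h2, C.rv_rv]
      simp [h1, this]
    · simp [h1]

theorem p7_cov_symm (C : Chain S V) {n : ℕ} (φ : (Fin (n + 1) → S) → ℚ) (g h : S) :
    C.p7cov φ (C.rv h) (C.rv g) = C.p7cov φ g h := by
  unfold p7cov
  exact sum_congr rfl fun a _ => by rw [C.p7_cnt_symm]

theorem p7_cov_row (C : Chain S V) {n : ℕ} (φ : (Fin (n + 1) → S) → ℚ) (g : S) :
    ∑ h, C.p7cov φ (C.rv g) h = ∑ h, C.p7cov φ g h := by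
  unfold p7cov
  rw [sum_comm, sum_comm (γ := S)]
  refine sum_congr rfl fun a _ => ?_
  rw [← mul_sum, ← mul_sum, C.p7_cnt_row, C.p7_cnt_row, C.rv_rv, add_comm]

theorem p7_w0_rot (C : Chain S V) {n : ℕ} (a : Fin (n + 1) → S) :
    C.p7w (fun i => a (i + 1)) = C.p7w a := by
  have h1 : Function.Injective (fun i : Fin (n + 1) => C.tl (a (i + 1))) ↔
      Function.Injective (fun i => C.tl (a i)) :=
    (Equiv.addRight (1 : Fin (n + 1))).injective_comp (fun i => C.tl (a i))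
  unfold p7w
  rw [cw_rot]
  simp only [h1]

theorem p7_cw_nonneg (C : Chain S V) {n : ℕ} (a : Fin (n + 1) → S) : 0 ≤ cw C.P a :=
  prod_nonneg fun _ _ => C.P_nonneg _ _

theorem p7_Z_pos [Nonempty S] (C : Chain S V) : 0 < C.Z :=
  sum_pos (fun a _ => C.s_pos a) univ_nonempty

theorem p7_w0_nonneg [Nonempty S] (C : Chain S V) {n : ℕ} (a : Fin (n + 1) → S) : 0 ≤ C.p7w a := by
  unfold p7w
  split_ifs
  · have := C.p7_Z_pos
    have := C.p7_cw_nonneg a
    positivity
  · exact le_rfl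

/-- the coverage by a rotation invariant density, at the place `0` -/
theorem p7_cov_eq (C : Chain S V) {n : ℕ} (φ : (Fin (n + 1) → S) → ℚ)
    (hφ : ∀ a, φ (fun i => a (i + 1)) = φ a) (g h : S) :
    C.p7cov φ g h = 1 / 2 * (C.Z * ∑ a : Fin (n + 1) → S, (if a 0 = g ∧ a 1 = h then
        (if Function.Injective (fun i => C.tl (a i)) then cw C.P a * φ a else 0) else 0) +
      C.Z * ∑ a : Fin (n + 1) → S, (if a 0 = C.rv h ∧ a 1 = C.rv g then
        (if Function.Injective (fun i => C.tl (a i)) then cw C.P a * φ a else 0) else 0)) := by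
  have hN : ((n : ℚ) + 1) ≠ 0 := by positivity
  have hw : ∀ a : Fin (n + 1) → S, ∀ k, C.p7w (fun i => a (i + k)) * φ (fun i => a (i + k)) =
      C.p7w a * φ a := fun a k =>
    p7_rot (fun a => C.p7w a * φ a) (fun a => by rw [C.p7_w0_rot, hφ]) a k
  have hplace : ∀ (g h : S) (k : Fin (n + 1)),
      ∑ a : Fin (n + 1) → S, C.p7w a * φ a * (if a k = g ∧ a (k + 1) = h then (1 : ℚ) else 0) =
        ∑ a : Fin (n + 1) → S, C.p7w a * φ a * (if a 0 = g ∧ a 1 = h then (1 : ℚ) else 0) := by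
    intro g h k
    rw [← sum_rot (fun a : Fin (n + 1) → S => C.p7w a * φ a *
      (if a 0 = g ∧ a 1 = h then (1 : ℚ) else 0)) k]
    refine sum_congr rfl fun a _ => ?_
    show _ = C.p7w (fun i => a (i + k)) * φ (fun i => a (i + k)) *
      (if a (0 + k) = g ∧ a (1 + k) = h then (1 : ℚ) else 0)
    rw [hw, zero_add, add_comm 1 k]
  have hz : ∀ g h : S, ∑ a : Fin (n + 1) → S, C.p7w a * φ a *
      (if a 0 = g ∧ a 1 = h then (1 : ℚ) else 0) = 1 / (2 * (n + 1)) *
      (C.Z * ∑ a : Fin (n + 1) → S, (if a 0 = g ∧ a 1 = h then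
        (if Function.Injective (fun i => C.tl (a i)) then cw C.P a * φ a else 0) else 0)) := by
    intro g h
    rw [mul_sum, mul_sum]
    refine sum_congr rfl fun a _ => ?_
    unfold p7w
    split_ifs
    · field_simp
    · simp
    · simp
    · simp
  unfold p7cov cnt
  have e1 : ∀ a : Fin (n + 1) → S, C.p7w a * φ a * ∑ i, ((if a i = g ∧ a (i + 1) = h then (1 : ℚ)
      else 0) + (if a i = C.rv h ∧ a (i + 1) = C.rv g then 1 else 0)) =
      ∑ i, (C.p7w a * φ a * (if a i = g ∧ a (i + 1) = h then (1 : ℚ) else 0) +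
        C.p7w a * φ a * (if a i = C.rv h ∧ a (i + 1) = C.rv g then (1 : ℚ) else 0)) := by
    intro a
    rw [mul_sum]
    exact sum_congr rfl fun i _ => by rw [mul_add]
  rw [sum_congr rfl fun a _ => e1 a, sum_comm]
  simp only [sum_add_distrib]
  rw [sum_congr rfl fun i _ => hplace g h i, sum_congr rfl fun i _ => hplace (C.rv h) (C.rv g) i,
    hz, hz]
  simp only [sum_const, card_univ, Fintype.card_fin, nsmul_eq_mul]
  push_cast
  field_simp
  try ring

/-- the part of the not simple sequences -/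
theorem p7_nonsimple (C : Chain S V) (T : ℕ) (γ ε : ℚ) (hγ1 : γ ≤ 1) (hmix : C.Mix T γ)
    (hε : 0 ≤ ε) (hstep : C.Step ε) (n : ℕ) (hn : 3 * T + 3 ≤ n)
    (φ : (Fin (n + 1) → S) → ℚ) (F : ℚ) (hF : ∀ a, |φ a| ≤ F) (hZ : 0 ≤ C.Z) (g h : S) :
    |C.Z * ∑ a : Fin (n + 1) → S, (if a 0 = g ∧ a 1 = h then
        (if Function.Injective (fun i => C.tl (a i)) then cw C.P a * φ a else 0) else 0) -
      C.Z * ∑ a : Fin (n + 1) → S, (if a 0 = g ∧ a 1 = h then cw C.P a * φ a else 0)| ≤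
      F * ((n + 1) ^ 2 * ε * C.Q g h) := by
  have hF0 : ∀ a, φ a ≤ F ∧ -F ≤ φ a := fun a => ⟨(abs_le.1 (hF a)).2, (abs_le.1 (hF a)).1⟩
  have hc := C.collide T γ ε hγ1 hmix hε hstep n hn g h
  rw [← mul_sub, ← sum_sub_distrib, abs_mul, abs_of_nonneg hZ]
  have h1 : |∑ a : Fin (n + 1) → S, ((if a 0 = g ∧ a 1 = h then
        (if Function.Injective (fun i => C.tl (a i)) then cw C.P a * φ a else 0) else 0) -
      (if a 0 = g ∧ a 1 = h then cw C.P a * φ a else 0))| ≤
      ∑ a : Fin (n + 1) → S, F * (if a 0 = g ∧ a 1 = h ∧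
        ¬ Function.Injective (fun i => C.tl (a i)) then cw C.P a else 0) := by
    refine (abs_sum_le_sum_abs _ _).trans (sum_le_sum fun a _ => ?_)
    by_cases h2 : a 0 = g ∧ a 1 = h
    · by_cases h3 : Function.Injective (fun i => C.tl (a i))
      · simp [h2, h3]
      · have h4 : |φ a| * cw C.P a ≤ F * cw C.P a :=
          mul_le_mul_of_nonneg_right (hF a) (C.p7_cw_nonneg a)
        simp only [h2.1, h2.2, h3, and_self, if_true, if_false, not_false_eq_true, zero_sub,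
          abs_neg, abs_mul, abs_of_nonneg (C.p7_cw_nonneg a)]
        rw [mul_comm]
        exact h4
    · have h5 : ¬ (a 0 = g ∧ a 1 = h ∧ ¬ Function.Injective (fun i => C.tl (a i))) :=
        fun h6 => h2 ⟨h6.1, h6.2.1⟩
      simp [h2, h5]
  rw [← mul_sum] at h1
  calc C.Z * |_| ≤ C.Z * (F * ∑ a : Fin (n + 1) → S, (if a 0 = g ∧ a 1 = h ∧
        ¬ Function.Injective (fun i => C.tl (a i)) then cw C.P a else 0)) :=
        mul_le_mul_of_nonneg_left h1 hZ
    _ = F * (C.Z * ∑ a : Fin (n + 1) → S, (if a 0 = g ∧ a 1 = h ∧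
        ¬ Function.Injective (fun i => C.tl (a i)) then cw C.P a else 0)) := by ring
    _ ≤ F * ((n + 1) ^ 2 * ε * C.Q g h) := by
        by_cases hne : Nonempty (Fin (n + 1) → S)
        · obtain ⟨a⟩ := hne
          exact mul_le_mul_of_nonneg_left hc ((abs_nonneg _).trans (hF a))
        · exact absurd ⟨fun _ => g⟩ hne

/-- the coverage by the base weights -/
theorem p7_base [Nonempty S] (C : Chain S V) (T : ℕ) (γ ε : ℚ) (hγ : 0 ≤ γ) (hγ1 : γ ≤ 1)
    (hmix : C.Mix T γ) (hε : 0 ≤ ε) (hstep : C.Step ε) (n : ℕ) (hn : 3 * T + 3 ≤ n) (g h : S) :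
    |C.Q g h - C.p7cov (n := n) (fun _ => 1) g h| ≤ (γ + (n + 1) ^ 2 * ε) * C.Q g h := by
  have hZ := C.p7_Z_pos
  have key : ∀ g h : S, |C.Z * ∑ a : Fin (n + 1) → S, (if a 0 = g ∧ a 1 = h then
      (if Function.Injective (fun i => C.tl (a i)) then cw C.P a * 1 else 0) else 0) -
      C.Q g h| ≤ (γ + (n + 1) ^ 2 * ε) * C.Q g h := by
    intro g h
    have h1 := C.p7_nonsimple T γ ε hγ1 hmix hε hstep n hn (fun _ => 1) 1
      (fun _ => by simp) hZ.le g h
    have h2 : |C.Z * ∑ a : Fin (n + 1) → S, (if a 0 = g ∧ a 1 = h then cw C.P a * 1 else 0) -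
        C.Q g h| ≤ γ * C.Q g h := by
      have h3 := two_point (n := n) C.P g h (fun _ _ => 1) 1 1 (by
        show 1 ≤ ((1 : Fin (n + 1)) : ℕ)
        rw [Fin.val_one']
        rw [Nat.mod_eq_of_lt (by omega)]) le_rfl
      have hv : ((1 : Fin (n + 1)) : ℕ) = 1 := by
        rw [Fin.val_one', Nat.mod_eq_of_lt (by omega)]
      rw [h3, hv]
      have h4 : ∑ x, ∑ y, (C.P ^ (1 - 1)) h x * (C.P ^ (1 - 1)) x y * (C.P ^ (n + 1 - 1)) y g *
          (1 : ℚ) = (C.P ^ n) h g := by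
        simp [Matrix.one_apply]
      rw [h4]
      have h5 := hmix n (by omega) h g
      have h6 := C.Q_eq g h
      have h7 : C.Z * (C.P g h * (C.P ^ n) h g) - C.Q g h =
          C.Z * C.P g h * ((C.P ^ n) h g - C.pi g) := by
        rw [← h6]; ring
      rw [h7, abs_mul, abs_of_nonneg (mul_nonneg hZ.le (C.P_nonneg g h))]
      calc C.Z * C.P g h * |(C.P ^ n) h g - C.pi g| ≤ C.Z * C.P g h * (γ * C.pi g) :=
            mul_le_mul_of_nonneg_left h5 (mul_nonneg hZ.le (C.P_nonneg g h))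
        _ = γ * C.Q g h := by rw [← h6]; ring
    calc _ = |(C.Z * ∑ a : Fin (n + 1) → S, (if a 0 = g ∧ a 1 = h then
          (if Function.Injective (fun i => C.tl (a i)) then cw C.P a * 1 else 0) else 0) -
          C.Z * ∑ a : Fin (n + 1) → S, (if a 0 = g ∧ a 1 = h then cw C.P a * 1 else 0)) +
          (C.Z * ∑ a : Fin (n + 1) → S, (if a 0 = g ∧ a 1 = h then cw C.P a * 1 else 0) -
          C.Q g h)| := by congr 1; ring
      _ ≤ _ := (abs_add_le _ _).trans (add_le_add h1 h2)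
      _ = _ := by ring
  rw [C.p7_cov_eq (fun _ => 1) (fun _ => rfl)]
  have k1 := key g h
  have k2 := key (C.rv h) (C.rv g)
  rw [C.Q_rv] at k2
  rw [abs_le] at k1 k2 ⊢
  constructor <;> linarith [k1.1, k1.2, k2.1, k2.2]

/-- one step of the iteration -/
theorem p7_step [Nonempty S] (C : Chain S V) (T : ℕ) (γ β ε : ℚ) (hγ : 0 ≤ γ)
    (hmix : C.Mix T γ) (hβ : 0 < β) (hβ1 : β ≤ 1) (hov : C.Over β) (hε : 0 ≤ ε)
    (hstep : C.Step ε) (n : ℕ) (hn : 3 * T + 3 ≤ n) (h1 : 80 * (n + 1) * γ ≤ β)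
    (h2 : 56 * (n + 1) ^ 3 * ε ≤ β) (e : S → S → ℚ) (δ : ℚ) (hδ : 0 ≤ δ) (he : C.Err e δ) :
    ∃ φ : (Fin (n + 1) → S) → ℚ, (∀ a, |φ a| ≤ 14 * (n + 1) / β * δ) ∧
      (∀ a, φ (fun i => a (i + 1)) = φ a) ∧
      ∀ g h, |C.p7cov φ g h - e g h| ≤ 1 / 2 * δ * C.Q g h := by
  have hN : (0 : ℚ) < n + 1 := by positivity
  have hZ := C.p7_Z_pos
  have hγ1 : γ ≤ 1 := by
    have : (1 : ℚ) ≤ n + 1 := by
      have : (0 : ℚ) ≤ n := by positivity
      linarith
    nlinarith
  obtain ⟨φ, hφ, hrot, hφe⟩ := C.approx_inverse T γ β hγ hmix hβ hβ1 hov n (by omega) e δ hδ he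
  refine ⟨φ, hφ, hrot, fun g h => ?_⟩
  have hA : 20 * (n + 1) * γ / β ≤ 1 / 4 := by
    rw [div_le_iff₀ hβ]
    linarith
  have hB : 14 * (n + 1) / β * ((n + 1) ^ 2 * ε) ≤ 1 / 4 := by
    have : 14 * ((n : ℚ) + 1) / β * ((n + 1) ^ 2 * ε) = 14 * (n + 1) ^ 3 * ε / β := by
      field_simp
    rw [this, div_le_iff₀ hβ]
    linarith
  have key : ∀ g h : S, |C.Z * ∑ a : Fin (n + 1) → S, (if a 0 = g ∧ a 1 = h then
      (if Function.Injective (fun i => C.tl (a i)) then cw C.P a * φ a else 0) else 0) -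
      e g h| ≤ 1 / 2 * δ * C.Q g h := by
    intro g h
    have k1 := C.p7_nonsimple T γ ε hγ1 hmix hε hstep n hn φ _ hφ hZ.le g h
    have k2 := hφe g h
    have hq := C.Q_nonneg g h
    have k3 : 20 * (n + 1) * γ / β * δ * C.Q g h ≤ 1 / 4 * (δ * C.Q g h) := by
      rw [mul_assoc]
      exact mul_le_mul_of_nonneg_right hA (mul_nonneg hδ hq)
    have k4 : 14 * (n + 1) / β * δ * ((n + 1) ^ 2 * ε * C.Q g h) ≤ 1 / 4 * (δ * C.Q g h) := by
      calc 14 * (n + 1) / β * δ * ((n + 1) ^ 2 * ε * C.Q g h) =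
          14 * (n + 1) / β * ((n + 1) ^ 2 * ε) * (δ * C.Q g h) := by ring
        _ ≤ _ := mul_le_mul_of_nonneg_right hB (mul_nonneg hδ hq)
    calc _ = |(C.Z * ∑ a : Fin (n + 1) → S, (if a 0 = g ∧ a 1 = h then
          (if Function.Injective (fun i => C.tl (a i)) then cw C.P a * φ a else 0) else 0) -
          C.Z * ∑ a : Fin (n + 1) → S, (if a 0 = g ∧ a 1 = h then cw C.P a * φ a else 0)) +
          (C.Z * ∑ a : Fin (n + 1) → S, (if a 0 = g ∧ a 1 = h then cw C.P a * φ a else 0) -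
          e g h)| := by congr 1; ring
      _ ≤ _ := (abs_add_le _ _).trans (add_le_add k1 k2)
      _ ≤ _ := by linarith
  rw [C.p7_cov_eq φ hrot]
  have k1 := key g h
  have k2 := key (C.rv h) (C.rv g)
  rw [C.Q_rv, he.1 g h] at k2
  rw [abs_le] at k1 k2 ⊢
  constructor <;> linarith [k1.1, k1.2, k2.1, k2.2]

/-- the error of a density is admissible -/
theorem p7_err (C : Chain S V) {n : ℕ} (φ : (Fin (n + 1) → S) → ℚ) (δ : ℚ)
    (h : ∀ g h, |C.Q g h - C.p7cov φ g h| ≤ δ * C.Q g h) :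
    C.Err (fun g h => C.Q g h - C.p7cov φ g h) δ := by
  refine ⟨fun a b => ?_, fun a => ?_, h⟩
  · show C.Q (C.rv b) (C.rv a) - C.p7cov φ (C.rv b) (C.rv a) = C.Q a b - C.p7cov φ a b
    rw [C.Q_rv, C.p7_cov_symm]
  · rw [sum_sub_distrib, sum_sub_distrib, C.row, C.row, C.s_rv, C.p7_cov_row]

theorem p7_cov_add (C : Chain S V) {n : ℕ} (φ ψ : (Fin (n + 1) → S) → ℚ) (g h : S) :
    C.p7cov (fun a => φ a + ψ a) g h = C.p7cov φ g h + C.p7cov ψ g h := by
  unfold p7cov
  rw [← sum_add_distrib]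
  exact sum_congr rfl fun a _ => by ring

/-- the iteration -/
theorem p7_iter [Nonempty S] (C : Chain S V) (T : ℕ) (γ β ε : ℚ) (hγ : 0 ≤ γ)
    (hmix : C.Mix T γ) (hβ : 0 < β) (hβ1 : β ≤ 1) (hov : C.Over β) (hε : 0 ≤ ε)
    (hstep : C.Step ε) (n : ℕ) (hn : 3 * T + 3 ≤ n) (h1 : 80 * (n + 1) * γ ≤ β)
    (h2 : 56 * (n + 1) ^ 3 * ε ≤ β) (k : ℕ) :
    ∃ φ : (Fin (n + 1) → S) → ℚ,
      (∀ a, |φ a - 1| ≤ 28 * (n + 1) / β * (γ + (n + 1) ^ 2 * ε) * (1 - (1 / 2) ^ k)) ∧
      ∀ g h, |C.Q g h - C.p7cov φ g h| ≤ (1 / 2) ^ k * (γ + (n + 1) ^ 2 * ε) * C.Q g h := by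
  have hN : (0 : ℚ) < n + 1 := by positivity
  have hγ1 : γ ≤ 1 := by
    have : (1 : ℚ) ≤ n + 1 := by
      have : (0 : ℚ) ≤ n := by positivity
      linarith
    nlinarith
  set δ : ℚ := γ + (n + 1) ^ 2 * ε with hδ
  have hδ0 : 0 ≤ δ := by positivity
  induction k with
  | zero =>
    refine ⟨fun _ => 1, fun a => by simp, fun g h => ?_⟩
    rw [pow_zero, one_mul]
    exact C.p7_base T γ ε hγ hγ1 hmix hε hstep n hn g h
  | succ k ih =>
    obtain ⟨φ, hφ, hφc⟩ := ih
    obtain ⟨ψ, hψ, hrot, hψe⟩ := C.p7_step T γ β ε hγ hmix hβ hβ1 hov hε hstep n hn h1 h2 _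
      ((1 / 2) ^ k * δ) (by positivity) (C.p7_err φ _ hφc)
    refine ⟨fun a => φ a + ψ a, fun a => ?_, fun g h => ?_⟩
    · have e1 : φ a + ψ a - 1 = (φ a - 1) + ψ a := by ring
      rw [e1]
      refine (abs_add_le _ _).trans ((add_le_add (hφ a) (hψ a)).trans (le_of_eq ?_))
      rw [pow_succ]
      ring
    · rw [C.p7_cov_add]
      have e2 : C.Q g h - (C.p7cov φ g h + C.p7cov ψ g h) =
          -(C.p7cov ψ g h - (C.Q g h - C.p7cov φ g h)) := by ring
      rw [e2, abs_neg]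
      refine (hψe g h).trans (le_of_eq ?_)
      rw [pow_succ]
      ring

theorem exact_law [Nonempty S] (C : Chain S V) (T : ℕ) (γ β ε : ℚ) (hγ : 0 ≤ γ)
    (hmix : C.Mix T γ) (hβ : 0 < β) (hβ1 : β ≤ 1) (hov : C.Over β) (hε : 0 ≤ ε)
    (hstep : C.Step ε) (n : ℕ) (hn : 3 * T + 3 ≤ n) (h1 : 80 * (n + 1) * γ ≤ β)
    (h2 : 56 * (n + 1) ^ 3 * ε ≤ β) :
    ∃ W : (Fin (n + 1) → S) → ℚ, (∀ a, 0 ≤ W a) ∧
      (∀ a, W a ≠ 0 → Function.Injective (fun i => C.tl (a i)) ∧
        ∀ i, C.tl (a (i + 1)) = C.tl (C.rv (a i))) ∧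
      ∀ g h, C.Q g h ≠ 0 → ∑ a, W a * cnt C a g h = C.Q g h := by
  classical
  have hN : (0 : ℚ) < n + 1 := by positivity
  have hZ := C.p7_Z_pos
  set δ : ℚ := γ + (n + 1) ^ 2 * ε with hδ
  have hδ0 : 0 ≤ δ := by positivity
  have hsmall : 28 * (n + 1) / β * δ ≤ 1 := by
    have e1 : 28 * ((n : ℚ) + 1) / β * δ = (28 * (n + 1) * γ + 28 * (n + 1) ^ 3 * ε) / β := by
      rw [hδ]; field_simp
    rw [e1, div_le_one hβ]
    linarith
  -- the good sequences
  let Good : (Fin (n + 1) → S) → Prop := fun a => Function.Injective (fun i => C.tl (a i)) ∧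
        ∀ i, C.tl (a (i + 1)) = C.tl (C.rv (a i))
  have hbad : ∀ a, ¬ Good a → C.p7w a = 0 := by
    intro a ha
    unfold p7w
    split_ifs with h3
    · have h4 : ∃ i, C.tl (a (i + 1)) ≠ C.tl (C.rv (a i)) := by
        by_contra h5
        push Not at h5
        exact ha ⟨h3, h5⟩
      obtain ⟨i, hi⟩ := h4
      have h5 : C.P (a i) (a (i + 1)) = 0 := by
        have h6 : C.Q (a i) (a (i + 1)) = 0 := by
          by_contra h7
          exact hi ((C.Q_ne _ _).1 h7).1
        show C.Q (a i) (a (i + 1)) / C.s (a i) = 0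
        rw [h6, zero_div]
      have h6 : cw C.P a = 0 := prod_eq_zero (mem_univ i) h5
      rw [h6, mul_zero]
    · rfl
  let A : S × S → (Fin (n + 1) → S) → ℚ := fun p a => if Good a then cnt C a p.1 p.2 else 0
  obtain ⟨μ, hμ0, hμ⟩ := OE.exact_of_approx A (fun p => C.Q p.1 p.2)
    (∑ a : Fin (n + 1) → S, 2 * C.p7w a) (by
      intro η hη
      obtain ⟨k, hk⟩ : ∃ k : ℕ, (1 / 2 : ℚ) ^ k * (δ * C.Z) < η := by
        obtain ⟨k, hk⟩ := exists_pow_lt_of_lt_one (show (0 : ℚ) < η / (δ * C.Z + 1) by positivity)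
          (show (1 / 2 : ℚ) < 1 by norm_num)
        refine ⟨k, ?_⟩
        rw [lt_div_iff₀ (by positivity)] at hk
        have : (0 : ℚ) < (1 / 2) ^ k := by positivity
        linarith
      obtain ⟨φ, hφ, hφc⟩ := C.p7_iter T γ β ε hγ hmix hβ hβ1 hov hε hstep n hn h1 h2 k
      have hb : ∀ a, |φ a - 1| ≤ 1 := by
        intro a
        refine (hφ a).trans ?_
        have h3 : (0 : ℚ) < (1 / 2) ^ k := by positivity
        have h4 : (0 : ℚ) ≤ 28 * (n + 1) / β * δ := by positivity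
        have h5 : 28 * (n + 1) / β * δ * (1 - (1 / 2) ^ k) ≤ 28 * (n + 1) / β * δ * 1 :=
          mul_le_mul_of_nonneg_left (by linarith) h4
        linarith
      have hb1 : ∀ a, 0 ≤ φ a := fun a => by linarith [(abs_le.1 (hb a)).1]
      have hb2 : ∀ a, φ a ≤ 2 := fun a => by linarith [(abs_le.1 (hb a)).2]
      refine ⟨fun a => C.p7w a * φ a, fun a => mul_nonneg (C.p7_w0_nonneg a) (hb1 a), ?_, ?_⟩
      · refine sum_le_sum fun a _ => ?_
        have := mul_le_mul_of_nonneg_left (hb2 a) (C.p7_w0_nonneg a)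
        linarith
      · rintro ⟨g, h⟩
        have e1 : ∑ a, A (g, h) a * (C.p7w a * φ a) = C.p7cov φ g h := by
          unfold p7cov
          refine sum_congr rfl fun a _ => ?_
          by_cases ha : Good a
          · simp only [A, ha, if_true]; ring
          · simp only [A, ha, if_false, hbad a ha]; ring
        rw [e1]
        have e2 := hφc g h
        rw [abs_sub_comm] at e2
        refine e2.trans ?_
        have e3 : C.Q g h ≤ C.Z := by
          have e4 : C.Q g h ≤ C.s g := by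
            rw [← C.row g]
            exact single_le_sum (f := fun b => C.Q g b) (fun b _ => C.Q_nonneg g b) (mem_univ h)
          have e5 : C.s g ≤ C.Z :=
            single_le_sum (f := fun b => C.s b) (fun b _ => (C.s_pos b).le) (mem_univ g)
          exact e4.trans e5
        have e4 : (1 / 2 : ℚ) ^ k * δ * C.Q g h ≤ (1 / 2 : ℚ) ^ k * δ * C.Z :=
          mul_le_mul_of_nonneg_left e3 (by positivity)
        have e5 : (1 / 2 : ℚ) ^ k * δ * C.Z = (1 / 2 : ℚ) ^ k * (δ * C.Z) := by ring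
        linarith)
  refine ⟨fun a => if Good a then μ a else 0, fun a => ?_, fun a ha => ?_, fun g h _ => ?_⟩
  · show 0 ≤ if Good a then μ a else 0
    split_ifs
    · exact hμ0 a
    · exact le_rfl
  · by_contra hg
    exact ha (if_neg hg)
  · have := hμ (g, h)
    rw [← this]
    refine sum_congr rfl fun a _ => ?_
    by_cases ha : Good a
    · simp only [A, ha, if_true]; ring
    · simp only [A, ha, if_false]; ring

end Chain

end Pool.Agent.Lib.MP_95bb8c_al.PS
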