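import Pool.Agent.Lib.MP_95bb8c_al.PS.Defs
import Pool.Agent.Lib.MP_95bb8c_al.GW.Kappa

set_option autoImplicit false
set_option linter.unusedSectionVars false

/-!
# The chain of the weights `lam + κ` on the darts of a graph
-/

namespace Pool.Agent.Lib.MP_95bb8c_al.PS

open Finset

variable {V E : Type} [Fintype V] [DecidableEq V] [Fintype E] [DecidableEq E]

theorem p9_tl_rvd (s t : E → V) (a : E × Bool) : GW.tl s t (GW.rvd a) = GW.hd s t a := by
  obtain ⟨e, b⟩ := a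
  cases b <;> simp [GW.tl, GW.hd, GW.rvd]

theorem p9_hd_rvd (s t : E → V) (a : E × Bool) : GW.hd s t (GW.rvd a) = GW.tl s t a := by
  obtain ⟨e, b⟩ := a
  cases b <;> simp [GW.tl, GW.hd, GW.rvd]

theorem p9_tl_ne_hd {s t : E → V} (hl : ∀ e, s e ≠ t e) (a : E × Bool) :
    GW.tl s t a ≠ GW.hd s t a := by
  obtain ⟨e, b⟩ := a
  cases b
  · simpa [GW.tl, GW.hd] using (hl e).symm
  · simpa [GW.tl, GW.hd] using hl e

/-- The edge of a dart joins its tail and its head. -/
theorem p9_mem_J {s t : E → V} (hl : ∀ e, s e ≠ t e) (a : E × Bool) :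
    a.1 ∈ GW.J s t (GW.tl s t a) (GW.hd s t a) := by
  have h := p9_tl_ne_hd hl a
  unfold GW.J
  rw [Finset.mem_filter]
  refine ⟨Finset.mem_univ _, h, ?_⟩
  obtain ⟨e, b⟩ := a
  cases b
  · right
    simp [GW.tl, GW.hd]
  · left
    simp [GW.tl, GW.hd]

/-- A sum over the darts which leave `v` and do not end at `u` as a sum over the edges at `v`. -/
theorem p9_sum_darts {s t : E → V} (hl : ∀ e, s e ≠ t e) (u v : V) (F : E → ℚ) :
    ∑ b : E × Bool, (if v = GW.tl s t b ∧ u ≠ GW.hd s t b then F b.1 else 0) =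
      ∑ f ∈ cut s t {v}, (if GW.oth s t v f ≠ u then F f else 0) := by
  rw [Fintype.sum_prod_type]
  have h1 : ∑ f ∈ cut s t {v}, (if GW.oth s t v f ≠ u then F f else 0) =
      ∑ f, (if f ∈ cut s t {v} then (if GW.oth s t v f ≠ u then F f else 0) else 0) := by
    rw [Finset.sum_ite_mem, Finset.univ_inter]
  rw [h1]
  apply Finset.sum_congr rfl
  intro f _
  rw [Fintype.sum_bool]
  simp only [GW.tl, GW.hd, if_true, Bool.false_eq_true, if_false]
  by_cases h2 : s f = v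
  · have h3 : t f ≠ v := fun h => hl f (h2.trans h.symm)
    have h4 : f ∈ cut s t {v} := by rw [mem_star hl]; exact Or.inl h2
    have h5 : GW.oth s t v f = t f := if_pos h2
    rw [if_pos h4, h5]
    by_cases h6 : t f = u
    · rw [if_neg (fun h => h.2 h6.symm), if_neg (fun h => h3 h.1.symm), if_neg (fun h => h h6)]
      simp
    · rw [if_pos ⟨h2.symm, fun h => h6 h.symm⟩, if_neg (fun h => h3 h.1.symm), if_pos h6, add_zero]
  · by_cases h3 : t f = v
    · have h4 : f ∈ cut s t {v} := by rw [mem_star hl]; exact Or.inr h3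
      have h5 : GW.oth s t v f = s f := if_neg h2
      rw [if_pos h4, h5]
      by_cases h6 : s f = u
      · rw [if_neg (fun h => h2 h.1.symm), if_neg (fun h => h.2 h6.symm), if_neg (fun h => h h6)]
        simp
      · rw [if_neg (fun h => h2 h.1.symm), if_pos ⟨h3.symm, fun h => h6 h.symm⟩, if_pos h6,
          zero_add]
    · have h4 : f ∉ cut s t {v} := by
        rw [mem_star hl]
        rintro (h | h)
        · exact h2 h
        · exact h3 h
      rw [if_neg h4, if_neg (fun h => h2 h.1.symm), if_neg (fun h => h3 h.1.symm), add_zero]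

/-- The row sums. -/
theorem p9_row {s t : E → V} (hl : ∀ e, s e ≠ t e) (lam : ℚ) (κ : V → E → E → ℚ)
    (hpar : ∀ u v, ∀ e ∈ GW.J s t u v, ∀ f ∈ GW.J s t u v, κ v e f = 0)
    (hrow : ∀ v, ∀ e ∈ cut s t {v}, ∑ f ∈ (cut s t {v}).erase e, (lam + κ v e f) = 1)
    {u v : V} {e : E} (he : e ∈ GW.J s t u v) :
    ∑ f ∈ cut s t {v}, (if GW.oth s t v f ≠ u then lam + κ v e f else 0) =
      1 - lam * ((GW.J s t u v).card - 1) := by
  have he1 := GW.oth_of_mem_J hl he
  have h1 := hrow v e he1.1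
  have h2 : ∑ f ∈ (cut s t {v}).erase e, (lam + κ v e f) =
      ∑ f ∈ (cut s t {v}).erase e, (if GW.oth s t v f ≠ u then lam + κ v e f else 0) +
      ∑ f ∈ (cut s t {v}).erase e, (if GW.oth s t v f = u then lam else 0) := by
    rw [← Finset.sum_add_distrib]
    apply Finset.sum_congr rfl
    intro f hf
    have hf1 := Finset.mem_of_mem_erase hf
    by_cases h3 : GW.oth s t v f = u
    · have h4 := (GW.mem_J_oth hl hf1).2
      rw [h3, GW.J_comm] at h4
      rw [if_neg (fun h => h h3), if_pos h3, hpar u v e he f h4]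
      ring
    · rw [if_pos h3, if_neg h3, add_zero]
  have h3 : ∑ f ∈ (cut s t {v}).erase e, (if GW.oth s t v f ≠ u then lam + κ v e f else 0) =
      ∑ f ∈ cut s t {v}, (if GW.oth s t v f ≠ u then lam + κ v e f else 0) := by
    rw [← Finset.add_sum_erase _ _ he1.1, if_neg (fun h => h he1.2), zero_add]
  have h4 : ∑ f ∈ (cut s t {v}).erase e, (if GW.oth s t v f = u then lam else 0) =
      lam * ((GW.J s t u v).card - 1) := by
    rw [← Finset.sum_filter, Finset.sum_const, nsmul_eq_mul]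
    have h5 : ((cut s t {v}).erase e).filter (fun f => GW.oth s t v f = u) =
        (GW.J s t u v).erase e := by
      ext f
      rw [Finset.mem_filter, Finset.mem_erase, Finset.mem_erase]
      constructor
      · rintro ⟨⟨h6, h7⟩, h8⟩
        have h9 := (GW.mem_J_oth hl h7).2
        rw [h8, GW.J_comm] at h9
        exact ⟨h6, h9⟩
      · rintro ⟨h6, h7⟩
        have h8 := GW.oth_of_mem_J hl h7
        exact ⟨⟨h6, h8.1⟩, h8.2⟩
    rw [h5, Finset.card_erase_of_mem he, Nat.cast_sub (Finset.card_pos.2 ⟨e, he⟩), Nat.cast_one]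
    ring
  rw [h2, h3, h4] at h1
  linarith

theorem exists_chain {s t : E → V} (hl : ∀ e, s e ≠ t e) (lam : ℚ) (hlam : 0 < lam)
    (κ : V → E → E → ℚ) (hκ : ∀ v e f, 0 ≤ κ v e f) (hsym : ∀ v e f, κ v e f = κ v f e)
    (hpar : ∀ u v, ∀ e ∈ GW.J s t u v, ∀ f ∈ GW.J s t u v, κ v e f = 0)
    (hrow : ∀ v, ∀ e ∈ cut s t {v}, ∑ f ∈ (cut s t {v}).erase e, (lam + κ v e f) = 1)
    (hm : ∀ u v, 2 * lam * (GW.J s t u v).card ≤ 1) :
    ∃ C : Chain (E × Bool) V, C.rv = GW.rvd ∧ C.tl = GW.tl s t ∧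
      (∀ a b, C.Q a b = if GW.hd s t a = GW.tl s t b ∧ GW.tl s t a ≠ GW.hd s t b then
        lam + κ (GW.hd s t a) a.1 b.1 else 0) ∧ ∀ a, 1 / 2 ≤ C.s a ∧ C.s a ≤ 1 := by
  let Q : E × Bool → E × Bool → ℚ := fun a b =>
    if GW.hd s t a = GW.tl s t b ∧ GW.tl s t a ≠ GW.hd s t b then
      lam + κ (GW.hd s t a) a.1 b.1 else 0
  have hs : ∀ a, ∑ b, Q a b =
      1 - lam * ((GW.J s t (GW.tl s t a) (GW.hd s t a)).card - 1) := by
    intro a
    rw [← p9_row hl lam κ hpar hrow (p9_mem_J hl a)]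
    exact p9_sum_darts hl (GW.tl s t a) (GW.hd s t a) (fun f => lam + κ (GW.hd s t a) a.1 f)
  have hsb : ∀ a, 1 / 2 ≤ ∑ b, Q a b ∧ ∑ b, Q a b ≤ 1 := by
    intro a
    rw [hs a]
    have h1 := hm (GW.tl s t a) (GW.hd s t a)
    have h2 : (1 : ℚ) ≤ (GW.J s t (GW.tl s t a) (GW.hd s t a)).card := by
      exact_mod_cast Finset.card_pos.2 ⟨a.1, p9_mem_J hl a⟩
    constructor
    · nlinarith
    · have : 0 ≤ lam * (((GW.J s t (GW.tl s t a) (GW.hd s t a)).card : ℚ) - 1) :=
        mul_nonneg hlam.le (by linarith)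
      linarith
  refine ⟨{ rv := GW.rvd, tl := GW.tl s t, Q := Q, s := fun a => ∑ b, Q a b,
            rv_rv := ?_, loopless := ?_, Q_nonneg := ?_, Q_rv := ?_, Q_ne := ?_, s_pos := ?_,
            s_rv := ?_, row := fun a => rfl }, rfl, rfl, fun a b => rfl, hsb⟩
  · rintro ⟨e, b⟩
    simp [GW.rvd]
  · intro a
    rw [p9_tl_rvd]
    exact p9_tl_ne_hd hl a
  · intro a b
    show 0 ≤ (if GW.hd s t a = GW.tl s t b ∧ GW.tl s t a ≠ GW.hd s t b then
      lam + κ (GW.hd s t a) a.1 b.1 else 0)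
    split_ifs
    · exact add_nonneg hlam.le (hκ _ _ _)
    · exact le_refl 0
  · intro a b
    show (if GW.hd s t (GW.rvd b) = GW.tl s t (GW.rvd a) ∧
        GW.tl s t (GW.rvd b) ≠ GW.hd s t (GW.rvd a) then
      lam + κ (GW.hd s t (GW.rvd b)) (GW.rvd b).1 (GW.rvd a).1 else 0) =
      (if GW.hd s t a = GW.tl s t b ∧ GW.tl s t a ≠ GW.hd s t b then
      lam + κ (GW.hd s t a) a.1 b.1 else 0)
    rw [p9_hd_rvd, p9_hd_rvd, p9_tl_rvd, p9_tl_rvd]
    by_cases h : GW.hd s t a = GW.tl s t b ∧ GW.tl s t a ≠ GW.hd s t b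
    · rw [if_pos h, if_pos ⟨h.1.symm, h.2.symm⟩, ← h.1, hsym]
      rfl
    · rw [if_neg h, if_neg (fun h' => h ⟨h'.1.symm, h'.2.symm⟩)]
  · intro a b
    show (if GW.hd s t a = GW.tl s t b ∧ GW.tl s t a ≠ GW.hd s t b then
      lam + κ (GW.hd s t a) a.1 b.1 else 0) ≠ 0 ↔ _
    rw [p9_tl_rvd, p9_tl_rvd]
    by_cases h : GW.hd s t a = GW.tl s t b ∧ GW.tl s t a ≠ GW.hd s t b
    · rw [if_pos h]
      have := hκ (GW.hd s t a) a.1 b.1
      constructor
      · intro _
        exact ⟨h.1.symm, h.2.symm⟩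
      · intro _
        linarith
    · rw [if_neg h]
      constructor
      · intro h1
        exact absurd rfl h1
      · intro h1
        exact absurd ⟨h1.1.symm, h1.2.symm⟩ h
  · intro a
    have := (hsb a).1
    show 0 < ∑ b, Q a b
    linarith
  · intro a
    show ∑ b, Q (GW.rvd a) b = ∑ b, Q a b
    rw [hs, hs, p9_tl_rvd, p9_hd_rvd, GW.J_comm]

end Pool.Agent.Lib.MP_95bb8c_al.PS
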