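import Pool.Agent.Lib.MP_95bb8c_al.PS.Exact
import Pool.Agent.Lib.MP_95bb8c_al.PS.TheChain
import Pool.Agent.Lib.MP_95bb8c_al.GW.CoverGen
import Pool.Agent.Lib.MP_95bb8c_al.GW.Closed
import Pool.Agent.Lib.MP_95bb8c_al.GW.Functional

set_option autoImplicit false
set_option linter.unusedSectionVars false

/-!
# From the exact law on closed sequences of darts to a list of cycles
-/

namespace Pool.Agent.Lib.MP_95bb8c_al.PS

open Finset

variable {V E : Type} [Fintype V] [DecidableEq V] [Fintype E] [DecidableEq E]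

private theorem p8_rvd_out {s t : E → V} (hl : ∀ e, s e ≠ t e) {v : V} {q : E}
    (hq : q ∈ cut s t {v}) : GW.rvd (GW.outD s v q) = GW.inD t v q := by
  rw [mem_star hl] at hq
  unfold GW.rvd GW.outD GW.inD
  rcases hq with h | h
  · have h1 : t q ≠ v := fun h' => hl q (h.trans h'.symm)
    simp [h, h1]
  · have h1 : s q ≠ v := fun h' => hl q (h'.trans h.symm)
    simp [h, h1]

private theorem p8_rvd_in {s t : E → V} (hl : ∀ e, s e ≠ t e) {v : V} {q : E}
    (hq : q ∈ cut s t {v}) : GW.rvd (GW.inD t v q) = GW.outD s v q := by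
  rw [mem_star hl] at hq
  unfold GW.rvd GW.outD GW.inD
  rcases hq with h | h
  · have h1 : t q ≠ v := fun h' => hl q (h.trans h'.symm)
    simp [h, h1]
  · have h1 : s q ≠ v := fun h' => hl q (h'.trans h.symm)
    simp [h, h1]

private theorem p8_in {s t : E → V} (hl : ∀ e, s e ≠ t e) {u v : V} {p : E}
    (hp : p ∈ GW.J s t u v) : GW.hd s t (GW.inD t v p) = v ∧ GW.tl s t (GW.inD t v p) = u := by
  unfold GW.J at hp
  rw [Finset.mem_filter] at hp
  unfold GW.hd GW.tl GW.inD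
  rcases hp.2.2 with ⟨h1, h2⟩ | ⟨h1, h2⟩
  · simp [h1, h2]
  · have h3 : t p ≠ v := fun h' => hl p (h1.trans h'.symm)
    simp [h1, h2, hp.2.1]

private theorem p8_out {s t : E → V} (hl : ∀ e, s e ≠ t e) {v w : V} {q : E}
    (hq : q ∈ GW.J s t v w) : GW.tl s t (GW.outD s v q) = v ∧ GW.hd s t (GW.outD s v q) = w := by
  unfold GW.J at hq
  rw [Finset.mem_filter] at hq
  unfold GW.hd GW.tl GW.outD
  rcases hq.2.2 with ⟨h1, h2⟩ | ⟨h1, h2⟩
  · simp [h1, h2]
  · simp [h1, h2, hq.2.1.symm]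

theorem graph_list {s t : E → V} (hl : ∀ e, s e ≠ t e) (lam : ℚ) (hlam : 0 < lam)
    (κ : V → E → E → ℚ) (_hκ : ∀ v e f, 0 ≤ κ v e f) (hsym : ∀ v e f, κ v e f = κ v f e)
    (hpar : ∀ u v, ∀ e ∈ GW.J s t u v, ∀ f ∈ GW.J s t u v, κ v e f = 0)
    (hrow : ∀ v, ∀ e ∈ cut s t {v}, ∑ f ∈ (cut s t {v}).erase e, (lam + κ v e f) = 1)
    (_hm : ∀ u v, 2 * lam * (GW.J s t u v).card ≤ 1)
    (C : Chain (E × Bool) V) (hrv : C.rv = GW.rvd) (htl : C.tl = GW.tl s t)
    (hQ : ∀ a b, C.Q a b = if GW.hd s t a = GW.tl s t b ∧ GW.tl s t a ≠ GW.hd s t b then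
      lam + κ (GW.hd s t a) a.1 b.1 else 0)
    (T : ℕ) (γ β ε : ℚ) (hγ : 0 ≤ γ)
    (hmix : C.Mix T γ) (hβ : 0 < β) (hβ1 : β ≤ 1) (hov : C.Over β) (hε : 0 ≤ ε)
    (hstep : C.Step ε) (n : ℕ) (hn : 3 * T + 3 ≤ n) (h1 : 80 * (n + 1) * γ ≤ β)
    (h2 : 56 * (n + 1) ^ 3 * ε ≤ β) :
    ∃ (L : List (Finset E)) (N : ℕ), 0 < N ∧ (∀ C ∈ L, IsCycle s t C) ∧
      ∀ v, ∀ e ∈ cut s t {v}, ∀ f ∈ cut s t {v},
        ((L.countP fun C => e ∈ C ∧ f ∈ C : ℕ) : ℚ) =
          N * (if e = f then 1 else lam + κ v e f) := by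
  rcases isEmpty_or_nonempty E with hE | ⟨⟨e₀⟩⟩
  · refine ⟨[], 1, one_pos, fun X hX => absurd hX (by simp), ?_⟩
    intro v e
    exact (hE.false e).elim
  have : Nonempty (E × Bool) := ⟨(e₀, true)⟩
  obtain ⟨W, hW0, hW1, hW2⟩ := C.exact_law T γ β ε hγ hmix hβ hβ1 hov hε hstep n hn h1 h2
  have hn2 : 2 ≤ n := by omega
  have hcs : ∀ a, W a ≠ 0 → GW.ClosedSimple s t a := by
    intro a ha
    obtain ⟨h3, h4⟩ := hW1 a ha
    rw [hrv, htl] at h4
    rw [htl] at h3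
    refine ⟨fun i => ?_, h3⟩
    rw [← p9_tl_rvd]
    exact (h4 i).symm
  refine GW.cover_gen hl lam hlam.le κ hsym (fun _ _ _ _ _ _ => 0)
    (fun _ _ _ _ _ _ _ _ _ => le_refl 0) (fun _ _ _ _ _ _ _ _ => 0)
    (fun _ _ _ _ _ _ _ _ _ _ _ _ _ _ => le_refl 0) W hW0
    (fun a => univ.image fun i => (a i).1)
    (fun a ha => GW.closed_deg02 hl hn2 (hcs a ha))
    (fun a ha u v e he f hf heX hfX =>
      GW.closed_nopar hl hn2 (hcs a ha) u v e he f hf heX hfX) ?_ hpar hrow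
  intro c _
  have hT : GW.totT s t (fun _ _ _ _ _ _ => 0) c = 0 := by
    unfold GW.totT
    simp
  have hQ0 : GW.totQ s t (fun _ _ _ _ _ _ _ _ => 0) c = 0 := by
    unfold GW.totQ
    simp
  rw [hT, hQ0, add_zero]
  have h3 : GW.corner s t (fun _ v _ p q => lam + κ v p q -
      ∑ i, W i * (if p ∈ (univ.image fun j => (i j).1) ∧ q ∈ (univ.image fun j => (i j).1)
        then 1 else 0)) c = GW.corner s t (fun _ _ _ _ _ => 0) c := by
    refine GW.g3_corner_congr _ _ c fun u v w huv hvw huw p hp q hq => ?_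
    have hp1 := GW.oth_of_mem_J hl hp
    have hq' := hq
    rw [GW.J_comm] at hq'
    have hq1 := GW.oth_of_mem_J hl hq'
    have hpq : p ≠ q := by
      intro h
      rw [h] at hp1
      exact huw (hp1.2.symm.trans hq1.2)
    have hin := p8_in hl hp
    have hout := p8_out hl hq
    have hQv : C.Q (GW.inD t v p) (GW.outD s v q) = lam + κ v p q := by
      rw [hQ, if_pos ⟨hin.1.trans hout.1.symm, by rw [hin.2, hout.2]; exact huw⟩, hin.1]
      rfl
    have hQne : C.Q (GW.inD t v p) (GW.outD s v q) ≠ 0 := by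
      rw [C.Q_ne, htl, hrv, p9_tl_rvd, p9_tl_rvd]
      exact ⟨hout.1.trans hin.1.symm, by rw [hin.2, hout.2]; exact huw.symm⟩
    have h4 := hW2 _ _ hQne
    rw [hQv] at h4
    have h5 : ∑ i, W i * (if p ∈ (univ.image fun j => (i j).1) ∧
        q ∈ (univ.image fun j => (i j).1) then 1 else 0) = lam + κ v p q := by
      rw [← h4]
      apply Finset.sum_congr rfl
      intro a _
      by_cases ha : W a = 0
      · rw [ha, zero_mul, zero_mul]
      · rw [GW.closed_pair hl hn2 (hcs a ha) v p q hp1.1 hq1.1 hpq]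
        unfold cnt
        rw [hrv, p8_rvd_out hl hq1.1, p8_rvd_in hl hp1.1]
    show lam + κ v p q - _ = 0
    rw [h5, sub_self]
  have h4 : GW.corner s t (fun _ _ _ _ _ => 0) c = 0 := by
    unfold GW.corner
    simp
  rw [h3, h4]

end Pool.Agent.Lib.MP_95bb8c_al.PS
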