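import Pool.Agent.Lib.MP_95bb8c_al.PS.Defs

set_option autoImplicit false
set_option linter.unusedSectionVars false

/-!
# P11: reduced paths give the minorization
-/

namespace Pool.Agent.Lib.MP_95bb8c_al.PS

open Finset Matrix

section gen

variable {S : Type} [Fintype S] [DecidableEq S]

open scoped Classical in
/-- The paths with `m` steps. -/
noncomputable def p11N (R : S → S → Prop) (m : ℕ) (x y : S) : Finset (Fin (m + 1) → S) :=
  univ.filter fun p => p 0 = x ∧ p (Fin.last m) = y ∧ ∀ i : Fin m, R (p i.castSucc) (p i.succ)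

open scoped Classical in
lemma p11_step (R : S → S → Prop) (m : ℕ) (x y : S) :
    (p11N R (m + 1) x y).card ≤ ∑ z, if R x z then (p11N R m z y).card else 0 := by
  rw [← sum_filter]
  refine le_trans ?_ card_biUnion_le
  have hinj : Set.InjOn (fun p : Fin (m + 1 + 1) → S => Fin.tail p) (p11N R (m + 1) x y) := by
    intro p hp q hq h
    simp only [p11N, coe_filter, mem_univ, true_and, Set.mem_setOf_eq] at hp hq
    have h1 := Fin.cons_self_tail p
    have h2 := Fin.cons_self_tail q
    rw [← h1, ← h2]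
    have h3 : Fin.tail p = Fin.tail q := h
    rw [h3, hp.1, hq.1]
  rw [← card_image_of_injOn hinj]
  apply card_le_card
  intro q hq
  obtain ⟨p, hp, rfl⟩ := mem_image.1 hq
  simp only [p11N, mem_filter, mem_univ, true_and] at hp
  obtain ⟨h0, hl, hR⟩ := hp
  rw [mem_biUnion]
  refine ⟨p 1, ?_, ?_⟩
  · rw [mem_filter]
    refine ⟨mem_univ _, ?_⟩
    have := hR 0
    rw [← h0]
    exact this
  · simp only [p11N, mem_filter, mem_univ, true_and]
    refine ⟨rfl, ?_, ?_⟩
    · rw [← hl]
      rfl
    · intro i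
      exact hR i.succ

open scoped Classical in
lemma p11_pow (P : Matrix S S ℚ) (hP : ∀ x y, 0 ≤ P x y) (lam : ℚ) (hlam : 0 ≤ lam)
    (R : S → S → Prop) (hR : ∀ x y, R x y → lam ≤ P x y) (m : ℕ) :
    ∀ x y, lam ^ m * ((p11N R m x y).card : ℚ) ≤ (P ^ m) x y := by
  induction m with
  | zero =>
    intro x y
    rw [pow_zero, pow_zero, one_mul, Matrix.one_apply]
    split_ifs with h
    · have h1 : (p11N R 0 x y).card ≤ 1 := by
        rw [card_le_one]
        intro p hp q hq
        simp only [p11N, mem_filter, mem_univ, true_and] at hp hq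
        funext i
        have hi : i = 0 := Fin.ext (by omega)
        rw [hi, hp.1, hq.1]
      exact_mod_cast h1
    · have h1 : (p11N R 0 x y).card = 0 := by
        rw [card_eq_zero, eq_empty_iff_forall_notMem]
        intro p hp
        simp only [p11N, mem_filter, mem_univ, true_and] at hp
        exact h (hp.1.symm.trans hp.2.1)
      rw [h1]
      simp
  | succ m ih =>
    intro x y
    rw [pow_succ' P, Matrix.mul_apply]
    have h1 : ((p11N R (m + 1) x y).card : ℚ) ≤
        ∑ z, if R x z then ((p11N R m z y).card : ℚ) else 0 := by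
      have := p11_step R m x y
      have h2 : ((∑ z, if R x z then (p11N R m z y).card else 0 : ℕ) : ℚ) =
          ∑ z, if R x z then ((p11N R m z y).card : ℚ) else 0 := by
        push_cast
        rfl
      rw [← h2]
      exact_mod_cast this
    calc lam ^ (m + 1) * ((p11N R (m + 1) x y).card : ℚ)
        ≤ lam ^ (m + 1) * ∑ z, (if R x z then ((p11N R m z y).card : ℚ) else 0) :=
          mul_le_mul_of_nonneg_left h1 (by positivity)
      _ = ∑ z, lam ^ (m + 1) * (if R x z then ((p11N R m z y).card : ℚ) else 0) := mul_sum _ _ _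
      _ ≤ ∑ z, P x z * (P ^ m) z y := by
          refine sum_le_sum fun z _ => ?_
          have h3 := ih z y
          have h4 : (0 : ℚ) ≤ lam ^ m * ((p11N R m z y).card : ℚ) := by positivity
          split_ifs with hz
          · calc lam ^ (m + 1) * ((p11N R m z y).card : ℚ)
                = lam * (lam ^ m * ((p11N R m z y).card : ℚ)) := by ring
              _ ≤ P x z * (P ^ m) z y :=
                mul_le_mul (hR x z hz) h3 h4 (hP x z)
          · rw [mul_zero]
            exact mul_nonneg (hP x z) (h4.trans h3)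

end gen

section Words

variable {n : ℕ}

open scoped Classical in
lemma p11_rpaths (U : List (List (Letter n))) (m : ℕ) (a b : Pos U × Bool) :
    rpaths U m a b = (p11N (fun x y : Pos U × Bool =>
      GW.tl (src U) (tgt U) y = GW.hd (src U) (tgt U) x ∧
        GW.hd (src U) (tgt U) y ≠ GW.tl (src U) (tgt U) x) m a b).card := by
  unfold rpaths p11N
  rw [Nat.card_eq_fintype_card, Fintype.card_subtype]
  congr

theorem minor {U : List (List (Letter n))} (hU : CycRed U) (lam : ℚ) (hlam : 0 < lam)
    (κ : Letter n → Pos U → Pos U → ℚ) (hκ : ∀ v e f, 0 ≤ κ v e f)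
    (C : Chain (Pos U × Bool) (Letter n)) (hrv : C.rv = GW.rvd)
    (htl : C.tl = GW.tl (src U) (tgt U))
    (hQ : ∀ a b, C.Q a b = if GW.hd (src U) (tgt U) a = GW.tl (src U) (tgt U) b ∧
      GW.tl (src U) (tgt U) a ≠ GW.hd (src U) (tgt U) b then
      lam + κ (GW.hd (src U) (tgt U) a) a.1 b.1 else 0) (hs : ∀ a, 1 / 2 ≤ C.s a)
    (hs1 : ∀ a, C.s a ≤ 1) (m : ℕ)
    (θ D : ℚ) (hD : 0 < D) (hlD : 1 ≤ lam * D)
    (hθ : ∀ a b, θ * D ^ m ≤ Fintype.card (Pos U) * rpaths U m a b) (hθ0 : 0 ≤ θ) (a b) :
    θ * C.pi b ≤ (C.P ^ m) a b := by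
  have hP : ∀ x y, 0 ≤ C.P x y := by
    intro x y
    unfold Chain.P
    exact div_nonneg (C.Q_nonneg x y) (C.s_pos x).le
  have h1 := p11_pow C.P hP lam hlam.le (fun x y : Pos U × Bool =>
      GW.tl (src U) (tgt U) y = GW.hd (src U) (tgt U) x ∧
        GW.hd (src U) (tgt U) y ≠ GW.tl (src U) (tgt U) x) (by
      intro x y hxy
      unfold Chain.P
      rw [hQ, if_pos ⟨hxy.1.symm, fun h => hxy.2 h.symm⟩, le_div_iff₀ (C.s_pos x)]
      have h2 := hs1 x
      have h3 := C.s_pos x
      have h4 := hκ (GW.hd (src U) (tgt U) x) x.1 y.1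
      nlinarith) m a b
  rw [← p11_rpaths] at h1
  refine le_trans ?_ h1
  -- the stationary law is at most 1 / |E|
  have hE : (0 : ℚ) < Fintype.card (Pos U) := by
    have : Nonempty (Pos U) := ⟨b.1⟩
    exact_mod_cast Fintype.card_pos
  have hZ : (Fintype.card (Pos U) : ℚ) ≤ C.Z := by
    unfold Chain.Z
    calc (Fintype.card (Pos U) : ℚ) = ∑ _a : Pos U × Bool, (1 / 2 : ℚ) := by
          rw [sum_const, card_univ, Fintype.card_prod, Fintype.card_bool, nsmul_eq_mul]
          push_cast
          ring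
      _ ≤ _ := sum_le_sum fun a _ => hs a
  have hpi : C.pi b ≤ 1 / Fintype.card (Pos U) := by
    unfold Chain.pi
    exact div_le_div₀ (by norm_num) (hs1 b) hE hZ
  have hlDm : 1 ≤ (lam * D) ^ m := one_le_pow₀ hlD
  have h5 := hθ a b
  have hlm : 0 < lam ^ m := by positivity
  calc θ * C.pi b ≤ θ * (1 / Fintype.card (Pos U)) := mul_le_mul_of_nonneg_left hpi hθ0
    _ = θ / Fintype.card (Pos U) * 1 := by ring
    _ ≤ θ / Fintype.card (Pos U) * (lam * D) ^ m :=
        mul_le_mul_of_nonneg_left hlDm (by positivity)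
    _ = lam ^ m * (θ * D ^ m) / Fintype.card (Pos U) := by rw [mul_pow]; ring
    _ ≤ lam ^ m * (Fintype.card (Pos U) * rpaths U m a b) / Fintype.card (Pos U) :=
        div_le_div_of_nonneg_right (mul_le_mul_of_nonneg_left h5 hlm.le) hE.le
    _ = lam ^ m * rpaths U m a b := by
        field_simp

end Words

end Pool.Agent.Lib.MP_95bb8c_al.PS
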