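import Mathlib

set_option autoImplicit false

/-!
# The number of steps in the logarithmic form of the theorem
-/

namespace Pool.Agent.Lib.MP_95bb8c_al.PS

/-- The choice of the number of steps. -/
theorem p14_num {n m D M : ℕ} (hn : 1 < n) (hm : 1 ≤ m) (θ : ℚ) (hθ0 : 0 < θ) (hθ1 : θ ≤ 1)
    (h : 10 ^ 10 * (m * Real.log (n * m / θ)) ^ 3 * M ≤ (θ : ℝ) ^ 5 * D) :
    ∃ j : ℕ, 20000 * (n : ℚ) * (m * (j + 4)) * (1 - θ) ^ j ≤ θ ^ 2 ∧
      20000 * ((m : ℚ) * (j + 4)) ^ 3 * M ≤ θ ^ 2 * D := by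
  set t : ℝ := (θ : ℝ) with ht
  have ht0 : 0 < t := by rw [ht]; exact_mod_cast hθ0
  have ht1 : t ≤ 1 := by rw [ht]; exact_mod_cast hθ1
  have hn2 : (2 : ℝ) ≤ n := by exact_mod_cast hn
  have hm1 : (1 : ℝ) ≤ m := by exact_mod_cast hm
  set x : ℝ := n * m / t with hx
  have hnm : (2 : ℝ) ≤ n * m := by nlinarith
  have hxt : x * t = n * m := by rw [hx]; field_simp
  have hx2 : 2 ≤ x := by
    rw [hx, le_div_iff₀ ht0]
    nlinarith
  have hx0 : 0 < x := by linarith
  set L : ℝ := Real.log x with hL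
  have hL2 : 0.6931471803 < L := by
    have h1 := Real.log_two_gt_d9
    have h2 : Real.log 2 ≤ L := Real.log_le_log two_pos hx2
    linarith
  have hLx : L ≤ x := by
    have := Real.log_le_sub_one_of_pos hx0
    linarith
  have hL0 : 0 < L := by linarith
  -- the number of steps
  set j : ℕ := ⌈30 * L / t⌉₊ with hj
  have hj1 : 30 * L / t ≤ j := Nat.le_ceil _
  have hj2 : (j : ℝ) < 30 * L / t + 1 := Nat.ceil_lt_add_one (by positivity)
  have hj3 : (j : ℝ) * t ≤ 30 * L + t := by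
    have h1 : (j : ℝ) * t ≤ (30 * L / t + 1) * t := mul_le_mul_of_nonneg_right hj2.le ht0.le
    have h2 : (30 * L / t + 1) * t = 30 * L + t := by field_simp
    linarith
  have hj4 : ((j : ℝ) + 4) * t ≤ 38 * L := by nlinarith
  refine ⟨j, ?_, ?_⟩
  · -- the geometric factor
    have h1 : (1 - t) ^ j ≤ (x ^ 30)⁻¹ := by
      have h2 : 1 - t ≤ Real.exp (-t) := by
        have := Real.add_one_le_exp (-t)
        linarith
      have h3 : (1 - t) ^ j ≤ Real.exp (-t) ^ j := pow_le_pow_left₀ (by linarith) h2 j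
      have h4 : Real.exp (-t) ^ j = Real.exp (-(t * j)) := by
        rw [← Real.exp_nat_mul]
        congr 1
        ring
      have h5 : Real.exp (-(t * j)) ≤ Real.exp (-(30 * L)) := by
        rw [Real.exp_le_exp]
        have h6 : 30 * L / t * t ≤ j * t := mul_le_mul_of_nonneg_right hj1 ht0.le
        have h7 : 30 * L / t * t = 30 * L := by field_simp
        linarith
      have h6 : Real.exp (-(30 * L)) = (x ^ 30)⁻¹ := by
        rw [Real.exp_neg, inv_inj]
        have h7 : (30 : ℝ) * L = ((30 : ℕ) : ℝ) * L := by norm_num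
        rw [h7, Real.exp_nat_mul, hL, Real.exp_log hx0]
      linarith [h3, h4.le, h5, h6.le]
    have hreal : 20000 * (n : ℝ) * (m * (j + 4)) * (1 - t) ^ j ≤ t ^ 2 := by
      have h2 : 20000 * (n : ℝ) * (m * (j + 4)) * (1 - t) ^ j ≤
          20000 * (n : ℝ) * (m * (j + 4)) * (x ^ 30)⁻¹ :=
        mul_le_mul_of_nonneg_left h1 (by positivity)
      refine h2.trans ?_
      rw [← div_eq_mul_inv, div_le_iff₀ (by positivity)]
      -- `n m (j + 4) = x t (j + 4) ≤ 38 L x ≤ 38 x ^ 2` and `t x ≥ 2`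
      have h3 : 20000 * (n : ℝ) * (m * (j + 4)) = 20000 * (x * (((j : ℝ) + 4) * t)) := by
        have : 20000 * (n : ℝ) * (m * (j + 4)) = 20000 * ((n * m) * ((j : ℝ) + 4)) := by ring
        rw [this, ← hxt]
        ring
      have h4 : 20000 * (x * (((j : ℝ) + 4) * t)) ≤ 760000 * x ^ 2 := by
        have h5 : ((j : ℝ) + 4) * t ≤ 38 * x := by linarith
        have h6 := mul_le_mul_of_nonneg_left h5 hx0.le
        nlinarith
      have h5 : 2 ≤ x * t := by rw [hxt]; exact hnm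
      have h6 : 4 ≤ (x * t) ^ 2 := by nlinarith
      have h7 : (2 : ℝ) ^ 26 ≤ x ^ 26 := pow_le_pow_left₀ (by norm_num) hx2 26
      have h8 : t ^ 2 * x ^ 30 = (x * t) ^ 2 * (x ^ 2 * x ^ 26) := by ring
      rw [h3, h8]
      refine h4.trans ?_
      have h9 : (760000 : ℝ) ≤ x ^ 26 := by
        have : (760000 : ℝ) ≤ 2 ^ 26 := by norm_num
        linarith
      have h10 : 760000 * x ^ 2 ≤ x ^ 2 * x ^ 26 := by
        rw [mul_comm]
        exact mul_le_mul_of_nonneg_left h9 (by positivity)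
      have h11 : 0 ≤ x ^ 2 * x ^ 26 := by positivity
      nlinarith
    have h2 : (((20000 * (n : ℚ) * (m * (j + 4)) * (1 - θ) ^ j : ℚ)) : ℝ) ≤ ((θ ^ 2 : ℚ) : ℝ) := by
      push_cast
      exact hreal
    exact_mod_cast h2
  · have hreal : 20000 * ((m : ℝ) * (j + 4)) ^ 3 * M ≤ t ^ 2 * D := by
      have h1 : (((j : ℝ) + 4) * t) ^ 3 ≤ (38 * L) ^ 3 := pow_le_pow_left₀ (by positivity) hj4 3
      have h2 : 20000 * ((m : ℝ) * (j + 4)) ^ 3 * M * t ^ 3 ≤ t ^ 2 * D * t ^ 3 := by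
        have h3 : 20000 * ((m : ℝ) * (j + 4)) ^ 3 * M * t ^ 3 =
            20000 * ((m : ℝ) ^ 3 * M) * (((j : ℝ) + 4) * t) ^ 3 := by ring
        have h4 : 20000 * ((m : ℝ) ^ 3 * M) * (((j : ℝ) + 4) * t) ^ 3 ≤
            20000 * ((m : ℝ) ^ 3 * M) * (38 * L) ^ 3 :=
          mul_le_mul_of_nonneg_left h1 (by positivity)
        have h5 : 20000 * ((m : ℝ) ^ 3 * M) * (38 * L) ^ 3 ≤ 10 ^ 10 * (m * L) ^ 3 * M := by
          have h6 : 0 ≤ (m : ℝ) ^ 3 * M * L ^ 3 := by positivity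
          nlinarith
        have h7 : t ^ 2 * D * t ^ 3 = t ^ 5 * D := by ring
        rw [h3, h7]
        exact h4.trans (h5.trans h)
      exact le_of_mul_le_mul_right h2 (by positivity)
    have h2 : (((20000 * ((m : ℚ) * (j + 4)) ^ 3 * M : ℚ)) : ℝ) ≤ ((θ ^ 2 * D : ℚ) : ℝ) := by
      push_cast
      exact hreal
    exact_mod_cast h2

end Pool.Agent.Lib.MP_95bb8c_al.PS
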