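import Pool.Agent.Lib.MP_95bb8c_al.PS.Final
import Pool.Agent.Lib.MP_95bb8c_al.PS.LogNum

set_option autoImplicit false
set_option linter.unusedSectionVars false

/-!
# The logarithmic form of the theorem
-/

namespace Pool.Agent.Lib.MP_95bb8c_al.PS

open Finset

variable {n : ℕ}

/-- The tiling conjecture for pseudorandom Whitehead graphs of large degree, logarithmic form. -/
theorem pseudo_log (hn : 1 < n) {U : List (List (Letter n))} (hU : CycRed U) (hne : U ≠ [])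
    (D M : ℕ) (hD : ∀ a, occ U a ≤ D) (hD' : ∃ a, occ U a = D)
    (hM : ∀ u v : Letter n, u ≠ v → GW.mult U u v ≤ M) (m : ℕ) (hm : 1 ≤ m) (θ : ℚ)
    (hθ0 : 0 < θ) (hθ1 : θ ≤ 1)
    (hθ : ∀ a b, θ * (D : ℚ) ^ m ≤ Fintype.card (Pos U) * rpaths U m a b)
    (h : 10 ^ 10 * (m * Real.log (n * m / θ)) ^ 3 * M ≤ (θ : ℝ) ^ 5 * D) :
    GW.Polygonal U := by
  obtain ⟨j, h1, h2⟩ := p14_num hn hm θ hθ0 hθ1 h
  exact pseudo hn hU hne D M hD hD' hM m hm θ hθ0 hθ1 hθ j h1 h2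

end Pool.Agent.Lib.MP_95bb8c_al.PS
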