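import Mathlib

set_option autoImplicit false
set_option linter.unusedSectionVars false

/-!
# A minorised Markov chain is mixed in the sup norm
-/

namespace Pool.Agent.Lib.MP_95bb8c_al.PS

open Finset

variable {S : Type} [Fintype S] [DecidableEq S]

theorem p2_l1 (M : Matrix S S ℚ) (hM : ∀ x y, 0 ≤ M x y) (r : ℚ) (hrow : ∀ x, ∑ y, M x y = r)
    (ν : S → ℚ) : ∑ y, |∑ x, ν x * M x y| ≤ r * ∑ x, |ν x| := by
  calc ∑ y, |∑ x, ν x * M x y| ≤ ∑ y, ∑ x, |ν x| * M x y := by
        refine sum_le_sum fun y _ => (abs_sum_le_sum_abs _ _).trans_eq ?_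
        refine sum_congr rfl fun x _ => ?_
        rw [abs_mul, abs_of_nonneg (hM x y)]
    _ = ∑ x, |ν x| * ∑ y, M x y := by
        rw [sum_comm]
        refine sum_congr rfl fun x _ => ?_
        rw [mul_sum]
    _ = r * ∑ x, |ν x| := by
        rw [mul_sum]
        refine sum_congr rfl fun x _ => ?_
        rw [hrow, mul_comm]

theorem p2_pow_nonneg (P : Matrix S S ℚ) (hP : ∀ x y, 0 ≤ P x y) (k : ℕ) (x y : S) :
    0 ≤ (P ^ k) x y := by
  induction k generalizing y with
  | zero =>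
    rw [pow_zero, Matrix.one_apply]
    split <;> norm_num
  | succ k ih =>
    rw [pow_succ, Matrix.mul_apply]
    exact sum_nonneg fun z _ => mul_nonneg (ih z) (hP z y)

theorem p2_pow_row (P : Matrix S S ℚ) (hrow : ∀ x, ∑ y, P x y = 1) (k : ℕ) (x : S) :
    ∑ y, (P ^ k) x y = 1 := by
  induction k with
  | zero => simp [Matrix.one_apply]
  | succ k ih =>
    have h1 : ∀ y, (P ^ (k + 1)) x y = ∑ z, (P ^ k) x z * P z y := fun y => by
      rw [pow_succ, Matrix.mul_apply]
    simp only [h1]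
    rw [sum_comm]
    rw [← ih]
    refine sum_congr rfl fun z _ => ?_
    rw [← mul_sum, hrow, mul_one]

theorem p2_pow_st (P : Matrix S S ℚ) (π : S → ℚ) (hst : ∀ y, ∑ x, π x * P x y = π y) (k : ℕ)
    (y : S) : ∑ x, π x * (P ^ k) x y = π y := by
  induction k generalizing y with
  | zero => simp [Matrix.one_apply]
  | succ k ih =>
    have h1 : ∀ x, (P ^ (k + 1)) x y = ∑ z, (P ^ k) x z * P z y := fun x => by
      rw [pow_succ, Matrix.mul_apply]
    simp only [h1, mul_sum]
    rw [sum_comm]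
    conv_rhs => rw [← hst y]
    refine sum_congr rfl fun z _ => ?_
    conv_rhs => rw [← ih z, sum_mul]
    refine sum_congr rfl fun x _ => ?_
    ring

theorem mixing (P : Matrix S S ℚ) (hP : ∀ x y, 0 ≤ P x y) (hrow : ∀ x, ∑ y, P x y = 1)
    (π : S → ℚ) (hπ0 : ∀ x, 0 ≤ π x) (hπ1 : ∑ x, π x = 1) (hst : ∀ y, ∑ x, π x * P x y = π y)
    (m : ℕ) (θ : ℚ) (_hθ : 0 ≤ θ) (hθ1 : θ ≤ 1) (hmin : ∀ x y, θ * π y ≤ (P ^ m) x y)
    (B : ℚ) (hB : ∀ x y, P x y ≤ B * π y) (j t : ℕ) (ht : j * m + 1 ≤ t) (x y : S) :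
    |(P ^ t) x y - π y| ≤ 2 * (1 - θ) ^ j * B * π y := by
  -- the error after `t` steps
  set f : ℕ → S → ℚ := fun t z => (P ^ t) x z - π z with hf
  have hf0 : ∀ t, ∑ z, f t z = 0 := fun t => by
    simp only [hf, sum_sub_distrib, p2_pow_row P hrow t x, hπ1, sub_self]
  have hstep : ∀ t k y, f (t + k) y = ∑ z, f t z * (P ^ k) z y := fun t k y => by
    simp only [hf, sub_mul, sum_sub_distrib, p2_pow_st P π hst k y]
    rw [pow_add, Matrix.mul_apply]
  -- the norm does not grow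
  have hle : ∀ t k, ∑ z, |f (t + k) z| ≤ ∑ z, |f t z| := fun t k => by
    have h1 := p2_l1 (P ^ k) (p2_pow_nonneg P hP k) 1 (p2_pow_row P hrow k) (f t)
    rw [one_mul] at h1
    refine le_trans (le_of_eq ?_) h1
    refine sum_congr rfl fun z _ => ?_
    rw [hstep]
  -- the norm shrinks after `m` steps
  have hcon : ∀ t, ∑ z, |f (t + m) z| ≤ (1 - θ) * ∑ z, |f t z| := fun t => by
    have h1 := p2_l1 (Matrix.of fun z y => (P ^ m) z y - θ * π y)
      (fun z y => sub_nonneg.2 (hmin z y)) (1 - θ) (fun z => by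
        simp only [Matrix.of_apply, sum_sub_distrib, p2_pow_row P hrow m z, ← mul_sum, hπ1,
          mul_one]) (f t)
    refine le_trans (le_of_eq ?_) h1
    refine sum_congr rfl fun y _ => ?_
    rw [hstep]
    congr 1
    simp only [Matrix.of_apply, mul_sub, sum_sub_distrib]
    have h2 : ∑ z, f t z * (θ * π y) = 0 := by
      rw [← sum_mul, hf0, zero_mul]
    rw [h2, sub_zero]
  have hzero : ∑ z, |f 0 z| ≤ 2 := by
    calc ∑ z, |f 0 z| ≤ ∑ z, (|(P ^ 0) x z| + |π z|) := sum_le_sum fun z _ => abs_sub _ _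
      _ = ∑ z, ((P ^ 0) x z + π z) := by
          refine sum_congr rfl fun z _ => ?_
          rw [abs_of_nonneg (p2_pow_nonneg P hP 0 x z), abs_of_nonneg (hπ0 z)]
      _ = 2 := by
          rw [sum_add_distrib, p2_pow_row P hrow 0 x, hπ1]
          norm_num
  have hj : ∀ j, ∑ z, |f (j * m) z| ≤ 2 * (1 - θ) ^ j := fun j => by
    induction j with
    | zero =>
      rw [zero_mul, pow_zero, mul_one]
      exact hzero
    | succ j ih =>
      have h1 := hcon (j * m)
      have h2 : j * m + m = (j + 1) * m := by ring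
      rw [h2] at h1
      refine h1.trans ?_
      have h3 := mul_le_mul_of_nonneg_left ih (sub_nonneg.2 hθ1)
      refine h3.trans (le_of_eq ?_)
      ring
  obtain ⟨k, rfl⟩ : ∃ k, t = (j * m + k) + 1 := ⟨t - 1 - j * m, by omega⟩
  have h1 : ∑ z, |f (j * m + k) z| ≤ 2 * (1 - θ) ^ j := (hle _ _).trans (hj j)
  have h2 : (P ^ (j * m + k + 1)) x y - π y = ∑ z, f (j * m + k) z * P z y := by
    have h3 := hstep (j * m + k) 1 y
    rw [pow_one] at h3
    exact h3
  rw [h2]
  calc |∑ z, f (j * m + k) z * P z y| ≤ ∑ z, |f (j * m + k) z| * (B * π y) := by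
        refine (abs_sum_le_sum_abs _ _).trans (sum_le_sum fun z _ => ?_)
        rw [abs_mul, abs_of_nonneg (hP z y)]
        exact mul_le_mul_of_nonneg_left (hB z y) (abs_nonneg _)
    _ = (∑ z, |f (j * m + k) z|) * (B * π y) := by rw [sum_mul]
    _ ≤ (2 * (1 - θ) ^ j) * (B * π y) := by
        refine mul_le_mul_of_nonneg_right h1 ?_
        exact (hP x y).trans (hB x y)
    _ = 2 * (1 - θ) ^ j * B * π y := by ring

end Pool.Agent.Lib.MP_95bb8c_al.PS
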