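import Pool.Agent.Lib.MP_95bb8c_al.PS.Log

set_option autoImplicit false
set_option linter.unusedSectionVars false

/-!
# The logarithmic form of the theorem with a real parameter and an upper bound for the degrees
-/

namespace Pool.Agent.Lib.MP_95bb8c_al.PS

open Finset

variable {n : ℕ}

/-- The tiling conjecture for pseudorandom Whitehead graphs of large degree. -/
theorem pseudo_real (hn : 1 < n) {U : List (List (Letter n))} (hU : CycRed U) (hne : U ≠ [])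
    (D M m : ℕ) (θ : ℝ) (hθ0 : 0 < θ) (hD : ∀ a, occ U a ≤ D)
    (hM : ∀ u v : Letter n, u ≠ v → GW.mult U u v ≤ M)
    (hpath : ∀ a b, θ * (D : ℝ) ^ m ≤ Fintype.card (Pos U) * rpaths U m a b)
    (hlog : 10 ^ 10 * (m * Real.log (n * m / θ)) ^ 3 * M ≤ θ ^ 5 * D) :
    GW.Polygonal U := by
  classical
  have hl := no_loop hU
  -- a position
  obtain ⟨p₀⟩ : Nonempty (Pos U) := by
    have h3 : 0 < U.length := List.length_pos_of_ne_nil hne
    have h4 : 0 < (U.get ⟨0, h3⟩).length :=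
      List.length_pos_of_ne_nil (hU.1 _ (List.get_mem _ _))
    exact ⟨⟨⟨0, h3⟩, ⟨0, h4⟩⟩⟩
  have hE1 : (1 : ℝ) ≤ (Fintype.card (Pos U) : ℝ) := by
    have : 0 < Fintype.card (Pos U) := Fintype.card_pos_iff.2 ⟨p₀⟩
    exact_mod_cast this
  -- the largest number of occurrences
  obtain ⟨a₁, -, ha₁⟩ := Finset.exists_max_image (univ : Finset (Fin n)) (fun a => occ U a)
    ⟨p₀.letter.1, Finset.mem_univ _⟩
  obtain ⟨D₀, hD₀⟩ : ∃ D₀ : ℕ, D₀ = occ U a₁ := ⟨_, rfl⟩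
  have hmax : ∀ a, occ U a ≤ D₀ := by
    intro a
    rw [hD₀]
    exact ha₁ a (Finset.mem_univ _)
  have hD₀1 : 1 ≤ D₀ := by
    refine le_trans ?_ (hmax p₀.letter.1)
    rw [occ_eq]
    exact Finset.card_pos.2 ⟨p₀, by rw [Finset.mem_filter]; exact ⟨Finset.mem_univ _, rfl⟩⟩
  have hD₀D : D₀ ≤ D := by rw [hD₀]; exact hD a₁
  have hD₀q : (1 : ℝ) ≤ D₀ := by exact_mod_cast hD₀1
  have hD₀Dq : (D₀ : ℝ) ≤ D := by exact_mod_cast hD₀D
  have hDq : (1 : ℝ) ≤ D := le_trans hD₀q hD₀Dq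
  -- the number of steps is positive
  have hm : 1 ≤ m := by
    by_contra hm0
    have hm0 : m = 0 := by omega
    subst hm0
    have h1 := hpath (p₀, true) (p₀, false)
    have h2 : rpaths U 0 (p₀, true) (p₀, false) = 0 := by
      unfold rpaths
      rw [Nat.card_eq_zero]
      left
      constructor
      rintro ⟨p, h3, h4, -⟩
      have h5 : (p₀, true) = (p₀, false) := by rw [← h3, ← h4]; rfl
      simp at h5
    rw [h2] at h1
    simp at h1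
    linarith
  -- the least number of paths
  have hne2 : (univ : Finset ((Pos U × Bool) × (Pos U × Bool))).Nonempty :=
    ⟨((p₀, true), (p₀, true)), Finset.mem_univ _⟩
  obtain ⟨x₀, -, hx₀⟩ := Finset.exists_min_image univ (fun x => rpaths U m x.1 x.2) hne2
  obtain ⟨r₀, hr₀⟩ : ∃ r₀ : ℕ, r₀ = rpaths U m x₀.1 x₀.2 := ⟨_, rfl⟩
  have hmin : ∀ a b, r₀ ≤ rpaths U m a b := by
    intro a b
    rw [hr₀]
    exact hx₀ (a, b) (Finset.mem_univ _)
  obtain ⟨θ₀, hθ₀⟩ : ∃ θ₀ : ℚ, θ₀ = (Fintype.card (Pos U) : ℚ) * r₀ / (D₀ : ℚ) ^ m := ⟨_, rfl⟩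
  have hDm : (0 : ℚ) < (D₀ : ℚ) ^ m := by
    have : (0 : ℚ) < D₀ := by exact_mod_cast hD₀1
    positivity
  have hθ₀D : θ₀ * (D₀ : ℚ) ^ m = Fintype.card (Pos U) * r₀ := by
    rw [hθ₀, div_mul_cancel₀ _ hDm.ne']
  have hpath₀ : ∀ a b, θ₀ * (D₀ : ℚ) ^ m ≤ Fintype.card (Pos U) * rpaths U m a b := by
    intro a b
    rw [hθ₀D]
    exact mul_le_mul_of_nonneg_left (by exact_mod_cast hmin a b) (Nat.cast_nonneg _)
  have hcmp : θ * (D : ℝ) ^ m ≤ (θ₀ : ℝ) * (D₀ : ℝ) ^ m := by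
    have h1 : (θ₀ : ℝ) * (D₀ : ℝ) ^ m = Fintype.card (Pos U) * r₀ := by exact_mod_cast hθ₀D
    rw [h1, hr₀]
    exact hpath x₀.1 x₀.2
  -- comparison of the parameters
  have hq1 : (1 : ℝ) ≤ D / D₀ := (one_le_div (by linarith)).2 hD₀Dq
  have hθθ : θ * (D / D₀) ≤ (θ₀ : ℝ) := by
    have h1 : θ * ((D : ℝ) / D₀) ^ m ≤ θ₀ := by
      rw [div_pow, ← mul_div_assoc, div_le_iff₀ (by positivity)]
      exact hcmp
    refine le_trans (mul_le_mul_of_nonneg_left ?_ hθ0.le) h1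
    exact le_self_pow₀ hq1 (by omega)
  have hθle : θ ≤ (θ₀ : ℝ) := by
    refine le_trans ?_ hθθ
    nlinarith
  have hθ₀pos : (0 : ℝ) < θ₀ := lt_of_lt_of_le hθ0 hθle
  have hθ₀pos' : 0 < θ₀ := by exact_mod_cast hθ₀pos
  have hdeg : ∀ v : Letter n, (star U v).card = occ U v.1 := fun v => dg_eq hU v
  have hhalf : 2 * θ₀ ≤ 1 := by
    have h1 := degree_low hU hne D₀ (fun v => by rw [hdeg v]; exact hmax v.1) m hm θ₀ hpath₀
      hθ₀pos'.le (src U p₀) ⟨p₀, by unfold star; rw [mem_star hl]; exact Or.inl rfl⟩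
    have h2 : (((star U (src U p₀)).card : ℕ) : ℚ) ≤ D₀ := by
      rw [hdeg]
      exact_mod_cast hmax _
    have h3 : (0 : ℚ) < D₀ := by exact_mod_cast hD₀1
    have h4 : 2 * θ₀ * D₀ ≤ 1 * D₀ := by linarith
    exact le_of_mul_le_mul_right h4 h3
  have hhalfR : 2 * (θ₀ : ℝ) ≤ 1 := by exact_mod_cast hhalf
  have hnm : (1 : ℝ) ≤ n * m := by
    have h1 : (1 : ℝ) ≤ n := by exact_mod_cast hn.le
    have h2 : (1 : ℝ) ≤ m := by exact_mod_cast hm
    nlinarith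
  have hlog0 : 0 ≤ Real.log (n * m / θ₀) := by
    apply Real.log_nonneg
    rw [le_div_iff₀ hθ₀pos]
    linarith
  have hlogle : Real.log (n * m / θ₀) ≤ Real.log (n * m / θ) := by
    apply Real.log_le_log (by positivity)
    exact div_le_div_of_nonneg_left (by linarith) hθ0 hθle
  refine pseudo_log hn hU hne D₀ M hmax ⟨a₁, hD₀.symm⟩ hM m hm θ₀ hθ₀pos' (by linarith) hpath₀ ?_
  have h1 : 10 ^ 10 * ((m : ℝ) * Real.log (n * m / θ₀)) ^ 3 * M ≤
      10 ^ 10 * ((m : ℝ) * Real.log (n * m / θ)) ^ 3 * M := by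
    apply mul_le_mul_of_nonneg_right _ (Nat.cast_nonneg _)
    apply mul_le_mul_of_nonneg_left _ (by norm_num)
    apply pow_le_pow_left₀ (by positivity)
    exact mul_le_mul_of_nonneg_left hlogle (Nat.cast_nonneg _)
  have h2 : θ ^ 5 * D ≤ (θ₀ : ℝ) ^ 5 * D₀ := by
    have h3 : (θ * (D / D₀)) ^ 5 ≤ (θ₀ : ℝ) ^ 5 := pow_le_pow_left₀ (by positivity) hθθ 5
    have h4 : (θ * ((D : ℝ) / D₀)) ^ 5 * D₀ ≤ (θ₀ : ℝ) ^ 5 * D₀ :=
      mul_le_mul_of_nonneg_right h3 (by linarith)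
    refine le_trans ?_ h4
    have h5 : (θ * ((D : ℝ) / D₀)) ^ 5 * D₀ = θ ^ 5 * (((D : ℝ) / D₀) ^ 4 * D) := by
      field_simp
    rw [h5]
    apply mul_le_mul_of_nonneg_left _ (by positivity)
    have h6 : (1 : ℝ) ≤ ((D : ℝ) / D₀) ^ 4 := one_le_pow₀ hq1
    nlinarith
  linarith

end Pool.Agent.Lib.MP_95bb8c_al.PS
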